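import Pool.Agent.Helper75.SNF.Defs

set_option autoImplicit false
set_option linter.style.haveILetI false

namespace Pool.Agent.Helper75.SNF

open Subgroup

/-- `form G` is the smallest formation containing the finite group `G`. -/
def form (G : Type) [Group G] : GroupClass :=
  fun H _ => ∀ F : GroupClass, IsFormation F → F G → F H

/-- Every normal subgroup of `G` is perfect. -/
def NP (G : Type) [Group G] : Prop := ∀ H : Subgroup G, H.Normal → ⁅H, H⁆ = H

namespace IsFormation

variable {F : GroupClass}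

theorem surj (hF : IsFormation F) {G H : Type} [Group G] [Group H] (h : F G) (f : G →* H)
    (hf : Function.Surjective f) : F H := by
  have h1 : F (G ⧸ f.ker) := hF.quotient G f.ker h
  exact hF.iso _ _ ⟨QuotientGroup.quotientKerEquivOfSurjective f hf⟩ h1

theorem subdirect_hom (hF : IsFormation F) {G A B : Type} [Group G] [Finite G] [Group A] [Group B]
    (f : G →* A) (g : G →* B) (hf : Function.Surjective f) (hg : Function.Surjective g)
    (hA : F A) (hB : F B) (h : ∀ x, f x = 1 → g x = 1 → x = 1) : F G := by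
  have h1 : F (G ⧸ f.ker) :=
    hF.iso _ _ ⟨(QuotientGroup.quotientKerEquivOfSurjective f hf).symm⟩ hA
  have h2 : F (G ⧸ g.ker) :=
    hF.iso _ _ ⟨(QuotientGroup.quotientKerEquivOfSurjective g hg).symm⟩ hB
  have h3 := hF.subdirect G f.ker g.ker h1 h2
  have h4 : f.ker ⊓ g.ker = ⊥ := by
    rw [eq_bot_iff]
    intro x hx
    exact Subgroup.mem_bot.2 (h x (MonoidHom.mem_ker.1 hx.1) (MonoidHom.mem_ker.1 hx.2))
  let φ : (G ⧸ (f.ker ⊓ g.ker)) →* G :=
    QuotientGroup.lift (f.ker ⊓ g.ker) (MonoidHom.id G) (fun x hx => by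
      rw [h4, Subgroup.mem_bot] at hx
      simpa using hx)
  exact hF.surj h3 φ (fun x => ⟨(x : G ⧸ (f.ker ⊓ g.ker)), rfl⟩)

theorem trivial_mem (hF : IsFormation F) {K : Type} [Group K] (hK : F K) {G : Type} [Group G]
    (h : ∀ x : G, x = 1) : F G := by
  refine hF.surj hK (1 : K →* G) (fun x => ⟨1, ?_⟩)
  rw [h x]
  rfl

theorem subdirect_fin (hF : IsFormation F) {K : Type} [Group K] (hK : F K) (n : ℕ) :
    ∀ {G : Type} [Group G] [Finite G]
    {A : Fin n → Type} [∀ i, Group (A i)] (f : ∀ i, G →* A i)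
    (_ : ∀ i, Function.Surjective (f i)) (_ : ∀ i, F (A i))
    (_ : ∀ x, (∀ i, f i x = 1) → x = 1), F G := by
  induction n with
  | zero =>
    intro G _ _ A _ f _ _ h
    exact hF.trivial_mem hK (fun x => h x (fun i => i.elim0))
  | succ n ih =>
    intro G _ _ A _ f hf hA h
    let N : Subgroup G := ⨅ i : Fin n, (f i.succ).ker
    haveI hN : N.Normal := Subgroup.normal_iInf_normal (fun i => inferInstance)
    have hmem : ∀ x : G, x ∈ N ↔ ∀ i : Fin n, f i.succ x = 1 := by
      intro x
      simp only [N, Subgroup.mem_iInf, MonoidHom.mem_ker]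
    have h1 : F (G ⧸ N) := by
      refine ih (A := fun i => A i.succ)
        (fun i => QuotientGroup.lift N (f i.succ) (fun x hx => (hmem x).1 hx i)) ?_ ?_ ?_
      · intro i y
        obtain ⟨x, hx⟩ := hf i.succ y
        exact ⟨(x : G ⧸ N), hx⟩
      · intro i
        exact hA i.succ
      · intro x
        induction x using QuotientGroup.induction_on with
        | H x =>
          intro hx
          rw [QuotientGroup.eq_one_iff]
          exact (hmem x).2 hx
    refine hF.subdirect_hom (f 0) (QuotientGroup.mk' N) (hf 0) (QuotientGroup.mk'_surjective N)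
      (hA 0) h1 ?_
    intro x hx1 hx2
    refine h x (fun i => ?_)
    refine Fin.cases hx1 (fun j => ?_) i
    have h2 : x ∈ N := by
      rw [← QuotientGroup.eq_one_iff]
      exact hx2
    exact (hmem x).1 h2 j

/-- A finite jointly injective family of surjections onto members, indexed by a finite type. -/
theorem subdirect_finite (hF : IsFormation F) {K : Type} [Group K] (hK : F K)
    {G : Type} [Group G] [Finite G] {ι : Type} [Finite ι] {A : ι → Type} [∀ i, Group (A i)]
    (f : ∀ i, G →* A i) (hf : ∀ i, Function.Surjective (f i)) (hA : ∀ i, F (A i))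
    (h : ∀ x, (∀ i, f i x = 1) → x = 1) : F G := by
  classical
  haveI : Fintype ι := Fintype.ofFinite ι
  let e := Fintype.equivFin ι
  refine hF.subdirect_fin hK (Fintype.card ι) (A := fun i => A (e.symm i))
    (fun i => f (e.symm i)) (fun i => hf _) (fun i => hA _) ?_
  intro x hx
  refine h x (fun i => ?_)
  have := hx (e i)
  rwa [Equiv.symm_apply_apply] at this

theorem prod (hF : IsFormation F) {A B : Type} [Group A] [Group B] (hA : F A) (hB : F B) :
    F (A × B) := by
  haveI := hF.finite A hA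
  haveI := hF.finite B hB
  refine hF.subdirect_hom (MonoidHom.fst A B) (MonoidHom.snd A B) (fun a => ⟨(a, 1), rfl⟩)
    (fun b => ⟨(1, b), rfl⟩) hA hB ?_
  intro x h1 h2
  exact Prod.ext h1 h2

end IsFormation

theorem IsSubdirectPower.finite {A B : Type} [Group A] [Group B] [Finite B]
    (h : IsSubdirectPower A B) : Finite A := by
  obtain ⟨n, f, _, h⟩ := h
  refine Finite.of_injective (fun a i => f i a) ?_
  intro a b hab
  have h1 : ∀ i, f i (a * b⁻¹) = 1 := by
    intro i
    have := congrFun hab i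
    simp only at this
    rw [map_mul, map_inv, this, mul_inv_cancel]
  exact mul_inv_eq_one.1 (h _ h1)

theorem IsFormation.of_subdirectPower {F : GroupClass} (hF : IsFormation F) {A B : Type} [Group A]
    [Group B] (hB : F B) (h : IsSubdirectPower A B) : F A := by
  haveI := hF.finite B hB
  haveI := h.finite
  obtain ⟨n, f, hf, h⟩ := h
  exact hF.subdirect_fin hB n f hf (fun _ => hB) h

theorem IsFormation.of_image {F : GroupClass} (hF : IsFormation F) {A B : Type} [Group A]
    [Group B] (hB : F B) (h : IsImageOfSubdirectPower A B) : F A := by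
  obtain ⟨R, _, hR, ρ, hρ⟩ := h
  exact hF.surj (hF.of_subdirectPower hB hR) ρ hρ

theorem IsSubdirectPower.of_finite {A B : Type} [Group A] [Group B] {ι : Type} [Finite ι]
    (f : ι → (A →* B)) (hf : ∀ i, Function.Surjective (f i))
    (h : ∀ a : A, (∀ i, f i a = 1) → a = 1) : IsSubdirectPower A B := by
  classical
  haveI : Fintype ι := Fintype.ofFinite ι
  let e := Fintype.equivFin ι
  refine ⟨Fintype.card ι, fun i => f (e.symm i), fun i => hf _, ?_⟩
  intro x hx
  refine h x (fun i => ?_)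
  have := hx (e i)
  simpa using this

theorem IsSubdirectPower.refl (A : Type) [Group A] : IsSubdirectPower A A :=
  ⟨1, fun _ => MonoidHom.id A, fun _ x => ⟨x, rfl⟩, fun _ h => h 0⟩

theorem isFormation_finite : IsFormation (fun G _ => Finite G) where
  finite := fun _ _ h => h
  iso := fun _ _ _ _ ⟨e⟩ h => by
    haveI := h
    exact Finite.of_equiv _ e.toEquiv
  quotient := fun G _ N _ h => by
    haveI : Finite G := h
    exact (inferInstance : Finite (G ⧸ N))
  subdirect := fun G _ hG M N _ _ _ _ => by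
    haveI : Finite G := hG
    exact (inferInstance : Finite (G ⧸ (M ⊓ N)))

theorem form_finite {G H : Type} [Group G] [Group H] [Finite G] (h : form G H) : Finite H :=
  h _ isFormation_finite ‹Finite G›

theorem self_mem_form (G : Type) [Group G] : form G G := fun _ _ h => h

theorem form_isFormation (G : Type) [Group G] [Finite G] : IsFormation (form G) where
  finite := fun _ _ h => form_finite h
  iso := fun A B _ _ e h F hF hG => hF.iso A B e (h F hF hG)
  quotient := fun A _ N _ h F hF hG => hF.quotient A N (h F hF hG)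
  subdirect := fun A _ _ M N _ _ h1 h2 F hF hG => hF.subdirect A M N (h1 F hF hG) (h2 F hF hG)

theorem image_isFormation (G : Type) [Group G] [Finite G] :
    IsFormation (fun K _ => IsImageOfSubdirectPower K G) where
  finite := by
    rintro K _ ⟨R, _, hR, ρ, hρ⟩
    haveI := hR.finite
    exact Finite.of_surjective ρ hρ
  iso := by
    rintro A B _ _ ⟨e⟩ ⟨R, _, hR, ρ, hρ⟩
    exact ⟨R, _, hR, e.toMonoidHom.comp ρ, e.surjective.comp hρ⟩
  quotient := by
    rintro A _ N _ ⟨R, _, hR, ρ, hρ⟩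
    exact ⟨R, _, hR, (QuotientGroup.mk' N).comp ρ, (QuotientGroup.mk'_surjective N).comp hρ⟩
  subdirect := by
    rintro K _ _ M N _ _ ⟨R₁, _, ⟨n₁, π₁, hs₁, hi₁⟩, ρ₁, hρ₁⟩ ⟨R₂, _, ⟨n₂, π₂, hs₂, hi₂⟩, ρ₂, hρ₂⟩
    let qM : (K ⧸ (M ⊓ N)) →* (K ⧸ M) :=
      QuotientGroup.map (M ⊓ N) M (MonoidHom.id K) (fun x hx => (Subgroup.mem_inf.1 hx).1)
    let qN : (K ⧸ (M ⊓ N)) →* (K ⧸ N) :=
      QuotientGroup.map (M ⊓ N) N (MonoidHom.id K) (fun x hx => (Subgroup.mem_inf.1 hx).2)
    have hqM : ∀ x : K, qM (x : K ⧸ (M ⊓ N)) = (x : K ⧸ M) := fun x => rfl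
    have hqN : ∀ x : K, qN (x : K ⧸ (M ⊓ N)) = (x : K ⧸ N) := fun x => rfl
    have hq : ∀ k : K ⧸ (M ⊓ N), qM k = 1 → qN k = 1 → k = 1 := by
      intro k
      induction k using QuotientGroup.induction_on with
      | H x =>
        intro h1 h2
        have h3 : x ∈ M := (QuotientGroup.eq_one_iff (N := M) x).1 h1
        have h4 : x ∈ N := (QuotientGroup.eq_one_iff (N := N) x).1 h2
        rw [QuotientGroup.eq_one_iff]
        exact Subgroup.mem_inf.2 ⟨h3, h4⟩
    let R : Subgroup ((K ⧸ (M ⊓ N)) × (R₁ × R₂)) :=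
      { carrier := {t | qM t.1 = ρ₁ t.2.1 ∧ qN t.1 = ρ₂ t.2.2}
        one_mem' := by simp
        mul_mem' := by
          rintro a b ⟨h1, h2⟩ ⟨h3, h4⟩
          refine ⟨?_, ?_⟩
          · simp only [Prod.fst_mul, Prod.snd_mul, map_mul, h1, h3]
          · simp only [Prod.fst_mul, Prod.snd_mul, map_mul, h2, h4]
        inv_mem' := by
          rintro a ⟨h1, h2⟩
          refine ⟨?_, ?_⟩
          · simp only [Prod.fst_inv, Prod.snd_inv, map_inv, h1]
          · simp only [Prod.fst_inv, Prod.snd_inv, map_inv, h2] }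
    have hR : ∀ t, t ∈ R ↔ qM t.1 = ρ₁ t.2.1 ∧ qN t.1 = ρ₂ t.2.2 := fun t => Iff.rfl
    let p₀ : R →* (K ⧸ (M ⊓ N)) := (MonoidHom.fst _ _).comp R.subtype
    let p₁ : R →* R₁ := ((MonoidHom.fst _ _).comp (MonoidHom.snd _ _)).comp R.subtype
    let p₂ : R →* R₂ := ((MonoidHom.snd _ _).comp (MonoidHom.snd _ _)).comp R.subtype
    have s₁ : Function.Surjective p₁ := by
      intro r₁
      obtain ⟨k₀, hk₀⟩ := QuotientGroup.mk_surjective (ρ₁ r₁)
      obtain ⟨r₂, hr₂⟩ := hρ₂ (k₀ : K ⧸ N)
      exact ⟨⟨((k₀ : K ⧸ (M ⊓ N)), (r₁, r₂)), ⟨(hqM k₀).trans hk₀, (hqN k₀).trans hr₂.symm⟩⟩, rfl⟩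
    have s₂ : Function.Surjective p₂ := by
      intro r₂
      obtain ⟨k₀, hk₀⟩ := QuotientGroup.mk_surjective (ρ₂ r₂)
      obtain ⟨r₁, hr₁⟩ := hρ₁ (k₀ : K ⧸ M)
      exact ⟨⟨((k₀ : K ⧸ (M ⊓ N)), (r₁, r₂)), ⟨(hqM k₀).trans hr₁.symm, (hqN k₀).trans hk₀⟩⟩, rfl⟩
    refine ⟨R, inferInstance, ⟨n₁ + n₂,
      Fin.addCases (fun i => (π₁ i).comp p₁) (fun j => (π₂ j).comp p₂), ?_, ?_⟩, p₀, ?_⟩
    · intro i
      refine Fin.addCases (fun i => ?_) (fun j => ?_) i
      · simp only [Fin.addCases_left]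
        exact (hs₁ i).comp s₁
      · simp only [Fin.addCases_right]
        exact (hs₂ j).comp s₂
    · intro r h
      have h1 : p₁ r = 1 := by
        apply hi₁
        intro i
        have := h (Fin.castAdd n₂ i)
        simp only [Fin.addCases_left] at this
        exact this
      have h2 : p₂ r = 1 := by
        apply hi₂
        intro j
        have := h (Fin.natAdd n₁ j)
        simp only [Fin.addCases_right] at this
        exact this
      have h3 := (hR r.1).1 r.2
      have h1' : r.1.2.1 = 1 := h1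
      have h2' : r.1.2.2 = 1 := h2
      rw [h1', h2', map_one, map_one] at h3
      have h4 : r.1.1 = 1 := hq _ h3.1 h3.2
      apply Subtype.ext
      exact Prod.ext h4 (Prod.ext h1' h2')
    · intro k
      obtain ⟨r₁, hr₁⟩ := hρ₁ (qM k)
      obtain ⟨r₂, hr₂⟩ := hρ₂ (qN k)
      exact ⟨⟨(k, (r₁, r₂)), ⟨hr₁.symm, hr₂.symm⟩⟩, rfl⟩

theorem form_image {G K : Type} [Group G] [Finite G] [Group K] (h : form G K) :
    IsImageOfSubdirectPower K G :=
  h _ (image_isFormation G) ⟨G, _, IsSubdirectPower.refl G, MonoidHom.id G, fun x => ⟨x, rfl⟩⟩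

end Pool.Agent.Helper75.SNF
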