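import Mathlib

set_option autoImplicit false

/-! Definitions for the determination of the formations of finite groups all of whose
subformations are closed under normal subgroups. -/

namespace Pool.Agent.Helper75.SNF

/-- A class of groups. -/
abbrev GroupClass : Type 1 := (G : Type) → [Group G] → Prop

/-- A formation: a class of finite groups, closed under isomorphism and under quotients, that
contains `G / (M ∩ N)` whenever it contains `G / M` and `G / N`. -/
structure IsFormation (F : GroupClass) : Prop where
  finite : ∀ (G : Type) [Group G], F G → Finite G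
  iso : ∀ (G H : Type) [Group G] [Group H], Nonempty (G ≃* H) → F G → F H
  quotient : ∀ (G : Type) [Group G] (N : Subgroup G) [N.Normal], F G → F (G ⧸ N)
  subdirect : ∀ (G : Type) [Group G] [Finite G] (M N : Subgroup G) [M.Normal] [N.Normal],
    F (G ⧸ M) → F (G ⧸ N) → F (G ⧸ (M ⊓ N))

/-- A class of groups is `S_n`-closed if it contains the normal subgroups of its members. -/
def SnClosed (F : GroupClass) : Prop :=
  ∀ (G : Type) [Group G] (N : Subgroup G), N.Normal → F G → F N

/-- Every subformation of `F` (including `F` itself, if `F` is a formation) is `S_n`-closed. -/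
def AllSubformationsSnClosed (F : GroupClass) : Prop :=
  ∀ E : GroupClass, IsFormation E → (∀ (G : Type) [Group G], E G → F G) → SnClosed E

/-- The group `G` is perfect. -/
def IsPerfect (G : Type) [Group G] : Prop := commutator G = ⊤

/-- `H / K` is a chief factor of `G`. -/
structure IsChiefFactor {G : Type} [Group G] (H K : Subgroup G) : Prop where
  normal_top : H.Normal
  normal_bot : K.Normal
  lt : K < H
  minimal : ∀ L : Subgroup G, L.Normal → K ≤ L → L ≤ H → L = K ∨ L = H

/-- `M` is the monolith of `G`: a nontrivial normal subgroup that is contained in every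
nontrivial normal subgroup. -/
structure IsMonolith {G : Type} [Group G] (M : Subgroup G) : Prop where
  normal : M.Normal
  ne_bot : M ≠ ⊥
  le : ∀ N : Subgroup G, N.Normal → N ≠ ⊥ → M ≤ N

/-- `N` is the only maximal normal subgroup of the finite group `G`: a proper normal subgroup
that contains every proper normal subgroup. -/
structure IsLargestNormal {G : Type} [Group G] (N : Subgroup G) : Prop where
  normal : N.Normal
  ne_top : N ≠ ⊤
  le : ∀ L : Subgroup G, L.Normal → L ≠ ⊤ → L ≤ N

/-- `A` is (isomorphic to) a subdirect subgroup of a direct power `B ^ n`: there are surjective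
homomorphisms `f i : A → B` whose kernels have trivial intersection. -/
def IsSubdirectPower (A B : Type) [Group A] [Group B] : Prop :=
  ∃ (n : ℕ) (f : Fin n → (A →* B)), (∀ i, Function.Surjective (f i)) ∧
    ∀ a : A, (∀ i, f i a = 1) → a = 1

/-- Condition (1): every abelian chief factor of every group in `F` is central. -/
def Cond1 (F : GroupClass) : Prop :=
  ∀ (G : Type) [Group G], F G → ∀ H K : Subgroup G, IsChiefFactor H K →
    ⁅H, H⁆ ≤ K → ⁅H, (⊤ : Subgroup G)⁆ ≤ K

/-- Condition (2): every group in `F` with a nonabelian monolith `M` is perfect and has only one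
maximal normal subgroup `N`, and `N = 1` or `N` is a subdirect power of `G / M`. -/
def Cond2 (F : GroupClass) : Prop :=
  ∀ (G : Type) [Group G], F G → ∀ (M : Subgroup G) [M.Normal], IsMonolith M → ⁅M, M⁆ ≠ ⊥ →
    IsPerfect G ∧ ∃ N : Subgroup G, IsLargestNormal N ∧ (N = ⊥ ∨ IsSubdirectPower N (G ⧸ M))

/-- Condition (3): if a perfect group of `F` is the product of two normal subgroups `X` and `C`
that centralise each other and `X` is perfect, then `X` belongs to `F`. -/
def Cond3 (F : GroupClass) : Prop :=
  ∀ (G : Type) [Group G], F G → IsPerfect G → ∀ X C : Subgroup G, X.Normal → C.Normal →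
    X ⊔ C = ⊤ → ⁅X, C⁆ = ⊥ → IsPerfect X → F X

/-- Some subdirect subgroup `R` of some direct power `G ^ n` contains no constant tuple
`(w, …, w)` with `1 ≠ w ∈ W`. -/
def HasAvoidingPower {G : Type} [Group G] (W : Subgroup G) : Prop :=
  ∃ (n : ℕ) (R : Subgroup (Fin n → G)), (∀ (i : Fin n) (g : G), ∃ r ∈ R, r i = g) ∧
    ∀ w ∈ W, (fun _ => w) ∈ R → w = 1

/-- `A` is a homomorphic image of a subdirect power of `B`. -/
def IsImageOfSubdirectPower (A B : Type) [Group A] [Group B] : Prop :=
  ∃ (R : Type) (_ : Group R), IsSubdirectPower R B ∧ ∃ ρ : R →* A, Function.Surjective ρ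

/-- Condition (4): let `G` be a perfect group of `F` with only one maximal normal subgroup `N` and
with a central monolith `W`. Then some subdirect power of `G` avoids the nontrivial constant
tuples of `W`, and the derived subgroup of `N` is a homomorphic image of a subdirect power of
`G`. -/
def Cond4 (F : GroupClass) : Prop :=
  ∀ (G : Type) [Group G], F G → IsPerfect G → ∀ N W : Subgroup G, IsLargestNormal N →
    IsMonolith W → W ≤ Subgroup.center G →
      HasAvoidingPower W ∧ IsImageOfSubdirectPower (⁅N, N⁆ : Subgroup G) G

end Pool.Agent.Helper75.SNF
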