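import Pool.Agent.Helper75.SNF.Defs

set_option autoImplicit false

namespace Pool.Agent.Helper75.SNF

/-- `G` is quasisimple: `G` is perfect and `G / Z(G)` is simple. -/
def IsQuasisimple (G : Type) [Group G] : Prop :=
  IsPerfect G ∧ IsSimpleGroup (G ⧸ Subgroup.center G)

/-- The automorphisms of `G / Z(G)`. -/
abbrev CentralQuotientAut (G : Type) [Group G] : Type :=
  G ⧸ Subgroup.center G ≃* G ⧸ Subgroup.center G

/-- The family `(x σ)` of elements of `G`, indexed by the automorphisms `σ` of `G / Z(G)`, is
twisted: for some `s` in `G / Z(G)` the image of each `x σ` in `G / Z(G)` is `σ s`. -/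
def IsTwisted {G : Type} [Group G] (x : CentralQuotientAut G → G) : Prop :=
  ∃ s : G ⧸ Subgroup.center G, ∀ σ, (x σ : G ⧸ Subgroup.center G) = σ s

theorem isTwisted_one {G : Type} [Group G] : IsTwisted (1 : CentralQuotientAut G → G) :=
  ⟨1, fun σ => by rw [map_one]; rfl⟩

theorem IsTwisted.mul {G : Type} [Group G] {x y : CentralQuotientAut G → G} :
    IsTwisted x → IsTwisted y → IsTwisted (x * y) := by
  rintro ⟨s, hs⟩ ⟨t, ht⟩
  exact ⟨s * t, fun σ => by rw [map_mul, ← hs, ← ht]; rfl⟩

theorem IsTwisted.inv {G : Type} [Group G] {x : CentralQuotientAut G → G} :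
    IsTwisted x → IsTwisted x⁻¹ := by
  rintro ⟨s, hs⟩
  exact ⟨s⁻¹, fun σ => by rw [map_inv, ← hs]; rfl⟩

/-- The group of the twisted families. -/
def twistedDiagonal (G : Type) [Group G] : Subgroup (CentralQuotientAut G → G) where
  carrier := {x | IsTwisted x}
  one_mem' := isTwisted_one
  mul_mem' := IsTwisted.mul
  inv_mem' := IsTwisted.inv

/-- The derived subgroup of the group of the twisted families. -/
def derivedTwistedDiagonal (G : Type) [Group G] : Subgroup (CentralQuotientAut G → G) :=
  ⁅twistedDiagonal G, twistedDiagonal G⁆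

/-- Condition (4) for quasisimple groups: if `G` is a quasisimple group of `F` with a central
monolith `W`, then the derived subgroup of the twisted diagonal of `G` contains no constant family
`(w)` with `1 ≠ w ∈ W`. -/
def CondQuasisimple (F : GroupClass) : Prop :=
  ∀ (G : Type) [Group G], F G → IsQuasisimple G → ∀ W : Subgroup G, IsMonolith W →
    W ≤ Subgroup.center G → ∀ w ∈ W,
      Function.const (CentralQuotientAut G) w ∈ derivedTwistedDiagonal G → w = 1

/-- Condition (5): let `G` be a perfect group of `F` with only one maximal normal subgroup `N` and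
with a central monolith `W`, and let `G` be not quasisimple. Then some subdirect power of `G`
avoids the nontrivial constant tuples of `W`, and the derived subgroup of `N` is a homomorphic
image of a subdirect power of `G`. -/
def CondOther (F : GroupClass) : Prop :=
  ∀ (G : Type) [Group G], F G → IsPerfect G → ¬ IsQuasisimple G →
    ∀ N W : Subgroup G, IsLargestNormal N → IsMonolith W → W ≤ Subgroup.center G →
      HasAvoidingPower W ∧ IsImageOfSubdirectPower (⁅N, N⁆ : Subgroup G) G

end Pool.Agent.Helper75.SNF
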