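import Pool.Agent.Helper75.SNF.Nec
import Pool.Agent.Helper75.SNF.Defs2

set_option autoImplicit false
set_option linter.style.haveILetI false
set_option linter.deprecated false

namespace Pool.Agent.Helper75.SNF

open Subgroup

/-- A subdirect subgroup of a power of a finite simple group contains a twisted diagonal. -/
theorem exists_twisted_diagonal {S : Type} [Group S] [Finite S] [IsSimpleGroup S]
    (hS : ⁅(⊤ : Subgroup S), (⊤ : Subgroup S)⁆ = ⊤) (n : ℕ) (R : Subgroup (Fin n → S))
    (hR : ∀ (i : Fin n) (s : S), ∃ r ∈ R, r i = s) :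
    ∃ τ : Fin n → (S ≃* S), ∀ s : S, (fun i => τ i s) ∈ R := by
  classical
  induction n with
  | zero =>
    refine ⟨fun i => i.elim0, fun s => ?_⟩
    have : (fun i : Fin 0 => ((i.elim0 : S ≃* S)) s) = (1 : Fin 0 → S) := Subsingleton.elim _ _
    rw [this]
    exact R.one_mem
  | succ n ih =>
    let φ : (Fin (n + 1) → S) →* (Fin n → S) :=
      { toFun := fun r i => r i.castSucc, map_one' := rfl, map_mul' := fun _ _ => rfl }
    obtain ⟨τ, hτ⟩ := ih (R.map φ) (fun i s => by
      obtain ⟨r, hr, hrs⟩ := hR i.castSucc s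
      exact ⟨φ r, ⟨r, hr, rfl⟩, hrs⟩)
    let N : Finset (Fin n) → Subgroup S := fun I =>
      { carrier := {s | ∃ r ∈ R, (∀ i ∈ I, r i.castSucc = 1) ∧ r (Fin.last n) = s}
        one_mem' := ⟨1, R.one_mem, fun _ _ => rfl, rfl⟩
        mul_mem' := by
          rintro a b ⟨r, hr, h1, rfl⟩ ⟨r', hr', h1', rfl⟩
          exact ⟨r * r', R.mul_mem hr hr', fun i hi => by simp [h1 i hi, h1' i hi], rfl⟩
        inv_mem' := by
          rintro a ⟨r, hr, h1, rfl⟩
          exact ⟨r⁻¹, R.inv_mem hr, fun i hi => by simp [h1 i hi], rfl⟩ }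
    have hNmem : ∀ I s, s ∈ N I ↔ ∃ r ∈ R, (∀ i ∈ I, r i.castSucc = 1) ∧ r (Fin.last n) = s :=
      fun _ _ => Iff.rfl
    have hNn : ∀ I, (N I).Normal := fun I => by
      refine ⟨fun s hs g => ?_⟩
      obtain ⟨r, hr, h1, h2⟩ := hs
      obtain ⟨r', hr', h2'⟩ := hR (Fin.last n) g
      refine ⟨r' * r * r'⁻¹, R.mul_mem (R.mul_mem hr' hr) (R.inv_mem hr'), fun i hi => ?_, ?_⟩
      · simp [h1 i hi]
      · simp [h2, h2']
    have hNtb : ∀ I, N I = ⊥ ∨ N I = ⊤ := fun I => (hNn I).eq_bot_or_eq_top
    choose r hrR hrφ using hτ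
    have hri : ∀ s (i : Fin n), r s i.castSucc = τ i s := fun s i => congrFun (hrφ s) i
    rcases hNtb Finset.univ with hbot | htop
    · have huniq : ∀ x ∈ R, (∀ i : Fin n, x i.castSucc = 1) → x (Fin.last n) = 1 := by
        intro x hx hxi
        have : x (Fin.last n) ∈ N Finset.univ := ⟨x, hx, fun i _ => hxi i, rfl⟩
        rw [hbot] at this
        exact Subgroup.mem_bot.mp this
      let t : S →* S := MonoidHom.mk' (fun s => r s (Fin.last n)) (by
        intro a b
        have h1 := huniq ((r (a * b))⁻¹ * (r a * r b))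
          (R.mul_mem (R.inv_mem (hrR _)) (R.mul_mem (hrR _) (hrR _)))
          (fun i => by simp [hri])
        simp only [Pi.mul_apply, Pi.inv_apply] at h1
        exact (inv_mul_eq_one.mp h1))
      have ht : ∀ s, t s = r s (Fin.last n) := fun s => rfl
      by_cases hinj : Function.Injective t
      · have hbij : Function.Bijective t := Finite.injective_iff_bijective.mp hinj
        refine ⟨Fin.snoc (α := fun _ => S ≃* S) τ (MulEquiv.ofBijective t hbij), fun s => ?_⟩
        have : (fun i => (Fin.snoc (α := fun _ => S ≃* S) τ (MulEquiv.ofBijective t hbij) i) s) = r s := by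
          funext i
          refine Fin.lastCases ?_ (fun j => ?_) i
          · simp [Fin.snoc_last, ht]
          · rw [Fin.snoc_castSucc, hri]
        rw [this]
        exact hrR s
      · exfalso
        have hker : t.ker = ⊤ := by
          rcases (MonoidHom.normal_ker t).eq_bot_or_eq_top with h | h
          · exact absurd ((MonoidHom.ker_eq_bot_iff t).mp h) hinj
          · exact h
        have ht1 : ∀ s, r s (Fin.last n) = 1 := fun s => by
          have : s ∈ t.ker := by rw [hker]; trivial
          exact this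
        have hj : ∀ j : Fin n, N {j} = ⊤ := by
          intro j
          rcases hNtb {j} with h | h
          · exfalso
            obtain ⟨g, hg⟩ := exists_ne (1 : S)
            obtain ⟨x, hx, hxg⟩ := hR (Fin.last n) g
            have h1 : ((r ((τ j).symm (x j.castSucc)))⁻¹ * x) (Fin.last n) ∈ N {j} := by
              refine ⟨_, R.mul_mem (R.inv_mem (hrR _)) hx, fun i hi => ?_, rfl⟩
              rw [Finset.mem_singleton] at hi
              subst hi
              simp [hri]
            rw [h, Subgroup.mem_bot] at h1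
            rw [Pi.mul_apply, Pi.inv_apply, ht1, inv_one, one_mul, hxg] at h1
            exact hg h1
          · exact h
        have hall : ∀ I : Finset (Fin n), N I = ⊤ := by
          intro I
          induction I using Finset.induction_on with
          | empty =>
            rw [eq_top_iff]
            intro s _
            obtain ⟨x, hx, hxs⟩ := hR (Fin.last n) s
            exact ⟨x, hx, fun i hi => absurd hi (Finset.notMem_empty _), hxs⟩
          | insert j I hjI ihI =>
            rw [eq_top_iff]
            nth_rewrite 1 [← hS]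
            rw [Subgroup.commutator_le]
            intro a _ b _
            have ha : a ∈ N I := by rw [ihI]; trivial
            have hb : b ∈ N {j} := by rw [hj j]; trivial
            obtain ⟨x, hx, hx1, hxa⟩ := ha
            obtain ⟨y, hy, hy1, hyb⟩ := hb
            rw [commutatorElement_def]
            refine ⟨x * y * x⁻¹ * y⁻¹, ?_, fun i hi => ?_, ?_⟩
            · exact R.mul_mem (R.mul_mem (R.mul_mem hx hy) (R.inv_mem hx)) (R.inv_mem hy)
            · rcases Finset.mem_insert.mp hi with h | h
              · have := hy1 i (by rw [h]; exact Finset.mem_singleton_self _)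
                simp [this]
              · have := hx1 i h
                simp [this]
            · rw [← hxa, ← hyb]
              rfl
        have h3 := hall Finset.univ
        rw [hbot] at h3
        exact bot_ne_top h3
    · refine ⟨Fin.snoc (α := fun _ => S ≃* S) τ (MulEquiv.refl S), fun s => ?_⟩
      have h1 : (r s (Fin.last n))⁻¹ * s ∈ N Finset.univ := by rw [htop]; trivial
      obtain ⟨x, hx, hx1, hx2⟩ := h1
      have : (fun i => (Fin.snoc (α := fun _ => S ≃* S) τ (MulEquiv.refl S) i) s) = r s * x := by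
        funext i
        refine Fin.lastCases ?_ (fun j => ?_) i
        · simp [Fin.snoc_last, hx2]
        · rw [Fin.snoc_castSucc, Pi.mul_apply, hri, hx1 j (Finset.mem_univ _), mul_one]
      rw [this]
      exact R.mul_mem (hrR s) hx

theorem hasAvoidingPower_of_twisted {G : Type} [Group G] [Finite G] (hG : IsPerfect G)
    (W : Subgroup G)
    (h : ∀ w ∈ W, Function.const (CentralQuotientAut G) w ∈ derivedTwistedDiagonal G → w = 1) :
    HasAvoidingPower W := by
  classical
  let A := (G ⧸ center G ≃* G ⧸ center G)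
  haveI : Finite A := by
    refine Finite.of_injective (fun σ : A => (σ : G ⧸ center G → G ⧸ center G)) ?_
    intro a b hab
    exact MulEquiv.ext (fun x => congrFun hab x)
  haveI : Fintype A := Fintype.ofFinite A
  let e := Fintype.equivFin A
  let ψ : (A → G) →* (Fin (Fintype.card A) → G) :=
    Pi.monoidHom (fun i => Pi.evalMonoidHom (fun _ : A => G) (e.symm i))
  refine ⟨Fintype.card A, Subgroup.map ψ ⁅twistedDiagonal G, twistedDiagonal G⁆, ?_, ?_⟩
  · intro i g
    have h1 : Subgroup.map (Pi.evalMonoidHom (fun _ : A => G) (e.symm i))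
        ⁅twistedDiagonal G, twistedDiagonal G⁆ = ⊤ := by
      rw [Subgroup.map_commutator]
      have h2 : Subgroup.map (Pi.evalMonoidHom (fun _ : A => G) (e.symm i))
          (twistedDiagonal G) = ⊤ := by
        rw [eq_top_iff]
        intro g _
        let s : G ⧸ center G := (e.symm i).symm (g : G ⧸ center G)
        have h3 : ∀ σ : A, ∃ x : G, (x : G ⧸ center G) = σ s := fun σ =>
          QuotientGroup.mk'_surjective _ _
        choose x hx using h3
        refine ⟨Function.update x (e.symm i) g, ⟨s, fun σ => ?_⟩, ?_⟩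
        · by_cases hσ : σ = e.symm i
          · subst hσ
            rw [Function.update_self]
            exact ((e.symm i).apply_symm_apply _).symm
          · rw [Function.update_of_ne hσ]
            exact hx σ
        · simp
      rw [h2]
      exact hG
    have h4 : g ∈ Subgroup.map (Pi.evalMonoidHom (fun _ : A => G) (e.symm i))
        ⁅twistedDiagonal G, twistedDiagonal G⁆ := by
      rw [h1]; trivial
    obtain ⟨x, hx, hxg⟩ := h4
    exact ⟨ψ x, ⟨x, hx, rfl⟩, hxg⟩
  · rintro w hw ⟨x, hx, hxw⟩
    refine h w hw ?_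
    have h5 : x = fun _ => w := by
      funext σ
      have h6 : ψ x (e σ) = w := congrFun hxw (e σ)
      have h7 : ψ x (e σ) = x (e.symm (e σ)) := rfl
      rw [h7, Equiv.symm_apply_apply] at h6
      exact h6
    have h8 : Function.const (CentralQuotientAut G) w = x := h5.symm
    rw [h8]
    exact hx

theorem twisted_of_hasAvoidingPower {G : Type} [Group G] [Finite G] (hG : IsQuasisimple G)
    (W : Subgroup G) (hW : HasAvoidingPower W) :
    ∀ w ∈ W, Function.const (CentralQuotientAut G) w ∈ derivedTwistedDiagonal G → w = 1 := by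
  classical
  obtain ⟨n, R, hR, hav⟩ := hW
  haveI := hG.2
  have hS : ⁅(⊤ : Subgroup (G ⧸ center G)), (⊤ : Subgroup (G ⧸ center G))⁆ = ⊤ := by
    have h1 : Subgroup.map (QuotientGroup.mk' (center G)) (⊤ : Subgroup G) = ⊤ :=
      Subgroup.map_top_of_surjective _ (QuotientGroup.mk'_surjective _)
    have h2 : ⁅(⊤ : Subgroup G), (⊤ : Subgroup G)⁆ = ⊤ := hG.1
    rw [← h1, ← Subgroup.map_commutator, h2]
  let π : (Fin n → G) →* (Fin n → G ⧸ center G) :=
    Pi.monoidHom (fun i => (QuotientGroup.mk' (center G)).comp (Pi.evalMonoidHom _ i))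
  obtain ⟨τ, hτ⟩ := exists_twisted_diagonal hS n (Subgroup.map π R) (by
    intro i s
    obtain ⟨g, rfl⟩ := QuotientGroup.mk'_surjective _ s
    obtain ⟨r, hr, hri⟩ := hR i g
    exact ⟨π r, ⟨r, hr, rfl⟩, by rw [← hri]; rfl⟩)
  let ψ : ((G ⧸ center G ≃* G ⧸ center G) → G) →* (Fin n → G) :=
    Pi.monoidHom (fun i => Pi.evalMonoidHom _ (τ i))
  have key : Subgroup.map ψ ⁅twistedDiagonal G, twistedDiagonal G⁆ ≤ R := by
    rw [Subgroup.map_commutator, Subgroup.commutator_le]
    have hdec : ∀ a ∈ Subgroup.map ψ (twistedDiagonal G), ∃ r ∈ R, ∃ z : Fin n → G,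
        (∀ i, z i ∈ center G) ∧ a = r * z := by
      rintro _ ⟨x, ⟨s, hs⟩, rfl⟩
      obtain ⟨r, hr, hrs⟩ := hτ s
      refine ⟨r, hr, r⁻¹ * ψ x, fun i => ?_, by group⟩
      have h1 : ((r i : G) : G ⧸ center G) = τ i s := congrFun hrs i
      have h2 : ((x (τ i) : G) : G ⧸ center G) = τ i s := hs (τ i)
      exact QuotientGroup.eq.1 (h1.trans h2.symm)
    intro a ha b hb
    obtain ⟨r, hr, z, hz, rfl⟩ := hdec a ha
    obtain ⟨r', hr', z', hz', rfl⟩ := hdec b hb
    have h3 : (r * z) * (r' * z') * (r * z)⁻¹ * (r' * z')⁻¹ = r * r' * r⁻¹ * r'⁻¹ := by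
      funext i
      have h4 := Subgroup.mem_center_iff.1 (hz i)
      have h5 := Subgroup.mem_center_iff.1 (hz' i)
      simp only [Pi.mul_apply, Pi.inv_apply, mul_inv_rev]
      have e1 : r i * z i * (r' i * z' i) = (r i * r' i) * (z i * z' i) := by
        rw [mul_assoc, ← mul_assoc (z i), ← h4 (r' i)]
        group
      have e2 : (z i)⁻¹ * (r i)⁻¹ = (r i)⁻¹ * (z i)⁻¹ := by
        rw [← mul_inv_rev, ← mul_inv_rev, h4]
      have e3 : (z' i)⁻¹ * (r' i)⁻¹ = (r' i)⁻¹ * (z' i)⁻¹ := by
        rw [← mul_inv_rev, ← mul_inv_rev, h5]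
      have h6 := Subgroup.mem_center_iff.1 (inv_mem (hz i))
      have h7 := Subgroup.mem_center_iff.1 (inv_mem (hz' i))
      calc r i * z i * (r' i * z' i) * ((z i)⁻¹ * (r i)⁻¹) * ((z' i)⁻¹ * (r' i)⁻¹)
          = (r i * r' i) * (z i * z' i) * ((r i)⁻¹ * (z i)⁻¹) * ((r' i)⁻¹ * (z' i)⁻¹) := by
            rw [e1, e2, e3]
        _ = r i * r' i * (r i)⁻¹ * (r' i)⁻¹ := by
            have c1 : z i * z' i * (r i)⁻¹ = (r i)⁻¹ * (z i * z' i) := by
              rw [mul_assoc, ← h5, ← mul_assoc, ← h4, mul_assoc]
            have c2 : (z i)⁻¹ * (r' i)⁻¹ = (r' i)⁻¹ * (z i)⁻¹ := (h6 _).symm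
            calc (r i * r' i) * (z i * z' i) * ((r i)⁻¹ * (z i)⁻¹) * ((r' i)⁻¹ * (z' i)⁻¹)
                = (r i * r' i) * (z i * z' i * (r i)⁻¹) * ((z i)⁻¹ * (r' i)⁻¹) * (z' i)⁻¹ := by
                  group
              _ = (r i * r' i) * ((r i)⁻¹ * (z i * z' i)) * ((r' i)⁻¹ * (z i)⁻¹) * (z' i)⁻¹ := by
                  rw [c1, c2]
              _ = (r i * r' i) * (r i)⁻¹ * ((z i * z' i) * (r' i)⁻¹) * ((z i)⁻¹ * (z' i)⁻¹) := by
                  group
              _ = (r i * r' i) * (r i)⁻¹ * ((r' i)⁻¹ * (z i * z' i)) * ((z i)⁻¹ * (z' i)⁻¹) := by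
                  congr 2
                  rw [mul_assoc, ← h5, ← mul_assoc, ← h4, mul_assoc]
              _ = r i * r' i * (r i)⁻¹ * (r' i)⁻¹ := by
                  have c3 : z i * z' i * ((z i)⁻¹ * (z' i)⁻¹) = 1 := by
                    rw [h5 (z i)]
                    group
                  calc (r i * r' i) * (r i)⁻¹ * ((r' i)⁻¹ * (z i * z' i)) * ((z i)⁻¹ * (z' i)⁻¹)
                      = (r i * r' i) * (r i)⁻¹ * (r' i)⁻¹ *
                          (z i * z' i * ((z i)⁻¹ * (z' i)⁻¹)) := by group
                    _ = _ := by rw [c3, mul_one]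
    rw [commutatorElement_def, h3]
    exact R.mul_mem (R.mul_mem (R.mul_mem hr hr') (R.inv_mem hr)) (R.inv_mem hr')
  intro w hw hmem
  exact hav w hw (key ⟨fun _ => w, hmem, rfl⟩)

theorem largest_of_quasisimple {G : Type} [Group G] (hG : IsSimpleGroup (G ⧸ center G))
    {N : Subgroup G} (hN : IsLargestNormal N) : N = center G := by
  have h1 : center G ≠ ⊤ := by
    intro h
    haveI := hG.exists_pair_ne
    obtain ⟨a, b, hab⟩ := hG.exists_pair_ne
    apply hab
    haveI : Subsingleton (G ⧸ center G) := by
      rw [h]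
      exact QuotientGroup.subsingleton_quotient_top
    exact Subsingleton.elim _ _
  have h2 : center G ≤ N := hN.le _ inferInstance h1
  haveI := hN.normal
  haveI : (Subgroup.map (QuotientGroup.mk' (center G)) N).Normal :=
    Subgroup.Normal.map hN.normal _ (QuotientGroup.mk'_surjective _)
  rcases hG.eq_bot_or_eq_top_of_normal (Subgroup.map (QuotientGroup.mk' (center G)) N)
    inferInstance with h3 | h3
  · refine le_antisymm ?_ h2
    intro x hx
    have h4 : QuotientGroup.mk' (center G) x ∈ Subgroup.map (QuotientGroup.mk' (center G)) N :=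
      ⟨x, hx, rfl⟩
    rw [h3, Subgroup.mem_bot] at h4
    exact (QuotientGroup.eq_one_iff x).1 h4
  · exfalso
    apply hN.ne_top
    rw [eq_top_iff]
    intro x _
    have h4 : QuotientGroup.mk' (center G) x ∈ Subgroup.map (QuotientGroup.mk' (center G)) N := by
      rw [h3]; trivial
    obtain ⟨y, hy, hyx⟩ := h4
    have h5 : y⁻¹ * x ∈ center G := QuotientGroup.eq.1 hyx
    have h6 := N.mul_mem hy (h2 h5)
    simpa using h6

theorem cond4_iff {F : GroupClass} (hF : IsFormation F) :
    Cond4 F ↔ CondQuasisimple F ∧ CondOther F := by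
  constructor
  · intro h
    refine ⟨?_, ?_⟩
    · intro G _ hG hq W hW hWc
      haveI := hF.finite G hG
      haveI := hq.2
      have hN : IsLargestNormal (center G) := by
        refine ⟨inferInstance, ?_, ?_⟩
        · intro htop
          obtain ⟨a, b, hab⟩ := hq.2.exists_pair_ne
          apply hab
          haveI : Subsingleton (G ⧸ center G) := by
            rw [htop]
            exact QuotientGroup.subsingleton_quotient_top
          exact Subsingleton.elim _ _
        · intro L hL hLt
          haveI : (Subgroup.map (QuotientGroup.mk' (center G)) L).Normal :=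
            Subgroup.Normal.map hL _ (QuotientGroup.mk'_surjective _)
          rcases hq.2.eq_bot_or_eq_top_of_normal
            (Subgroup.map (QuotientGroup.mk' (center G)) L) inferInstance with h3 | h3
          · intro x hx
            have h4 : QuotientGroup.mk' (center G) x ∈
                Subgroup.map (QuotientGroup.mk' (center G)) L := ⟨x, hx, rfl⟩
            rw [h3, Subgroup.mem_bot] at h4
            exact (QuotientGroup.eq_one_iff x).1 h4
          · exfalso
            apply hLt
            have h5 : L ⊔ center G = ⊤ := by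
              rw [eq_top_iff]
              intro x _
              have h4 : QuotientGroup.mk' (center G) x ∈
                  Subgroup.map (QuotientGroup.mk' (center G)) L := by
                rw [h3]; trivial
              obtain ⟨y, hy, hyx⟩ := h4
              have h5 : y⁻¹ * x ∈ center G := QuotientGroup.eq.1 hyx
              have h6 := Subgroup.mul_mem_sup hy h5
              simpa using h6
            rw [eq_top_iff]
            have h7 : ⁅(⊤ : Subgroup G), (⊤ : Subgroup G)⁆ = ⊤ := hq.1
            rw [← h7, Subgroup.commutator_le]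
            intro a _ b _
            have ha : a ∈ L ⊔ center G := by rw [h5]; trivial
            obtain ⟨l, hl, z, hz, rfl⟩ := (Subgroup.mem_sup_of_normal_right).1 ha
            have hz' := Subgroup.mem_center_iff.1 hz
            have h8 : (l * z) * b * (l * z)⁻¹ * b⁻¹ = l * (b * l⁻¹ * b⁻¹) := by
              rw [mul_inv_rev]
              calc l * z * b * (z⁻¹ * l⁻¹) * b⁻¹ = l * (z * b) * z⁻¹ * l⁻¹ * b⁻¹ := by group
                _ = l * (b * z) * z⁻¹ * l⁻¹ * b⁻¹ := by rw [← hz' b]
                _ = _ := by group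
            rw [commutatorElement_def, h8]
            exact L.mul_mem hl (hL.conj_mem _ (L.inv_mem hl) b)
      exact twisted_of_hasAvoidingPower hq W (h G hG hq.1 (center G) W hN hW hWc).1
    · intro G _ hG hp _ N W hN hW hWc
      exact h G hG hp N W hN hW hWc
  · rintro ⟨h4, h5⟩ G _ hG hp N W hN hW hWc
    haveI := hF.finite G hG
    by_cases hs : IsSimpleGroup (G ⧸ center G)
    · refine ⟨hasAvoidingPower_of_twisted hp W (h4 G hG ⟨hp, hs⟩ W hW hWc), ?_⟩
      have hNc := largest_of_quasisimple hs hN
      have hbot : (⁅N, N⁆ : Subgroup G) = ⊥ := by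
        rw [hNc, Subgroup.commutator_eq_bot_iff_le_centralizer]
        exact Subgroup.center_le_centralizer _
      refine ⟨G, inferInstance, ⟨1, fun _ => MonoidHom.id G, fun _ => Function.surjective_id,
        fun a ha => ha 0⟩, 1, ?_⟩
      rintro ⟨x, hx⟩
      refine ⟨1, ?_⟩
      rw [hbot, Subgroup.mem_bot] at hx
      subst hx
      rfl
    · exact h5 G hG hp (fun hq => hs hq.2) N W hN hW hWc

theorem main_explicit {F : GroupClass} (hF : IsFormation F) :
    AllSubformationsSnClosed F ↔
      Cond1 F ∧ Cond2 F ∧ Cond3 F ∧ CondQuasisimple F ∧ CondOther F := by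
  rw [main hF, cond4_iff hF]

end Pool.Agent.Helper75.SNF
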