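import Pool.Agent.Helper75.SNF.Base

set_option autoImplicit false
set_option linter.style.haveILetI false

namespace Pool.Agent.Helper75.SNF

open Subgroup

/-- The iterated commutators `[K, G, …, G]`. -/
def it {G : Type} [Group G] (K : Subgroup G) : ℕ → Subgroup G
  | 0 => K
  | n + 1 => ⁅it K n, (⊤ : Subgroup G)⁆

/-- No nontrivial central section `H / K` of exponent `p`. -/
def Np (p : ℕ) : GroupClass := fun X _ => Finite X ∧ ∀ K H : Subgroup X, K.Normal → H.Normal →
  K ≤ H → ⁅H, (⊤ : Subgroup X)⁆ ≤ K → (∀ x ∈ H, x ^ p ∈ K) → H ≤ K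

/-- Finite groups that are hypercentral by `NP`. -/
def QC : GroupClass := fun G _ => Finite G ∧ ∃ (K : Subgroup G) (_ : K.Normal),
  (∃ n, it K n = ⊥) ∧ NP (G ⧸ K)

/-- The data obtained for a normal subgroup `D` of a group with a nonabelian monolith. -/
def Step {G : Type} [Group G] (D : Subgroup G) [D.Normal] : Prop :=
  ∃ (X : Type) (_ : Group X) (f : D →* X) (NX : Subgroup X) (φ : G →* X),
    Function.Surjective f ∧ (∀ x : D, (∀ g : G, f (MulAut.conjNormal g x) = 1) → x = 1) ∧
    NP X ∧ IsLargestNormal NX ∧ Function.Surjective φ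

end Pool.Agent.Helper75.SNF
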