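import Pool.Agent.Helper75.SNF.Suff

set_option autoImplicit false
set_option linter.style.haveILetI false

namespace Pool.Agent.Helper75.SNF

open Subgroup

theorem np_of_normals {G X : Type} [Group G] [Group X] (φ : G →* X) (hφ : φ.ker = ⊥)
    (hX : ∀ L : Subgroup X, L.Normal → L = ⊥ ∨ L = ⊤) (hs : Function.Surjective φ)
    (L : Subgroup G) (hL : L.Normal) : L = ⊥ ∨ L = ⊤ := by
  have hinj : Function.Injective φ := (MonoidHom.ker_eq_bot_iff φ).1 hφ
  rcases hX (L.map φ) (Subgroup.Normal.map hL φ hs) with h | h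
  · left
    rwa [Subgroup.map_eq_bot_iff_of_injective L hinj] at h
  · right
    rw [eq_top_iff]
    intro g _
    have : φ g ∈ L.map φ := by rw [h]; exact Subgroup.mem_top _
    obtain ⟨l, hl, hlg⟩ := this
    rwa [← hinj hlg]

theorem cond2_aux {F : GroupClass} (hF : IsFormation F) (h : AllSubformationsSnClosed F) :
    ∀ n : ℕ, ∀ (G : Type) [Group G], Nat.card G = n → F G → ∀ (M : Subgroup G) [M.Normal],
      IsMonolith M → ⁅M, M⁆ ≠ ⊥ → NP G ∧ ∃ N : Subgroup G, IsLargestNormal N ∧
        (N = ⊥ ∨ IsSubdirectPower N (G ⧸ M)) := by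
  intro n
  induction n using Nat.strong_induction_on with
  | _ n ih =>
    intro G _ hn hG M _ hM hna
    haveI : Finite G := hF.finite G hG
    -- the quotients of normal subgroups
    have key : ∀ (D : Subgroup G) [D.Normal], D ≠ ⊥ →
        ∃ (X : Type) (_ : Group X) (f : D →* X) (MX : Subgroup X) (φ : G →* X),
          Function.Surjective f ∧ IsMonolith MX ∧ ⁅MX, MX⁆ ≠ ⊥ ∧
          (∀ x : D, (∀ g : G, f (MulAut.conjNormal g x) = 1) → x = 1) ∧
          (D = M → ∀ L : Subgroup X, L.Normal → L = ⊥ ∨ L = ⊤) ∧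
          Function.Surjective φ ∧ F X := by
      intro D _ hD
      obtain ⟨X, _, f, MX, hf, hMX, hMXna, hinj, hsimple⟩ := b_family hM hna D hD
      have h1 : form G D := h.form hF hG G D inferInstance (self_mem_form G)
      have h2 : form G X := (form_isFormation G).surj h1 f hf
      obtain ⟨φ, hφ⟩ := b_quot hMX hMXna h2
      exact ⟨X, _, f, MX, φ, hf, hMX, hMXna, hinj, hsimple, hφ, form_le hF hG X h2⟩
    have hstep : ∀ (D : Subgroup G) [D.Normal], D ≠ ⊥ → D ≠ ⊤ → Step D := by
      intro D _ hD hDt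
      obtain ⟨X, _, f, MX, φ, hf, hMX, hMXna, hinj, _, hφ, hFX⟩ := key D hD
      haveI := hMX.normal
      have hcard : Nat.card X < n := by
        rw [← hn]
        exact lt_of_le_of_lt (Nat.card_le_card_of_surjective f hf) (card_lt_of_ne_top hDt)
      obtain ⟨hNP, NX, hNX, _⟩ := ih (Nat.card X) hcard X rfl hFX MX hMX hMXna
      exact ⟨X, _, f, NX, φ, hf, hinj, hNP, hNX, hφ⟩
    obtain ⟨X, _, f, MX, φ, hf, hMX, hMXna, hinj, hsimple, hφ, hFX⟩ := key M hM.ne_bot
    have hXs := hsimple rfl
    have hXna : ⁅(⊤ : Subgroup X), (⊤ : Subgroup X)⁆ ≠ ⊥ := by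
      intro h5
      apply hMXna
      rw [eq_bot_iff, ← h5]
      exact Subgroup.commutator_mono le_top le_top
    have hXNP : NP X := NP.of_simple hXs hXna
    have hkt : φ.ker ≠ ⊤ := by
      intro h5
      apply hMX.ne_bot
      rw [eq_bot_iff]
      intro x _
      obtain ⟨g, rfl⟩ := hφ x
      have : g ∈ φ.ker := by rw [h5]; exact Subgroup.mem_top g
      rw [Subgroup.mem_bot]
      exact this
    by_cases hk : φ.ker = ⊥
    · -- G is simple
      have hGs := np_of_normals φ hk hXs hφ
      have hGna : ⁅(⊤ : Subgroup G), (⊤ : Subgroup G)⁆ ≠ ⊥ := by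
        intro h5
        apply hna
        rw [eq_bot_iff, ← h5]
        exact Subgroup.commutator_mono le_top le_top
      refine ⟨NP.of_simple hGs hGna, ⊥, ⟨inferInstance, ?_, ?_⟩, Or.inl rfl⟩
      · intro h5
        exact hkt (hk.trans h5)
      · intro L hL hLt
        rcases hGs L hL with h5 | h5
        · exact h5.le
        · exact absurd h5 hLt
    · have hst := hstep φ.ker hk hkt
      obtain ⟨X₁, _, f₁, NX₁, φ₁, hf₁, hinj₁, hNP₁, hNX₁, hφ₁⟩ := hst
      haveI : Finite X₁ := Finite.of_surjective f₁ hf₁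
      have hsub : IsSubdirectPower φ.ker X₁ :=
        IsSubdirectPower.of_finite (ι := G)
          (fun g => f₁.comp (MulAut.conjNormal g : φ.ker ≃* φ.ker).toMonoidHom)
          (fun g => hf₁.comp (MulEquiv.surjective _)) (fun x hx => hinj₁ x (fun g => hx g))
      have hNPk : NP φ.ker :=
        (finite_np_isFormation.of_subdirectPower (B := X₁) ⟨inferInstance, hNP₁⟩ hsub).2
      have hNPq : NP (G ⧸ φ.ker) := by
        haveI : Finite X := Finite.of_surjective f hf
        exact (finite_np_isFormation.iso X (G ⧸ φ.ker)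
          ⟨(QuotientGroup.quotientKerEquivOfSurjective φ hφ).symm⟩ ⟨inferInstance, hXNP⟩).2
      have hNP : NP G := NP.extension φ.ker hNPk hNPq
      obtain ⟨N, hN⟩ := b_unique hNP hM hstep
      have hNb : N ≠ ⊥ := by
        rintro rfl
        exact hk (le_bot_iff.1 (hN.le φ.ker inferInstance hkt))
      exact ⟨hNP, N, hN, Or.inr (b_final hNP hM hstep hN hNb)⟩

theorem cond2_of {F : GroupClass} (hF : IsFormation F) (h : AllSubformationsSnClosed F) :
    Cond2 F := by
  intro G _ hG M _ hM hna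
  obtain ⟨hNP, h2⟩ := cond2_aux hF h (Nat.card G) G rfl hG M hM hna
  exact ⟨hNP ⊤ inferInstance, h2⟩

theorem necessary {F : GroupClass} (hF : IsFormation F) (h : AllSubformationsSnClosed F) :
    Cond1 F ∧ Cond2 F ∧ Cond3 F ∧ Cond4 F := by
  refine ⟨cond1_of hF h, cond2_of hF h, ?_, ?_⟩
  · intro G _ hG _ X C hX _ _ _ _
    exact h.self hF G X hX hG
  · intro G _ hG _ N W hN _ hWc
    haveI := hF.finite G hG
    haveI := hN.normal
    refine ⟨c_avoid hF h hG hWc, ?_⟩
    exact form_image (h.form hF hG G (⁅N, N⁆ : Subgroup G) inferInstance (self_mem_form G))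

/-- The determination of the formations all of whose subformations are `S_n`-closed. -/
theorem main {F : GroupClass} (hF : IsFormation F) :
    AllSubformationsSnClosed F ↔ Cond1 F ∧ Cond2 F ∧ Cond3 F ∧ Cond4 F :=
  ⟨necessary hF, fun ⟨h1, h2, h3, h4⟩ => sufficient hF h1 h2 h3 h4⟩

end Pool.Agent.Helper75.SNF
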