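import Pool.Agent.Helper75.SNF.Helpers

set_option autoImplicit false
set_option linter.style.haveILetI false

namespace Pool.Agent.Helper75.SNF

open Subgroup


theorem IsFormation.semidirect {F : GroupClass} (hF : IsFormation F) {G : Type} [Group G]
    (h : F G) (N : Subgroup G) [N.Normal] : F (↥N ⋊[MulAut.conjNormal] G) := by
  haveI := hF.finite G h
  haveI : Finite (↥N ⋊[MulAut.conjNormal] G) :=
    Finite.of_equiv _ SemidirectProduct.equivProd.symm
  let f : (↥N ⋊[MulAut.conjNormal] G) →* G :=
    SemidirectProduct.lift N.subtype (MonoidHom.id G) (by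
      intro g
      ext n
      simp)
  refine hF.subdirect_hom (SemidirectProduct.rightHom : (↥N ⋊[MulAut.conjNormal] G) →* G) f
    SemidirectProduct.rightHom_surjective ?_ h h ?_
  · intro g
    refine ⟨SemidirectProduct.inr g, ?_⟩
    simp [f]
  · intro x hx1 hx2
    have h1 : x.right = 1 := hx1
    have h2 : (x.left : G) * x.right = 1 := hx2
    rw [h1, mul_one] at h2
    apply SemidirectProduct.ext
    · exact Subtype.ext h2
    · exact h1

end Pool.Agent.Helper75.SNF
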