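import Pool.Agent.Helper75.SNF.Helpers

set_option autoImplicit false
set_option linter.style.haveILetI false

namespace Pool.Agent.Helper75.SNF

open Subgroup


theorem s02_surj {p : ℕ} {X Q : Type} [Group X] [Group Q] (h : Np p X) (f : X →* Q)
    (hf : Function.Surjective f) : Np p Q := by
  obtain ⟨hfin, h⟩ := h
  haveI := hfin
  refine ⟨Finite.of_surjective f hf, ?_⟩
  intro K H hK hH hKH hc hp
  have h1 := h (K.comap f) (H.comap f) (hK.comap f) (hH.comap f) (Subgroup.comap_mono hKH) (by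
    rw [Subgroup.commutator_le]
    intro g₁ h₁ g₂ _
    rw [Subgroup.mem_comap, map_commutatorElement]
    exact hc (Subgroup.commutator_mem_commutator (Subgroup.mem_comap.1 h₁) (Subgroup.mem_top _))) (by
    intro x hx
    rw [Subgroup.mem_comap, map_pow]
    exact hp _ (Subgroup.mem_comap.1 hx))
  intro y hy
  obtain ⟨x, rfl⟩ := hf y
  exact Subgroup.mem_comap.1 (h1 (Subgroup.mem_comap.2 hy))

theorem s02_use {p : ℕ} {G Y : Type} [Group G] [Group Y] (hY : Np p Y) (f : G →* Y)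
    (hf : Function.Surjective f) (K H : Subgroup G) (hK : K.Normal) (hH : H.Normal) (hKH : K ≤ H)
    (hc : ⁅H, (⊤ : Subgroup G)⁆ ≤ K) (hp : ∀ x ∈ H, x ^ p ∈ K) (h : G) (hh : h ∈ H) :
    ∃ k ∈ K, f k = f h := by
  have h1 := hY.2 (K.map f) (H.map f) (hK.map f hf) (hH.map f hf) (Subgroup.map_mono hKH) (by
    rw [Subgroup.commutator_le]
    intro g₁ h₁ g₂ _
    obtain ⟨x₁, hx₁, rfl⟩ := Subgroup.mem_map.1 h₁
    obtain ⟨x₂, rfl⟩ := hf g₂
    rw [← map_commutatorElement]
    exact Subgroup.mem_map_of_mem f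
      (hc (Subgroup.commutator_mem_commutator hx₁ (Subgroup.mem_top _)))) (by
    intro x hx
    obtain ⟨x₁, hx₁, rfl⟩ := Subgroup.mem_map.1 hx
    rw [← map_pow]
    exact Subgroup.mem_map_of_mem f (hp _ hx₁))
  exact Subgroup.mem_map.1 (h1 (Subgroup.mem_map_of_mem f hh))

theorem s02_sub {p : ℕ} {Q A B : Type} [Group Q] [Finite Q] [Group A] [Group B] (hA : Np p A)
    (hB : Np p B) (f : Q →* A) (g : Q →* B) (hf : Function.Surjective f)
    (hg : Function.Surjective g) (hinj : ∀ x, f x = 1 → g x = 1 → x = 1) : Np p Q := by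
  refine ⟨inferInstance, ?_⟩
  intro K H hK hH hKH hc hp h hh
  obtain ⟨k, hk, hfk⟩ := s02_use hA f hf K H hK hH hKH hc hp h hh
  have hm : k⁻¹ * h ∈ H := H.mul_mem (H.inv_mem (hKH hk)) hh
  have hfm : k⁻¹ * h ∈ f.ker := by
    rw [MonoidHom.mem_ker, map_mul, map_inv, hfk, inv_mul_cancel]
  have hkn : f.ker.Normal := inferInstance
  have hK' : (K ⊓ f.ker).Normal := by
    haveI := hK
    infer_instance
  have hH' : (H ⊓ f.ker).Normal := by
    haveI := hH
    infer_instance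
  obtain ⟨k', hk', hgk'⟩ := s02_use hB g hg (K ⊓ f.ker) (H ⊓ f.ker) hK' hH'
    (inf_le_inf_right _ hKH) (by
      rw [Subgroup.commutator_le]
      intro g₁ h₁ g₂ _
      refine Subgroup.mem_inf.2 ⟨hc (Subgroup.commutator_mem_commutator h₁.1 (Subgroup.mem_top _)), ?_⟩
      have h2 : f g₁ = 1 := MonoidHom.mem_ker.1 h₁.2
      rw [MonoidHom.mem_ker, map_commutatorElement, h2, commutatorElement_one_left]) (by
      intro x hx
      refine Subgroup.mem_inf.2 ⟨hp x hx.1, ?_⟩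
      exact Subgroup.pow_mem _ hx.2 p) (k⁻¹ * h) (Subgroup.mem_inf.2 ⟨hm, hfm⟩)
  have h3 : k'⁻¹ * (k⁻¹ * h) = 1 := by
    apply hinj
    · rw [map_mul, map_inv, MonoidHom.mem_ker.1 hk'.2, MonoidHom.mem_ker.1 hfm]; simp
    · rw [map_mul g, map_inv g k', hgk', inv_mul_cancel]
  have h4 : k⁻¹ * h = k' := by
    rw [inv_mul_eq_one] at h3; exact h3.symm
  have h5 : h = k * k' := by rw [← h4]; group
  rw [h5]
  exact K.mul_mem hk hk'.1

theorem np_isFormation (p : ℕ) : IsFormation (Np p) := by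
  refine ⟨fun G _ h => h.1, ?_, ?_, ?_⟩
  · rintro G H _ _ ⟨e⟩ h
    exact s02_surj h e.toMonoidHom e.surjective
  · intro G _ N _ h
    exact s02_surj h (QuotientGroup.mk' N) (QuotientGroup.mk'_surjective N)
  · intro G _ _ M N _ _ hM hN
    let qM : (G ⧸ (M ⊓ N)) →* (G ⧸ M) :=
      QuotientGroup.map (M ⊓ N) M (MonoidHom.id G) (fun x hx => (Subgroup.mem_inf.1 hx).1)
    let qN : (G ⧸ (M ⊓ N)) →* (G ⧸ N) :=
      QuotientGroup.map (M ⊓ N) N (MonoidHom.id G) (fun x hx => (Subgroup.mem_inf.1 hx).2)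
    refine s02_sub hM hN qM qN ?_ ?_ ?_
    · intro y
      obtain ⟨x, rfl⟩ := QuotientGroup.mk_surjective y
      exact ⟨(x : G ⧸ (M ⊓ N)), rfl⟩
    · intro y
      obtain ⟨x, rfl⟩ := QuotientGroup.mk_surjective y
      exact ⟨(x : G ⧸ (M ⊓ N)), rfl⟩
    · intro k
      induction k using QuotientGroup.induction_on with
      | H x =>
        intro h1 h2
        have h3 : x ∈ M := (QuotientGroup.eq_one_iff (N := M) x).1 h1
        have h4 : x ∈ N := (QuotientGroup.eq_one_iff (N := N) x).1 h2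
        rw [QuotientGroup.eq_one_iff]
        exact Subgroup.mem_inf.2 ⟨h3, h4⟩

end Pool.Agent.Helper75.SNF
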