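import Pool.Agent.Helper75.SNF.Helpers

set_option autoImplicit false
set_option linter.style.haveILetI false

namespace Pool.Agent.Helper75.SNF

open Subgroup


theorem a_prime {G : Type} [Group G] [Finite G] (A : Subgroup G) [A.Normal] (hA : A ≠ ⊥)
    (hc : ⁅A, A⁆ = ⊥) (hmin : ∀ L : Subgroup G, L.Normal → L ≤ A → L = ⊥ ∨ L = A) :
    ∃ p, p.Prime ∧ ∀ x ∈ A, x ^ p = 1 := by
  classical
  have hcomm : ∀ x ∈ A, ∀ y ∈ A, Commute x y := by
    intro x hx y hy
    have h1 := Subgroup.commutator_mem_commutator hx hy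
    rw [hc, Subgroup.mem_bot, commutatorElement_eq_one_iff_commute] at h1
    exact h1
  have hcard : Nat.card A ≠ 1 := by
    intro h
    exact hA (Subgroup.card_eq_one.1 h)
  have hp : (Nat.card A).minFac.Prime := Nat.minFac_prime hcard
  set p := (Nat.card A).minFac with hpdef
  refine ⟨p, hp, ?_⟩
  haveI : Fact p.Prime := ⟨hp⟩
  obtain ⟨a, ha⟩ := exists_prime_orderOf_dvd_card' (G := A) p (Nat.minFac_dvd _)
  let L : Subgroup G :=
    { carrier := {x | x ∈ A ∧ x ^ p = 1}
      one_mem' := ⟨A.one_mem, one_pow _⟩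
      mul_mem' := by
        rintro x y ⟨hx, hx'⟩ ⟨hy, hy'⟩
        refine ⟨A.mul_mem hx hy, ?_⟩
        rw [(hcomm x hx y hy).mul_pow, hx', hy', one_mul]
      inv_mem' := by
        rintro x ⟨hx, hx'⟩
        refine ⟨A.inv_mem hx, ?_⟩
        rw [inv_pow, hx', inv_one] }
  have hL : ∀ x, x ∈ L ↔ x ∈ A ∧ x ^ p = 1 := fun x => Iff.rfl
  have hLn : L.Normal := by
    constructor
    intro x hx g
    rw [hL] at hx ⊢
    refine ⟨Subgroup.Normal.conj_mem inferInstance x hx.1 g, ?_⟩
    rw [conj_pow, hx.2, mul_one, mul_inv_cancel]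
  rcases hmin L hLn (fun x hx => ((hL x).1 hx).1) with h | h
  · exfalso
    have h1 : (a : G) ∈ L := by
      rw [hL]
      refine ⟨a.2, ?_⟩
      have h2 : a ^ p = 1 := by
        rw [← ha]
        exact pow_orderOf_eq_one a
      have h3 := congrArg (Subtype.val) h2
      simpa using h3
    rw [h, Subgroup.mem_bot] at h1
    have h4 : a = 1 := Subtype.ext h1
    rw [h4, orderOf_one] at ha
    exact hp.one_lt.ne ha
  · intro x hx
    rw [← h] at hx
    exact ((hL x).1 hx).2

end Pool.Agent.Helper75.SNF
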