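import Pool.Agent.Helper75.SNF.Helpers
import Pool.Agent.Helper75.SNF.S01
import Pool.Agent.Helper75.SNF.S02

set_option autoImplicit false
set_option linter.style.haveILetI false

namespace Pool.Agent.Helper75.SNF

open Subgroup


theorem s04_inv {G : Type} [Group G] (A : Subgroup G) [A.Normal]
    (hmin : ∀ L : Subgroup G, L.Normal → L ≤ A → L = ⊥ ∨ L = A) (B : Subgroup A)
    (hB : ∀ g : G, ∀ a ∈ B, MulAut.conjNormal g a ∈ B) : B = ⊥ ∨ B = ⊤ := by
  have h1 : (B.map A.subtype).Normal := by
    refine ⟨fun x hx g => ?_⟩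
    obtain ⟨a, ha, rfl⟩ := hx
    refine ⟨MulAut.conjNormal g a, hB g a ha, ?_⟩
    simp [MulAut.conjNormal_apply]
  rcases hmin _ h1 (Subgroup.map_subtype_le B) with h | h
  · left
    rwa [Subgroup.map_eq_bot_iff_of_injective _ A.subtype_injective] at h
  · right
    rw [eq_top_iff]
    intro a _
    have h2 : (a : G) ∈ B.map A.subtype := by rw [h]; exact a.2
    obtain ⟨b, hb, hab⟩ := h2
    have h3 : b = a := Subtype.ext hab
    rwa [← h3]

theorem s04_act {G : Type} [Group G] (A : Subgroup G) [A.Normal] (g : G) (a : A) :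
    MulAut.conjNormal g a = a ↔ (a : G) * g = g * (a : G) := by
  rw [Subtype.ext_iff, MulAut.conjNormal_apply, mul_inv_eq_iff_eq_mul]
  exact eq_comm

theorem s04_simple {G : Type} [Group G] (A : Subgroup G) [A.Normal]
    (hmax : ∀ N : Subgroup G, N.Normal → N ≠ ⊤ → ⁅A, N⁆ = ⊥)
    (M : Subgroup (MulAut.conjNormal : G →* MulAut A).range) (hM : M.Normal) :
    M = ⊥ ∨ M = ⊤ := by
  by_cases h : M.comap (MulAut.conjNormal : G →* MulAut A).rangeRestrict = ⊤
  · right
    rw [eq_top_iff]
    intro q _
    obtain ⟨g, rfl⟩ := (MulAut.conjNormal : G →* MulAut A).rangeRestrict_surjective q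
    have h1 : g ∈ M.comap (MulAut.conjNormal : G →* MulAut A).rangeRestrict := by
      rw [h]; exact Subgroup.mem_top g
    exact h1
  · left
    rw [eq_bot_iff]
    intro q hq
    obtain ⟨g, rfl⟩ := (MulAut.conjNormal : G →* MulAut A).rangeRestrict_surjective q
    have h1 : g ∈ M.comap (MulAut.conjNormal : G →* MulAut A).rangeRestrict := hq
    have h2 := hmax _ (hM.comap _) h
    rw [Subgroup.mem_bot]
    apply Subtype.ext
    rw [MonoidHom.coe_rangeRestrict, Subgroup.coe_one]
    refine MulEquiv.ext fun a => ?_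
    rw [MulAut.one_apply, s04_act]
    have h3 := Subgroup.commutator_mem_commutator a.2 h1
    rw [h2, Subgroup.mem_bot, commutatorElement_eq_one_iff_mul_comm] at h3
    exact h3

open scoped commutatorElement in
theorem s04_np {G : Type} [Group G] [Finite G]
    (A : Subgroup G) [A.Normal] (hA : A ≠ ⊥)
    (hnc : ⁅A, (⊤ : Subgroup G)⁆ ≠ ⊥)
    (hmin : ∀ L : Subgroup G, L.Normal → L ≤ A → L = ⊥ ∨ L = A)
    (hmax : ∀ N : Subgroup G, N.Normal → N ≠ ⊤ → ⁅A, N⁆ = ⊥)
    {p : ℕ} (hp : p.Prime) (hexp : ∀ x ∈ A, x ^ p = 1) :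
    Np p (↥A ⋊[(MulAut.conjNormal : G →* MulAut A).range.subtype]
      ↥(MulAut.conjNormal : G →* MulAut A).range) := by
  classical
  haveI := Fact.mk hp
  have hnt : ¬ ∀ q : (MulAut.conjNormal : G →* MulAut A).range, ∀ a : A,
      (q : MulAut A) a = a := by
    intro h
    apply hnc
    rw [eq_bot_iff, Subgroup.commutator_le]
    intro a ha g _
    rw [Subgroup.mem_bot, commutatorElement_eq_one_iff_mul_comm]
    have h1 := h ((MulAut.conjNormal : G →* MulAut A).rangeRestrict g) ⟨a, ha⟩
    rw [MonoidHom.coe_rangeRestrict, s04_act] at h1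
    exact h1
  -- invariant subgroups
  have hinv : ∀ B : Subgroup A, (∀ q : (MulAut.conjNormal : G →* MulAut A).range, ∀ a ∈ B,
      (q : MulAut A) a ∈ B) → B = ⊥ ∨ B = ⊤ := by
    intro B hB
    refine s04_inv A hmin B fun g a ha => ?_
    exact hB ((MulAut.conjNormal : G →* MulAut A).rangeRestrict g) a ha
  haveI hfin : Finite (↥A ⋊[(MulAut.conjNormal : G →* MulAut A).range.subtype]
      ↥(MulAut.conjNormal : G →* MulAut A).range) :=
    Finite.of_equiv _ (SemidirectProduct.equivProd).symm
  refine ⟨hfin, ?_⟩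
  intro K H hK hH hKH hcomm hpow
  have hconj : ∀ (q : (MulAut.conjNormal : G →* MulAut A).range) (a : A),
      (SemidirectProduct.inr q * SemidirectProduct.inl a * (SemidirectProduct.inr q)⁻¹ :
        ↥A ⋊[(MulAut.conjNormal : G →* MulAut A).range.subtype]
          ↥(MulAut.conjNormal : G →* MulAut A).range) =
      SemidirectProduct.inl ((q : MulAut A) a) := by
    intro q a
    have h1 := SemidirectProduct.inl_aut (φ := (MulAut.conjNormal : G →* MulAut A).range.subtype)
      q a
    rw [map_inv] at h1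
    exact h1.symm
  have hcm : ∀ L : Subgroup (↥A ⋊[(MulAut.conjNormal : G →* MulAut A).range.subtype]
      ↥(MulAut.conjNormal : G →* MulAut A).range), L.Normal →
      L.comap SemidirectProduct.inl = ⊥ ∨ L.comap SemidirectProduct.inl = ⊤ := by
    intro L hL
    apply hinv
    intro q a ha
    rw [Subgroup.mem_comap] at ha ⊢
    rw [← hconj]
    exact hL.conj_mem _ ha _
  have hA1 : H.comap SemidirectProduct.inl ≤ K.comap SemidirectProduct.inl := by
    rcases hcm H hH with h1 | h1
    · rw [h1]; exact bot_le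
    · rcases hcm K hK with h2 | h2
      · exfalso
        apply hnt
        intro q a
        have h3 : SemidirectProduct.inl a ∈ H := by
          have : a ∈ H.comap SemidirectProduct.inl := by rw [h1]; exact Subgroup.mem_top a
          exact this
        have h4 := hcomm (Subgroup.commutator_mem_commutator h3
          (Subgroup.mem_top (SemidirectProduct.inr q)))
        have h5 : ⁅(SemidirectProduct.inl a :
            ↥A ⋊[(MulAut.conjNormal : G →* MulAut A).range.subtype]
              ↥(MulAut.conjNormal : G →* MulAut A).range), (SemidirectProduct.inr q :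
            ↥A ⋊[(MulAut.conjNormal : G →* MulAut A).range.subtype]
              ↥(MulAut.conjNormal : G →* MulAut A).range)⁆ =
            SemidirectProduct.inl (a * ((q : MulAut A) a)⁻¹) := by
          rw [commutatorElement_def, map_mul, map_inv, ← hconj]
          group
        rw [h5] at h4
        have h6 : a * ((q : MulAut A) a)⁻¹ ∈ K.comap SemidirectProduct.inl := h4
        rw [h2, Subgroup.mem_bot, mul_inv_eq_one] at h6
        exact h6.symm
      · rw [h2]; exact le_top
  have hsurj : Function.Surjective (SemidirectProduct.rightHom :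
      (↥A ⋊[(MulAut.conjNormal : G →* MulAut A).range.subtype]
        ↥(MulAut.conjNormal : G →* MulAut A).range) →* _) :=
    SemidirectProduct.rightHom_surjective
  by_cases hQ : H.map SemidirectProduct.rightHom ≤ K.map SemidirectProduct.rightHom
  · intro h hh
    obtain ⟨k, hk, hkh⟩ := hQ (Subgroup.mem_map_of_mem _ hh)
    have h2 : k⁻¹ * h ∈ (SemidirectProduct.rightHom :
      (↥A ⋊[(MulAut.conjNormal : G →* MulAut A).range.subtype]
        ↥(MulAut.conjNormal : G →* MulAut A).range) →* _).ker := by
      rw [MonoidHom.mem_ker, map_mul, map_inv, hkh, inv_mul_cancel]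
    rw [← SemidirectProduct.range_inl_eq_ker_rightHom] at h2
    obtain ⟨a, ha⟩ := h2
    have h3 : a ∈ H.comap SemidirectProduct.inl := by
      rw [Subgroup.mem_comap, ha]
      exact H.mul_mem (H.inv_mem (hKH hk)) hh
    have h4 := hA1 h3
    rw [Subgroup.mem_comap, ha] at h4
    have h5 := K.mul_mem hk h4
    rwa [mul_inv_cancel_left] at h5
  · exfalso
    have hHn : (H.map SemidirectProduct.rightHom).Normal := hH.map _ hsurj
    have hKn : (K.map SemidirectProduct.rightHom).Normal := hK.map _ hsurj
    have h1 : H.map SemidirectProduct.rightHom = ⊤ := by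
      rcases s04_simple A hmax _ hHn with h | h
      · exact absurd (by rw [h]; exact bot_le) hQ
      · exact h
    have h2 : K.map SemidirectProduct.rightHom = ⊥ := by
      rcases s04_simple A hmax _ hKn with h | h
      · exact h
      · exact absurd (by rw [h]; exact le_top) hQ
    have h3 : ∀ q : (MulAut.conjNormal : G →* MulAut A).range, q ^ p = 1 := by
      intro q
      have h4 : q ∈ H.map SemidirectProduct.rightHom := by rw [h1]; exact Subgroup.mem_top q
      obtain ⟨h, hh, rfl⟩ := h4
      have h5 : SemidirectProduct.rightHom (h ^ p) ∈ K.map SemidirectProduct.rightHom :=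
        Subgroup.mem_map_of_mem _ (hpow h hh)
      rw [h2, Subgroup.mem_bot, map_pow] at h5
      exact h5
    have hpQ : IsPGroup p (MulAut.conjNormal : G →* MulAut A).range := by
      intro q
      exact ⟨1, by rw [pow_one]; exact h3 q⟩
    obtain ⟨a0, ha0, ha01⟩ : ∃ a ∈ A, a ≠ 1 := by
      by_contra hno
      push Not at hno
      exact hA ((Subgroup.eq_bot_iff_forall A).2 hno)
    have hdvd : p ∣ Nat.card A := by
      have h6 : orderOf (⟨a0, ha0⟩ : A) = p := by
        apply orderOf_eq_prime
        · exact Subtype.ext (hexp a0 ha0)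
        · intro h; exact ha01 (congrArg Subtype.val h)
      rw [← h6]
      exact orderOf_dvd_natCard _
    have hone : (1 : A) ∈ MulAction.fixedPoints (MulAut.conjNormal : G →* MulAut A).range A := by
      intro q
      exact map_one (q : MulAut A)
    obtain ⟨b, hb, hb1⟩ := hpQ.exists_fixed_point_of_prime_dvd_card_of_fixed_point A hdvd hone
    -- the subgroup of fixed points
    obtain ⟨B, hB⟩ : ∃ B : Subgroup A, ∀ a, a ∈ B ↔
        ∀ q : (MulAut.conjNormal : G →* MulAut A).range, (q : MulAut A) a = a := by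
      refine ⟨{ carrier := {a | ∀ q : (MulAut.conjNormal : G →* MulAut A).range,
                  (q : MulAut A) a = a}
                one_mem' := fun q => map_one _
                mul_mem' := fun {x y} hx hy q => by rw [map_mul, hx q, hy q]
                inv_mem' := fun {x} hx q => by rw [map_inv, hx q] }, fun a => Iff.rfl⟩
    rcases hinv B (fun q a ha => by rw [(hB a).1 ha q]; exact ha) with h7 | h7
    · have h8 : b ∈ B := (hB b).2 fun q => hb q
      rw [h7, Subgroup.mem_bot] at h8
      exact hb1 h8.symm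
    · apply hnt
      intro q a
      have h8 : a ∈ B := by rw [h7]; exact Subgroup.mem_top a
      exact (hB a).1 h8 q

theorem a_build {F : GroupClass} (hF : IsFormation F) {G : Type} [Group G] (hG : F G)
    (A : Subgroup G) [A.Normal] (hA : A ≠ ⊥) (hc : ⁅A, A⁆ = ⊥)
    (hnc : ⁅A, (⊤ : Subgroup G)⁆ ≠ ⊥)
    (hmin : ∀ L : Subgroup G, L.Normal → L ≤ A → L = ⊥ ∨ L = A)
    (hmax : ∀ N : Subgroup G, N.Normal → N ≠ ⊤ → ⁅A, N⁆ = ⊥)
    {p : ℕ} (hp : p.Prime) (hexp : ∀ x ∈ A, x ^ p = 1) :
    ∃ (Y : Type) (_ : Group Y) (A' : Subgroup Y), F Y ∧ A'.Normal ∧ Np p Y ∧ A' ≠ ⊥ ∧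
      ⁅A', A'⁆ = ⊥ ∧ ∀ x ∈ A', x ^ p = 1 := by
  haveI := hF.finite G hG
  have hP := hF.semidirect hG A
  let ψ : (↥A ⋊[MulAut.conjNormal] G) →*
      (↥A ⋊[(MulAut.conjNormal : G →* MulAut A).range.subtype]
        ↥(MulAut.conjNormal : G →* MulAut A).range) :=
    SemidirectProduct.map (MonoidHom.id A) (MulAut.conjNormal : G →* MulAut A).rangeRestrict
      (fun g => rfl)
  have hψ : Function.Surjective ψ := by
    intro y
    obtain ⟨g, hg⟩ := (MulAut.conjNormal : G →* MulAut A).rangeRestrict_surjective y.right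
    refine ⟨⟨y.left, g⟩, ?_⟩
    apply SemidirectProduct.ext
    · rfl
    · exact hg
  refine ⟨_, inferInstance, (SemidirectProduct.inl :
    A →* (↥A ⋊[(MulAut.conjNormal : G →* MulAut A).range.subtype]
        ↥(MulAut.conjNormal : G →* MulAut A).range)).range, hF.surj hP ψ hψ, ?_,
    s04_np A hA hnc hmin hmax hp hexp, ?_, ?_, ?_⟩
  · rw [SemidirectProduct.range_inl_eq_ker_rightHom]
    infer_instance
  · intro h
    apply hA
    rw [Subgroup.eq_bot_iff_forall]
    intro a ha
    have h1 : SemidirectProduct.inl (⟨a, ha⟩ : A) ∈ (SemidirectProduct.inl :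
      A →* (↥A ⋊[(MulAut.conjNormal : G →* MulAut A).range.subtype]
        ↥(MulAut.conjNormal : G →* MulAut A).range)).range := ⟨_, rfl⟩
    rw [h, Subgroup.mem_bot] at h1
    have h2 := SemidirectProduct.inl_injective (h1.trans (map_one _).symm)
    exact congrArg Subtype.val h2
  · rw [eq_bot_iff, Subgroup.commutator_le]
    rintro _ ⟨x, rfl⟩ _ ⟨y, rfl⟩
    have h1 := Subgroup.commutator_mem_commutator x.2 y.2
    rw [hc, Subgroup.mem_bot, commutatorElement_eq_one_iff_mul_comm] at h1
    rw [Subgroup.mem_bot, commutatorElement_eq_one_iff_mul_comm, ← map_mul, ← map_mul]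
    congr 1
    exact Subtype.ext h1
  · rintro _ ⟨x, rfl⟩
    rw [← map_pow]
    have h1 : x ^ p = 1 := Subtype.ext (hexp x x.2)
    rw [h1, map_one]

end Pool.Agent.Helper75.SNF
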