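import Pool.Agent.Helper75.SNF.Helpers

set_option autoImplicit false
set_option linter.style.haveILetI false

namespace Pool.Agent.Helper75.SNF

open Subgroup


/-- noncentral abelian chief factor -/
def s05_Bad (G : Type) [Group G] : Prop :=
  ∃ H K : Subgroup G, IsChiefFactor H K ∧ ⁅H, H⁆ ≤ K ∧ ¬ ⁅H, (⊤ : Subgroup G)⁆ ≤ K

theorem s05_quot {G : Type} [Group G] {H K : Subgroup G} [K.Normal] (hc : IsChiefFactor H K)
    (h1 : ⁅H, H⁆ ≤ K) (h2 : ¬ ⁅H, (⊤ : Subgroup G)⁆ ≤ K) : s05_Bad (G ⧸ K) := by
  set q := QuotientGroup.mk' K with hq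
  have hqs : Function.Surjective q := QuotientGroup.mk'_surjective K
  have hker : q.ker = K := QuotientGroup.ker_mk' K
  haveI := hc.normal_top
  refine ⟨H.map q, ⊥, ⟨?_, inferInstance, ?_, ?_⟩, ?_, ?_⟩
  · exact Subgroup.Normal.map hc.normal_top q hqs
  · rw [bot_lt_iff_ne_bot]
    intro h
    rw [Subgroup.map_eq_bot_iff, hker] at h
    exact absurd h (not_le_of_gt hc.lt)
  · intro L hL _ hLH
    have e1 : K ≤ L.comap q := hker.ge.trans (Subgroup.ker_le_comap q L)
    have e2 : L.comap q ≤ H := by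
      have := Subgroup.comap_mono (f := q) hLH
      rw [Subgroup.comap_map_eq, hker, sup_eq_left.mpr hc.lt.le] at this
      exact this
    have e3 : (L.comap q).map q = L := Subgroup.map_comap_eq_self_of_surjective hqs L
    rcases hc.minimal (L.comap q) (hL.comap q) e1 e2 with h | h
    · left
      rw [← e3, h, Subgroup.map_eq_bot_iff, hker]
    · right
      rw [← e3, h]
  · rw [← Subgroup.map_commutator, le_bot_iff, Subgroup.map_eq_bot_iff, hker]
    exact h1
  · intro h
    apply h2
    have e1 : (⊤ : Subgroup (G ⧸ K)) = (⊤ : Subgroup G).map q :=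
      (Subgroup.map_top_of_surjective q hqs).symm
    rw [e1, ← Subgroup.map_commutator, le_bot_iff, Subgroup.map_eq_bot_iff, hker] at h
    exact h

theorem a_min {F : GroupClass} (hF : IsFormation F) (hS : SnClosed F) (h : ¬ Cond1 F) :
    ∃ (G : Type) (_ : Group G) (A : Subgroup G), F G ∧ A.Normal ∧ A ≠ ⊥ ∧ ⁅A, A⁆ = ⊥ ∧
      ⁅A, (⊤ : Subgroup G)⁆ ≠ ⊥ ∧ (∀ L : Subgroup G, L.Normal → L ≤ A → L = ⊥ ∨ L = A) ∧
      (∀ N : Subgroup G, N.Normal → N ≠ ⊤ → ⁅A, N⁆ = ⊥) := by
  classical
  have hex : ∃ n : ℕ, ∃ (G : Type) (_ : Group G), F G ∧ s05_Bad G ∧ Nat.card G = n := by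
    unfold Cond1 at h
    push Not at h
    obtain ⟨G, _, hG, H, K, hc, h1, h2⟩ := h
    exact ⟨Nat.card G, G, _, hG, ⟨H, K, hc, h1, h2⟩, rfl⟩
  obtain ⟨G, _, hG, ⟨H, K, hc, h1, h2⟩, hcard⟩ := Nat.find_spec hex
  have hmin : ∀ (X : Type) (_ : Group X), F X → Nat.card X < Nat.card G → ¬ s05_Bad X := by
    intro X _ hX hlt hbad
    rw [hcard] at hlt
    exact Nat.find_min hex hlt ⟨X, _, hX, hbad, rfl⟩
  haveI : Finite G := hF.finite G hG
  haveI := hc.normal_bot
  haveI hHn := hc.normal_top
  have hK : K = ⊥ := by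
    by_contra hne
    apply hmin (G ⧸ K) _ (hF.quotient G K hG) ?_ (s05_quot hc h1 h2)
    rw [Subgroup.card_eq_card_quotient_mul_card_subgroup K]
    have e1 : 1 < Nat.card K := (Subgroup.one_lt_card_iff_ne_bot K).mpr hne
    have e2 : 0 < Nat.card (G ⧸ K) := Nat.card_pos
    nlinarith
  subst hK
  refine ⟨G, _, H, hG, hHn, ?_, ?_, ?_, ?_, ?_⟩
  · exact bot_lt_iff_ne_bot.mp hc.lt
  · exact le_bot_iff.mp h1
  · intro h
    exact h2 h.le
  · intro L hL hLH
    exact hc.minimal L hL bot_le hLH
  · intro N hN hNtop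
    have e1 : ⁅H, N⁆ ≤ H := Subgroup.commutator_le_left H N
    have e2 : ⁅H, N⁆ ≤ N := Subgroup.commutator_le_right H N
    have e3 : (⁅H, N⁆).Normal := Subgroup.commutator_normal H N
    rcases hc.minimal _ e3 bot_le e1 with h | h
    · exact h
    · exfalso
      rw [h] at e2
      set A0 := H.subgroupOf N with hA0
      have hmapA0 : A0.map N.subtype = H := by
        rw [hA0, Subgroup.subgroupOf_map_subtype]
        exact inf_eq_left.mpr e2
      have hinj : Function.Injective N.subtype := N.subtype_injective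
      haveI hA0n : A0.Normal := hHn.subgroupOf N
      have hA0b : A0 ≠ ⊥ := by
        intro hb
        rw [hb, Subgroup.map_bot] at hmapA0
        exact (bot_lt_iff_ne_bot.mp hc.lt) hmapA0.symm
      have hfin : {L : Subgroup N | L.Normal ∧ L < A0}.Finite := Set.toFinite _
      obtain ⟨K0, hK0⟩ := hfin.exists_maximal
        ⟨⊥, inferInstance, bot_lt_iff_ne_bot.mpr hA0b⟩
      have hcf : IsChiefFactor A0 K0 := by
        refine ⟨hA0n, hK0.prop.1, hK0.prop.2, ?_⟩
        intro L hL hKL hLA
        rcases hLA.lt_or_eq with hlt | heq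
        · left
          exact le_antisymm (hK0.le_of_ge ⟨hL, hlt⟩ hKL) hKL
        · right
          exact heq
      have hc1 : ⁅A0, A0⁆ ≤ K0 := by
        have : ⁅A0, A0⁆ = ⊥ := by
          apply Subgroup.map_injective hinj
          rw [Subgroup.map_commutator, hmapA0, Subgroup.map_bot]
          exact le_bot_iff.mp h1
        rw [this]
        exact bot_le
      have hFN : F N := hS G N hN hG
      have hcardN : Nat.card N < Nat.card G := by
        have h5 := Subgroup.card_mul_index N
        have h6 : 0 < Nat.card N := Nat.card_pos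
        have h7 : N.index ≠ 1 := fun h => hNtop (Subgroup.index_eq_one.mp h)
        have h8 : N.index ≠ 0 := Subgroup.index_ne_zero_of_finite
        have h9 : 2 ≤ N.index := by omega
        nlinarith
      have hnb := hmin N _ hFN hcardN
      apply hnb
      refine ⟨A0, K0, hcf, hc1, ?_⟩
      intro hle
      have h10 : (⁅A0, (⊤ : Subgroup N)⁆).map N.subtype = H := by
        rw [Subgroup.map_commutator, hmapA0]
        have : (⊤ : Subgroup N).map N.subtype = N := by
          rw [← MonoidHom.range_eq_map, Subgroup.range_subtype]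
        rw [this, h]
      have h11 : A0.map N.subtype ≤ K0.map N.subtype := by
        rw [hmapA0, ← h10]
        exact Subgroup.map_mono hle
      rw [Subgroup.map_le_map_iff_of_injective hinj] at h11
      exact absurd h11 (not_le_of_gt hK0.prop.2)

end Pool.Agent.Helper75.SNF
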