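import Pool.Agent.Helper75.SNF.Helpers

set_option autoImplicit false
set_option linter.style.haveILetI false

namespace Pool.Agent.Helper75.SNF

open Subgroup


theorem s06_three {G : Type} [Group G] (A B C N : Subgroup G) [N.Normal] (h1 : ⁅⁅B, C⁆, A⁆ ≤ N)
    (h2 : ⁅⁅C, A⁆, B⁆ ≤ N) : ⁅⁅A, B⁆, C⁆ ≤ N := by
  have key : ∀ H : Subgroup G, H ≤ N ↔ H.map (QuotientGroup.mk' N) = ⊥ := by
    intro H
    rw [Subgroup.map_eq_bot_iff, QuotientGroup.ker_mk']
  rw [key] at h1 h2 ⊢
  simp only [Subgroup.map_commutator] at h1 h2 ⊢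
  exact Subgroup.commutator_commutator_eq_bot_of_rotate h1 h2

theorem s06_normal {G : Type} [Group G] (n : ℕ) : (it (⊤ : Subgroup G) n).Normal := by
  induction n with
  | zero => exact inferInstanceAs ((⊤ : Subgroup G).Normal)
  | succ n ih =>
    have := ih
    exact Subgroup.commutator_normal (it (⊤ : Subgroup G) n) ⊤

theorem lcs_comm (G : Type) [Group G] (a b : ℕ) :
    ⁅it (⊤ : Subgroup G) a, it (⊤ : Subgroup G) b⁆ ≤ it (⊤ : Subgroup G) (a + b + 1) := by
  induction b generalizing a with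
  | zero => exact le_refl _
  | succ b ih =>
    have hN : (it (⊤ : Subgroup G) (a + (b + 1) + 1)).Normal := s06_normal _
    rw [Subgroup.commutator_comm]
    change ⁅⁅it (⊤ : Subgroup G) b, ⊤⁆, it (⊤ : Subgroup G) a⁆ ≤ _
    apply s06_three
    · rw [Subgroup.commutator_comm ⊤ (it (⊤ : Subgroup G) a)]
      have h1 := ih (a + 1)
      have h2 : a + 1 + b + 1 = a + (b + 1) + 1 := by omega
      rw [h2] at h1
      exact h1
    · have h1 := ih a
      exact Subgroup.commutator_mono h1 le_rfl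

end Pool.Agent.Helper75.SNF
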