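import Pool.Agent.Helper75.SNF.Helpers
import Pool.Agent.Helper75.SNF.S06

set_option autoImplicit false
set_option linter.style.haveILetI false

namespace Pool.Agent.Helper75.SNF

open Subgroup


theorem s07_it_normal {G : Type} [Group G] (k : ℕ) : (it (⊤ : Subgroup G) k).Normal := by
  induction k with
  | zero => exact (inferInstance : (⊤ : Subgroup G).Normal)
  | succ k ih =>
    show (⁅it (⊤ : Subgroup G) k, (⊤ : Subgroup G)⁆).Normal
    haveI := ih
    infer_instance

theorem s07_it_lcs {G : Type} [Group G] (k : ℕ) :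
    it (⊤ : Subgroup G) k = (⊤ : Subgroup G).lowerCentralSeries k := by
  induction k with
  | zero => rfl
  | succ k ih =>
    show ⁅it (⊤ : Subgroup G) k, (⊤ : Subgroup G)⁆ = _
    rw [ih]
    rfl

/-- cube groups -/
structure s07_Cube (Y : Type) [Group Y] (γ : ℕ → Subgroup Y) (n : ℕ) where
  C : Type
  grp : Group C
  fin : Finite C
  V : Type
  finV : Finite V
  top : V
  ev : V → C →* Y
  S : ℕ → Subgroup C
  anti : ∀ k, S (k + 1) ≤ S k
  comm : ∀ a b, ⁅S a, S b⁆ ≤ S (a + b)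
  const : Y → C
  const_ev : ∀ v g, ev v (const g) = g
  const_mem : ∀ k, ∀ g ∈ γ k, const g ∈ S k
  inj : ∀ x, (∀ v, ev v x = 1) → x = 1
  fill : ∀ v, v ≠ top → ∀ g : Y, ∃ x ∈ S 0, ev v x = g ∧ ev top x = 1
  corner : ∀ k, ∀ x ∈ S k, (∀ v, v ≠ top → ev v x = 1) → ev top x ∈ γ (n + k)

open scoped commutatorElement in
theorem s07_conj {G : Type} [Group G] (S : ℕ → Subgroup G) (comm : ∀ a b, ⁅S a, S b⁆ ≤ S (a + b))
    (m : ℕ) {g u : G} (hg : g ∈ S 0) (hu : u ∈ S m) : g * u * g⁻¹ ∈ S m := by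
  have h1 : ⁅g, u⁆ ∈ S (0 + m) := comm 0 m (Subgroup.commutator_mem_commutator hg hu)
  rw [zero_add] at h1
  have h2 : g * u * g⁻¹ = ⁅g, u⁆ * u := by
    rw [commutatorElement_def]; group
  rw [h2]
  exact mul_mem h1 hu

theorem s07_le_zero {G : Type} [Group G] (S : ℕ → Subgroup G) (anti : ∀ k, S (k + 1) ≤ S k)
    (k : ℕ) : S k ≤ S 0 := by
  induction k with
  | zero => exact le_rfl
  | succ k ih => exact (anti k).trans ih

/-- the next filtration -/
def s07_next {G : Type} [Group G] (S : ℕ → Subgroup G) (anti : ∀ k, S (k + 1) ≤ S k)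
    (comm : ∀ a b, ⁅S a, S b⁆ ≤ S (a + b)) (k : ℕ) : Subgroup (G × G) where
  carrier := {p | p.1 ∈ S k ∧ p.1⁻¹ * p.2 ∈ S (k + 1)}
  one_mem' := by simp
  mul_mem' := by
    rintro ⟨x, y⟩ ⟨x', y'⟩ ⟨h1, h2⟩ ⟨h3, h4⟩
    simp only at h1 h2 h3 h4
    refine ⟨mul_mem h1 h3, ?_⟩
    show (x * x')⁻¹ * (y * y') ∈ S (k + 1)
    have e : (x * x')⁻¹ * (y * y') = (x'⁻¹ * (x⁻¹ * y) * x'⁻¹⁻¹) * (x'⁻¹ * y') := by group
    rw [e]
    exact mul_mem (s07_conj S comm _ (inv_mem (s07_le_zero S anti k h3)) h2) h4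
  inv_mem' := by
    rintro ⟨x, y⟩ ⟨h1, h2⟩
    simp only at h1 h2
    refine ⟨inv_mem h1, ?_⟩
    show (x⁻¹)⁻¹ * y⁻¹ ∈ S (k + 1)
    have e : (x⁻¹)⁻¹ * y⁻¹ = x * (x⁻¹ * y)⁻¹ * x⁻¹ := by group
    rw [e]
    exact s07_conj S comm _ (s07_le_zero S anti k h1) (inv_mem h2)

theorem s07_mem_next {G : Type} [Group G] (S : ℕ → Subgroup G) (anti : ∀ k, S (k + 1) ≤ S k)
    (comm : ∀ a b, ⁅S a, S b⁆ ≤ S (a + b)) (k : ℕ) (p : G × G) :
    p ∈ s07_next S anti comm k ↔ p.1 ∈ S k ∧ p.1⁻¹ * p.2 ∈ S (k + 1) := Iff.rfl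

theorem s07_next_anti {G : Type} [Group G] (S : ℕ → Subgroup G) (anti : ∀ k, S (k + 1) ≤ S k)
    (comm : ∀ a b, ⁅S a, S b⁆ ≤ S (a + b)) (k : ℕ) :
    s07_next S anti comm (k + 1) ≤ s07_next S anti comm k := by
  rintro p ⟨h1, h2⟩
  exact ⟨anti _ h1, anti _ h2⟩

open scoped commutatorElement in
theorem s07_next_comm {G : Type} [Group G] (S : ℕ → Subgroup G) (anti : ∀ k, S (k + 1) ≤ S k)
    (comm : ∀ a b, ⁅S a, S b⁆ ≤ S (a + b)) (a b : ℕ) :
    ⁅s07_next S anti comm a, s07_next S anti comm b⁆ ≤ s07_next S anti comm (a + b) := by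
  rw [Subgroup.commutator_le]
  rintro ⟨x, y⟩ ⟨h1, h2⟩ ⟨x', y'⟩ ⟨h3, h4⟩
  simp only at h1 h2 h3 h4
  have c1 : ⁅x, x'⁆ ∈ S (a + b) := comm a b (Subgroup.commutator_mem_commutator h1 h3)
  refine ⟨c1, ?_⟩
  show ⁅x, x'⁆⁻¹ * ⁅y, y'⁆ ∈ S (a + b + 1)
  obtain ⟨d, hd⟩ : ∃ d, d = x⁻¹ * y := ⟨_, rfl⟩
  obtain ⟨e, he⟩ : ∃ e, e = x'⁻¹ * y' := ⟨_, rfl⟩
  rw [← hd] at h2
  rw [← he] at h4
  have hy : y = x * d := by rw [hd]; group
  have hy' : y' = x' * e := by rw [he]; group
  subst hy hy'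
  have hz : x' * e ∈ S b := mul_mem h3 (anti b h4)
  have c2 : ⁅d, x' * e⁆ ∈ S (a + b + 1) := by
    have := comm (a + 1) b (Subgroup.commutator_mem_commutator h2 hz)
    rwa [show a + 1 + b = a + b + 1 by ring] at this
  have c3 : ⁅x, e⁆ ∈ S (a + b + 1) := comm a (b + 1) (Subgroup.commutator_mem_commutator h1 h4)
  have hx0 := s07_le_zero S anti a h1
  have hx0' := s07_le_zero S anti b h3
  have hc0 := s07_le_zero S anti _ c1
  have e1 : ⁅x, x'⁆⁻¹ * ⁅x * d, x' * e⁆ =
      (⁅x, x'⁆⁻¹ * (x * ⁅d, x' * e⁆ * x⁻¹) * ⁅x, x'⁆⁻¹⁻¹) * (x' * ⁅x, e⁆ * x'⁻¹) := by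
    simp only [commutatorElement_def]
    group
  rw [e1]
  exact mul_mem (s07_conj S comm _ (inv_mem hc0) (s07_conj S comm _ hx0 c2))
    (s07_conj S comm _ hx0' c3)

theorem s07_cube (Y : Type) [Group Y] [Finite Y] (γ : ℕ → Subgroup Y) (anti : ∀ k, γ (k + 1) ≤ γ k)
    (comm : ∀ a b, ⁅γ a, γ b⁆ ≤ γ (a + b)) (h1 : γ 1 = ⊤) (n : ℕ) : Nonempty (s07_Cube Y γ n) := by
  have h0 : γ 0 = ⊤ := by
    rw [eq_top_iff, ← h1]
    exact anti 0
  induction n with
  | zero =>
    exact ⟨{
      C := Y, grp := inferInstance, fin := inferInstance, V := Unit, finV := inferInstance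
      top := (), ev := fun _ => MonoidHom.id Y, S := γ, anti := anti, comm := comm
      const := id, const_ev := fun _ _ => rfl, const_mem := fun _ _ h => h
      inj := fun x h => h ()
      fill := fun v hv => absurd (Subsingleton.elim v ()) hv
      corner := fun k x hx _ => by
        rw [zero_add]
        exact hx }⟩
  | succ n ih =>
    obtain ⟨D⟩ := ih
    letI := D.grp
    haveI := D.fin
    haveI := D.finV
    have hc1 : ∀ g, D.const g ∈ D.S 1 := fun g => D.const_mem 1 g (by rw [h1]; trivial)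
    have hc0 : ∀ g, D.const g ∈ D.S 0 := fun g => D.const_mem 0 g (by rw [h0]; trivial)
    exact ⟨{
      C := D.C × D.C
      grp := inferInstance
      fin := inferInstance
      V := Bool × D.V
      finV := inferInstance
      top := (true, D.top)
      ev := fun v => (D.ev v.2).comp (if v.1 then MonoidHom.snd D.C D.C else MonoidHom.fst D.C D.C)
      S := s07_next D.S D.anti D.comm
      anti := s07_next_anti D.S D.anti D.comm
      comm := s07_next_comm D.S D.anti D.comm
      const := fun g => (D.const g, D.const g)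
      const_ev := by
        rintro ⟨b, v⟩ g
        cases b
        · exact D.const_ev v g
        · exact D.const_ev v g
      const_mem := by
        intro k g hg
        refine ⟨D.const_mem k g hg, ?_⟩
        show (D.const g)⁻¹ * D.const g ∈ _
        rw [inv_mul_cancel]
        exact one_mem _
      inj := by
        rintro ⟨x0, x1⟩ h
        have e0 : x0 = 1 := D.inj x0 (fun v => h (false, v))
        have e1 : x1 = 1 := D.inj x1 (fun v => h (true, v))
        rw [e0, e1]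
        rfl
      fill := by
        rintro ⟨b, v⟩ hv g
        cases b
        · refine ⟨(D.const g, 1), ⟨hc0 g, ?_⟩, D.const_ev v g, ?_⟩
          · show (D.const g)⁻¹ * 1 ∈ _
            rw [mul_one]
            exact inv_mem (hc1 g)
          · show D.ev D.top 1 = 1
            exact map_one _
        · have hv' : v ≠ D.top := by
            rintro rfl
            exact hv rfl
          obtain ⟨x, hx, hx1, hx2⟩ := D.fill v hv' g
          refine ⟨(x, x), ⟨hx, ?_⟩, hx1, hx2⟩
          show x⁻¹ * x ∈ _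
          rw [inv_mul_cancel]
          exact one_mem _
      corner := by
        rintro k ⟨x0, x1⟩ ⟨hx, hx'⟩ h
        simp only at hx hx'
        have e0 : x0 = 1 := D.inj x0 (fun v => h (false, v) (by
          intro hh
          have := congrArg Prod.fst hh
          simp at this))
        rw [e0, inv_one, one_mul] at hx'
        have := D.corner (k + 1) x1 hx' (fun v hv => h (true, v) (by
          intro hh
          exact hv (congrArg Prod.snd hh)))
        rw [show n + (k + 1) = n + 1 + k by ring] at this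
        exact this }⟩

theorem neumann {F : GroupClass} (hF : IsFormation F) {Y : Type} [Group Y] (hY : F Y)
    (hn : Group.IsNilpotent Y) (H : Subgroup Y) : F H := by
  classical
  haveI : Finite Y := hF.finite Y hY
  set γ : ℕ → Subgroup Y := fun k => it (⊤ : Subgroup Y) (k - 1) with hγ
  have anti : ∀ k, γ (k + 1) ≤ γ k := by
    intro k
    rcases k with _ | k
    · exact le_rfl
    · show it (⊤ : Subgroup Y) (k + 1) ≤ it (⊤ : Subgroup Y) k
      haveI := s07_it_normal (G := Y) k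
      exact Subgroup.commutator_le_left _ _
  have comm : ∀ a b, ⁅γ a, γ b⁆ ≤ γ (a + b) := by
    intro a b
    rcases a with _ | a
    · rw [zero_add]
      haveI : (γ b).Normal := s07_it_normal (G := Y) (b - 1)
      exact Subgroup.commutator_le_right _ _
    · rcases b with _ | b
      · haveI : (γ (a + 1)).Normal := s07_it_normal (G := Y) a
        exact Subgroup.commutator_le_left _ _
      · have h := lcs_comm Y a b
        have e : γ (a + 1 + (b + 1)) = it (⊤ : Subgroup Y) (a + b + 1) := by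
          show it (⊤ : Subgroup Y) (a + 1 + (b + 1) - 1) = _
          congr 1
          omega
        rw [e]
        exact h
  obtain ⟨n, hnb⟩ : ∃ n, γ n = ⊥ := by
    obtain ⟨n, hn⟩ := Subgroup.nilpotent_iff_lowerCentralSeries.1 hn
    refine ⟨n + 1, ?_⟩
    show it (⊤ : Subgroup Y) n = ⊥
    rw [s07_it_lcs]
    exact hn
  obtain ⟨D⟩ := s07_cube Y γ anti comm rfl n
  letI := D.grp
  haveI := D.fin
  haveI := D.finV
  let R : Subgroup D.C := D.S 0 ⊓ H.comap (D.ev D.top)
  have hR : F R := by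
    refine hF.subdirect_finite hY (G := R) (ι := {v : D.V // v ≠ D.top}) (A := fun _ => Y)
      (fun v => (D.ev v.1).comp R.subtype) ?_ (fun _ => hY) ?_
    · rintro ⟨v, hv⟩ g
      obtain ⟨x, hx, hx1, hx2⟩ := D.fill v hv g
      refine ⟨⟨x, hx, ?_⟩, hx1⟩
      show D.ev D.top x ∈ H
      rw [hx2]
      exact one_mem _
    · rintro ⟨x, hx, hx'⟩ h
      have h1 : ∀ v, v ≠ D.top → D.ev v x = 1 := fun v hv => h ⟨v, hv⟩
      have h2 := D.corner 0 x hx h1
      rw [add_zero, hnb, Subgroup.mem_bot] at h2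
      apply Subtype.ext
      apply D.inj
      intro v
      by_cases hv : v = D.top
      · rw [hv]; exact h2
      · exact h1 v hv
  let ψ : R →* H := ((D.ev D.top).comp R.subtype).codRestrict H (fun x => x.2.2)
  refine hF.surj hR ψ ?_
  rintro ⟨h, hh⟩
  refine ⟨⟨D.const h, D.const_mem 0 h (by trivial), ?_⟩, ?_⟩
  · show D.ev D.top (D.const h) ∈ H
    rw [D.const_ev]
    exact hh
  · apply Subtype.ext
    exact D.const_ev D.top h

end Pool.Agent.Helper75.SNF
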