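import Pool.Agent.Helper75.SNF.Helpers

set_option autoImplicit false
set_option linter.style.haveILetI false

namespace Pool.Agent.Helper75.SNF

open Subgroup


theorem s08_isFormation (G X : Type) [Group G] [Finite G] [Group X] {M : Subgroup X}
    (hM : IsMonolith M) (hna : ⁅M, M⁆ ≠ ⊥) :
    IsFormation (fun Y _ => Finite Y ∧
      ∀ ψ : Y →* X, Function.Surjective ψ → ∃ φ : G →* X, Function.Surjective φ) where
  finite := fun _ _ h => h.1
  iso := by
    rintro A B _ _ ⟨e⟩ ⟨h1, h2⟩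
    haveI := h1
    exact ⟨Finite.of_equiv _ e.toEquiv,
      fun ψ hψ => h2 (ψ.comp e.toMonoidHom) (hψ.comp e.surjective)⟩
  quotient := by
    rintro A _ N _ ⟨h1, h2⟩
    haveI : Finite A := h1
    exact ⟨inferInstance,
      fun ψ hψ => h2 (ψ.comp (QuotientGroup.mk' N)) (hψ.comp (QuotientGroup.mk'_surjective N))⟩
  subdirect := by
    rintro K _ _ M1 N1 _ _ ⟨h1, h2⟩ ⟨h3, h4⟩
    refine ⟨inferInstance, fun ψ hψ => ?_⟩
    set χ : K →* X := ψ.comp (QuotientGroup.mk' (M1 ⊓ N1)) with hχ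
    have hχs : Function.Surjective χ := hψ.comp (QuotientGroup.mk'_surjective _)
    have hker : M1 ⊓ N1 ≤ χ.ker := by
      intro x hx
      rw [MonoidHom.mem_ker, hχ, MonoidHom.comp_apply]
      have : (QuotientGroup.mk' (M1 ⊓ N1)) x = 1 := (QuotientGroup.eq_one_iff x).2 hx
      rw [this, map_one]
    by_cases hM1 : M1 ≤ χ.ker
    · exact h2 (QuotientGroup.lift M1 χ (fun x hx => hM1 hx))
        (fun y => by obtain ⟨x, hx⟩ := hχs y; exact ⟨(x : K ⧸ M1), hx⟩)
    by_cases hN1 : N1 ≤ χ.ker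
    · exact h4 (QuotientGroup.lift N1 χ (fun x hx => hN1 hx))
        (fun y => by obtain ⟨x, hx⟩ := hχs y; exact ⟨(x : K ⧸ N1), hx⟩)
    exfalso
    have a1 : (M1.map χ).Normal := Subgroup.Normal.map inferInstance χ hχs
    have a2 : M1.map χ ≠ ⊥ := by
      intro h
      rw [Subgroup.map_eq_bot_iff] at h
      exact hM1 h
    have a3 : (N1.map χ).Normal := Subgroup.Normal.map inferInstance χ hχs
    have a4 : N1.map χ ≠ ⊥ := by
      intro h
      rw [Subgroup.map_eq_bot_iff] at h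
      exact hN1 h
    have b1 := hM.le _ a1 a2
    have b2 := hM.le _ a3 a4
    apply hna
    rw [eq_bot_iff]
    calc ⁅M, M⁆ ≤ ⁅M1.map χ, N1.map χ⁆ := Subgroup.commutator_mono b1 b2
      _ = ⁅M1, N1⁆.map χ := (Subgroup.map_commutator _ _ _).symm
      _ ≤ (M1 ⊓ N1).map χ := Subgroup.map_mono (Subgroup.commutator_le_inf M1 N1)
      _ ≤ ⊥ := by
        rw [le_bot_iff, Subgroup.map_eq_bot_iff]
        exact hker

theorem b_quot {G X : Type} [Group G] [Finite G] [Group X] {M : Subgroup X} (hM : IsMonolith M)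
    (hna : ⁅M, M⁆ ≠ ⊥) (h : form G X) : ∃ φ : G →* X, Function.Surjective φ := by
  have h1 := h _ (s08_isFormation G X hM hna) ⟨inferInstance, fun ψ hψ => ⟨ψ, hψ⟩⟩
  exact h1.2 (MonoidHom.id X) Function.surjective_id

end Pool.Agent.Helper75.SNF
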