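import Pool.Agent.Helper75.SNF.Helpers

set_option autoImplicit false
set_option linter.style.haveILetI false

namespace Pool.Agent.Helper75.SNF

open Subgroup


/-- conjugation as a homomorphism -/
def s09_c {G : Type} [Group G] (D : Subgroup G) [D.Normal] (g : G) : D →* D :=
  (MulAut.conjNormal g : D ≃* D).toMonoidHom

theorem s09_c_coe {G : Type} [Group G] (D : Subgroup G) [D.Normal] (g : G) (x : D) :
    ((s09_c D g x : D) : G) = g * x * g⁻¹ := MulAut.conjNormal_apply g x

theorem s09_c_surj {G : Type} [Group G] (D : Subgroup G) [D.Normal] (g : G) :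
    Function.Surjective (s09_c D g) := (MulAut.conjNormal g : D ≃* D).surjective

theorem s09_c_inj {G : Type} [Group G] (D : Subgroup G) [D.Normal] (g : G) :
    Function.Injective (s09_c D g) := (MulAut.conjNormal g : D ≃* D).injective

theorem s09_c_mul {G : Type} [Group G] (D : Subgroup G) [D.Normal] (g h : G) (x : D) :
    s09_c D g (s09_c D h x) = s09_c D (g * h) x := by
  apply Subtype.ext
  rw [s09_c_coe, s09_c_coe, s09_c_coe]
  group

theorem s09_c_one {G : Type} [Group G] (D : Subgroup G) [D.Normal] (x : D) :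
    s09_c D 1 x = x := by
  apply Subtype.ext
  rw [s09_c_coe]
  group

/-- minimality of the conjugates -/
theorem s09_min {G : Type} [Group G] (D : Subgroup G) [D.Normal] (A : Subgroup D)
    (hmin : ∀ L : Subgroup D, L.Normal → L ≠ ⊥ → L ≤ A → A ≤ L) (g : G)
    (L : Subgroup D) (hL : L.Normal) (hne : L ≠ ⊥) (hle : L ≤ A.map (s09_c D g)) :
    A.map (s09_c D g) ≤ L := by
  rw [Subgroup.map_le_iff_le_comap]
  apply hmin
  · exact hL.comap _
  · intro h
    apply hne
    rw [eq_bot_iff]
    intro y hy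
    obtain ⟨x, rfl⟩ := s09_c_surj D g y
    have h1 : x ∈ L.comap (s09_c D g) := hy
    rw [h, Subgroup.mem_bot] at h1
    rw [h1, map_one]
    exact Subgroup.one_mem _
  · intro x hx
    obtain ⟨a, ha, hax⟩ := hle hx
    rwa [s09_c_inj D g hax] at ha

/-- two conjugates are equal or commute -/
theorem s09_dich {G : Type} [Group G] (D : Subgroup G) [D.Normal] (A : Subgroup D) [A.Normal]
    (hmin : ∀ L : Subgroup D, L.Normal → L ≠ ⊥ → L ≤ A → A ≤ L) (g h : G) :
    A.map (s09_c D g) = A.map (s09_c D h) ∨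
      A.map (s09_c D g) ≤ Subgroup.centralizer (A.map (s09_c D h) : Subgroup D) := by
  have hg : (A.map (s09_c D g)).Normal := Subgroup.Normal.map inferInstance _ (s09_c_surj D g)
  have hh : (A.map (s09_c D h)).Normal := Subgroup.Normal.map inferInstance _ (s09_c_surj D h)
  by_cases hb : A.map (s09_c D g) ⊓ A.map (s09_c D h) = ⊥
  · right
    rw [← Subgroup.commutator_eq_bot_iff_le_centralizer, eq_bot_iff, ← hb]
    exact Subgroup.commutator_le_inf _ _
  · left
    have hn : (A.map (s09_c D g) ⊓ A.map (s09_c D h)).Normal := inferInstance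
    apply le_antisymm
    · exact (s09_min D A hmin g _ hn hb inf_le_left).trans inf_le_right
    · exact (s09_min D A hmin h _ hn hb inf_le_right).trans inf_le_left

theorem s09_exists_min {G : Type} [Group G] [Finite G] {M : Subgroup G} (hM : IsMonolith M)
    (D : Subgroup G) [D.Normal] (hMD : M ≤ D) :
    ∃ A : Subgroup D, A.Normal ∧ A ≠ ⊥ ∧ A ≤ M.subgroupOf D ∧
      ∀ L : Subgroup D, L.Normal → L ≠ ⊥ → L ≤ A → A ≤ L := by
  have hMn := hM.normal
  let S : Set (Subgroup D) := {A | A.Normal ∧ A ≠ ⊥ ∧ A ≤ M.subgroupOf D}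
  have hS : S.Nonempty := by
    refine ⟨M.subgroupOf D, inferInstance, ?_, le_rfl⟩
    intro h
    apply hM.ne_bot
    rw [eq_bot_iff]
    intro x hx
    have h1 : (⟨x, hMD hx⟩ : D) ∈ M.subgroupOf D := hx
    rw [h, Subgroup.mem_bot] at h1
    rw [Subgroup.mem_bot]
    exact congrArg Subtype.val h1
  obtain ⟨A, hA⟩ := (Set.toFinite S).exists_minimal hS
  refine ⟨A, hA.1.1, hA.1.2.1, hA.1.2.2, ?_⟩
  intro L hL hne hle
  exact hA.2 ⟨hL, hne, hle.trans hA.1.2.2⟩ hle

/-- the join of the conjugates contains `M` -/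
theorem s09_join {G : Type} [Group G] {M : Subgroup G} (hM : IsMonolith M)
    (D : Subgroup G) [D.Normal] (A : Subgroup D) (hA : A ≠ ⊥) :
    ∀ x ∈ M, ∃ b ∈ (⨆ g : G, A.map (s09_c D g)), (b : G) = x := by
  have hn : ((⨆ g : G, A.map (s09_c D g)).map D.subtype).Normal := by
    constructor
    rintro _ ⟨x, hx, rfl⟩ h
    refine ⟨s09_c D h x, ?_, ?_⟩
    · have h1 : (⨆ g : G, A.map (s09_c D g)) ≤
          (⨆ g : G, A.map (s09_c D g)).comap (s09_c D h) := by
        apply iSup_le
        intro g
        rintro _ ⟨a, ha, rfl⟩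
        rw [Subgroup.mem_comap, s09_c_mul]
        exact Subgroup.mem_iSup_of_mem (h * g) ⟨a, ha, rfl⟩
      exact h1 hx
    · exact s09_c_coe D h x
  have hne : ((⨆ g : G, A.map (s09_c D g)).map D.subtype) ≠ ⊥ := by
    intro h
    apply hA
    rw [eq_bot_iff]
    intro a ha
    have h1 : a ∈ (⨆ g : G, A.map (s09_c D g)) :=
      Subgroup.mem_iSup_of_mem 1 ⟨a, ha, s09_c_one D a⟩
    have h2 : (a : G) ∈ ((⨆ g : G, A.map (s09_c D g)).map D.subtype) := ⟨a, h1, rfl⟩
    rw [h, Subgroup.mem_bot] at h2
    rw [Subgroup.mem_bot]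
    exact Subtype.ext h2
  intro x hx
  obtain ⟨b, hb, hbx⟩ := hM.le _ hn hne hx
  exact ⟨b, hb, hbx⟩

theorem b_family {G : Type} [Group G] [Finite G] {M : Subgroup G} (hM : IsMonolith M)
    (hna : ⁅M, M⁆ ≠ ⊥) (D : Subgroup G) [D.Normal] (hD : D ≠ ⊥) :
    ∃ (X : Type) (_ : Group X) (f : D →* X) (MX : Subgroup X), Function.Surjective f ∧
      IsMonolith MX ∧ ⁅MX, MX⁆ ≠ ⊥ ∧
      (∀ x : D, (∀ g : G, f (MulAut.conjNormal g x) = 1) → x = 1) ∧
      (D = M → ∀ L : Subgroup X, L.Normal → L = ⊥ ∨ L = ⊤) := by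
  have hMn := hM.normal
  have hMD : M ≤ D := hM.le D inferInstance hD
  obtain ⟨A, hAn, hAne, hAM, hmin⟩ := s09_exists_min hM D hMD
  have hjoin := s09_join hM D A hAne
  -- the commutator subgroup of `A`
  have hAA : ⁅A, A⁆ ≠ ⊥ := by
    intro h
    apply hna
    rw [Subgroup.commutator_eq_bot_iff_le_centralizer] at h ⊢
    have h1 : ∀ g k : G, A.map (s09_c D g) ≤
        Subgroup.centralizer (A.map (s09_c D k) : Subgroup D) := by
      intro g k
      rcases s09_dich D A hmin g k with h2 | h2
      · rw [h2, ← Subgroup.commutator_eq_bot_iff_le_centralizer, ← Subgroup.map_commutator,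
          Subgroup.commutator_eq_bot_iff_le_centralizer.mpr h, Subgroup.map_bot]
      · exact h2
    have h2 : (⨆ g : G, A.map (s09_c D g)) ≤
        Subgroup.centralizer ((⨆ g : G, A.map (s09_c D g) : Subgroup D) : Set D) := by
      apply iSup_le
      intro g
      rw [Subgroup.le_centralizer_iff]
      apply iSup_le
      intro k
      exact h1 k g
    intro x hx
    obtain ⟨b, hb, rfl⟩ := hjoin x hx
    rw [Subgroup.mem_centralizer_iff]
    intro y hy
    obtain ⟨b', hb', rfl⟩ := hjoin y hy
    have h3 := Subgroup.mem_centralizer_iff.mp (h2 hb) b' hb'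
    exact congrArg Subtype.val h3
  have hAAeq : ⁅A, A⁆ = A :=
    le_antisymm (Subgroup.commutator_le_left A A)
      (hmin _ inferInstance hAA (Subgroup.commutator_le_left A A))
  let Ct : Subgroup D := Subgroup.centralizer (A : Set D)
  have hCtn : Ct.Normal := inferInstanceAs (Subgroup.centralizer (A : Set D)).Normal
  let f : D →* D ⧸ Ct := QuotientGroup.mk' Ct
  have hfs : Function.Surjective f := QuotientGroup.mk'_surjective Ct
  have hker : ∀ x : D, f x = 1 ↔ x ∈ Ct := fun x => QuotientGroup.eq_one_iff x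
  have hMXne : A.map f ≠ ⊥ := by
    intro h
    apply hAA
    rw [Subgroup.commutator_eq_bot_iff_le_centralizer]
    intro x hx
    have h1 : f x ∈ A.map f := ⟨x, hx, rfl⟩
    rw [h, Subgroup.mem_bot] at h1
    exact (hker x).mp h1
  have hmono : ∀ L : Subgroup (D ⧸ Ct), L.Normal → L ≠ ⊥ → A.map f ≤ L := by
    intro L hL hne
    have hL' : (L.comap f).Normal := hL.comap f
    have h1 : ⁅L.comap f, A⁆ ≠ ⊥ := by
      intro h
      rw [Subgroup.commutator_eq_bot_iff_le_centralizer] at h
      apply hne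
      rw [eq_bot_iff]
      intro y hy
      obtain ⟨x, rfl⟩ := hfs y
      have h2 : x ∈ Ct := h hy
      rw [Subgroup.mem_bot]
      exact (hker x).mpr h2
    have h2 : A ≤ ⁅L.comap f, A⁆ := hmin _ inferInstance h1 (Subgroup.commutator_le_right _ _)
    rw [Subgroup.map_le_iff_le_comap]
    exact h2.trans (Subgroup.commutator_le_left _ _)
  refine ⟨D ⧸ Ct, inferInstance, f, A.map f, hfs, ⟨hAn.map f hfs, hMXne, hmono⟩, ?_, ?_, ?_⟩
  · rw [← Subgroup.map_commutator, hAAeq]
    exact hMXne
  · intro x hx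
    have h1 : (⨆ g : G, A.map (s09_c D g)) ≤ Subgroup.centralizer {x} := by
      apply iSup_le
      intro g
      rintro _ ⟨a, ha, rfl⟩
      rw [Subgroup.mem_centralizer_iff]
      intro y hy
      rw [Set.mem_singleton_iff] at hy
      rw [hy]
      have h2 : s09_c D g⁻¹ x ∈ Ct := (hker _).mp (hx g⁻¹)
      have h3 := Subgroup.mem_centralizer_iff.mp h2 a ha
      have h4 := congrArg (s09_c D g) h3
      rw [map_mul, map_mul, s09_c_mul, mul_inv_cancel, s09_c_one] at h4
      exact h4.symm
    have h2 : (x : G) ∈ Subgroup.centralizer (M : Set G) := by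
      rw [Subgroup.mem_centralizer_iff]
      intro m hm
      obtain ⟨b, hb, rfl⟩ := hjoin m hm
      have h3 := Subgroup.mem_centralizer_iff.mp (h1 hb) x rfl
      exact (congrArg Subtype.val h3).symm
    have h3 : Subgroup.centralizer (M : Set G) = ⊥ := by
      by_contra hne
      have h4 := hM.le (Subgroup.centralizer (M : Set G)) inferInstance hne
      exact hna (Subgroup.commutator_eq_bot_iff_le_centralizer.mpr h4)
    rw [h3, Subgroup.mem_bot] at h2
    exact Subtype.ext h2
  · intro hDM L hL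
    by_cases hb : L = ⊥
    · left; exact hb
    · right
      have h1 : A ≤ L.comap f := Subgroup.map_le_iff_le_comap.mp (hmono L hL hb)
      have h2 : Ct ≤ L.comap f := by
        intro x hx
        rw [Subgroup.mem_comap, (hker x).mpr hx]
        exact L.one_mem
      have hA1 : A.map (s09_c D 1) = A := by
        ext y
        constructor
        · rintro ⟨a, ha, rfl⟩
          rwa [s09_c_one]
        · intro hy
          exact ⟨y, hy, s09_c_one D y⟩
      have h3 : (⨆ g : G, A.map (s09_c D g)) ≤ L.comap f := by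
        apply iSup_le
        intro g
        rcases s09_dich D A hmin g 1 with h4 | h4
        · rw [h4, hA1]
          exact h1
        · rw [hA1] at h4
          exact h4.trans h2
      rw [eq_top_iff]
      intro y _
      obtain ⟨x, rfl⟩ := hfs y
      have hxM : (x : G) ∈ M := by
        have h5 := x.2
        exact hDM.le h5
      obtain ⟨b, hb', hbx⟩ := hjoin x hxM
      have h6 : b = x := Subtype.ext hbx
      rw [h6] at hb'
      exact h3 hb'

end Pool.Agent.Helper75.SNF
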