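import Pool.Agent.Helper75.SNF.Helpers

set_option autoImplicit false
set_option linter.style.haveILetI false

namespace Pool.Agent.Helper75.SNF

open Subgroup


theorem s10_surj {G Q : Type} [Group G] [Group Q] (f : G →* Q) (hf : Function.Surjective f)
    (hG : NP G) : NP Q := by
  intro H hH
  have h1 : ⁅H.comap f, H.comap f⁆ = H.comap f := hG _ (hH.comap f)
  have h2 : (H.comap f).map f = H := Subgroup.map_comap_eq_self_of_surjective hf H
  have h3 := congrArg (Subgroup.map f) h1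
  rw [Subgroup.map_commutator, h2] at h3
  exact h3

theorem s10_decomp {G Q : Type} [Group G] [Group Q] (f : G →* Q) (hf : Function.Surjective f)
    (hQ : NP Q) (H : Subgroup G) (hH : H.Normal) {h : G} (hh : h ∈ H) :
    ∃ c ∈ ⁅H, H⁆, f (c⁻¹ * h) = 1 := by
  have h1 : ⁅H.map f, H.map f⁆ = H.map f := hQ _ (hH.map f hf)
  rw [← Subgroup.map_commutator] at h1
  have h2 : f h ∈ H.map f := Subgroup.mem_map_of_mem f hh
  rw [← h1] at h2
  obtain ⟨c, hc, hc2⟩ := Subgroup.mem_map.1 h2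
  exact ⟨c, hc, by rw [map_mul, map_inv, hc2, inv_mul_cancel]⟩

theorem finite_np_isFormation : IsFormation (fun G _ => Finite G ∧ NP G) where
  finite := fun _ _ h => h.1
  iso := by
    rintro G H _ _ ⟨e⟩ ⟨h1, h2⟩
    haveI := h1
    exact ⟨Finite.of_equiv _ e.toEquiv, s10_surj e.toMonoidHom e.surjective h2⟩
  quotient := by
    rintro G _ N _ ⟨h1, h2⟩
    haveI := h1
    exact ⟨inferInstance, s10_surj (QuotientGroup.mk' N) (QuotientGroup.mk'_surjective N) h2⟩
  subdirect := by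
    rintro G _ _ M N _ _ ⟨_, h1⟩ ⟨_, h2⟩
    refine ⟨inferInstance, ?_⟩
    intro H hH
    refine le_antisymm (Subgroup.commutator_le_self H) ?_
    intro x hx
    obtain ⟨g, rfl⟩ := QuotientGroup.mk'_surjective (M ⊓ N) x
    have hH' : (H.comap (QuotientGroup.mk' (M ⊓ N))).Normal := hH.comap _
    have hg : g ∈ H.comap (QuotientGroup.mk' (M ⊓ N)) := hx
    obtain ⟨c, hc, hc2⟩ := s10_decomp (QuotientGroup.mk' M) (QuotientGroup.mk'_surjective M) h1
      _ hH' hg
    have hm : c⁻¹ * g ∈ M := (QuotientGroup.eq_one_iff _).1 hc2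
    have hcH : c ∈ H.comap (QuotientGroup.mk' (M ⊓ N)) := Subgroup.commutator_le_self _ hc
    have hm' : c⁻¹ * g ∈ M ⊓ H.comap (QuotientGroup.mk' (M ⊓ N)) :=
      Subgroup.mem_inf.2 ⟨hm, (H.comap (QuotientGroup.mk' (M ⊓ N))).mul_mem ((H.comap (QuotientGroup.mk' (M ⊓ N))).inv_mem hcH) hg⟩
    obtain ⟨d, hd, hd2⟩ := s10_decomp (QuotientGroup.mk' N) (QuotientGroup.mk'_surjective N) h2
      (M ⊓ H.comap (QuotientGroup.mk' (M ⊓ N))) inferInstance hm'
    have hn : d⁻¹ * (c⁻¹ * g) ∈ N := (QuotientGroup.eq_one_iff _).1 hd2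
    have hdM : d ∈ M := (Subgroup.commutator_le_self _ hd).1
    have hn' : d⁻¹ * (c⁻¹ * g) ∈ M ⊓ N := Subgroup.mem_inf.2 ⟨M.mul_mem (M.inv_mem hdM) hm, hn⟩
    have hd' : d ∈ ⁅H.comap (QuotientGroup.mk' (M ⊓ N)), H.comap (QuotientGroup.mk' (M ⊓ N))⁆ :=
      Subgroup.commutator_mono inf_le_right inf_le_right hd
    have h5 : QuotientGroup.mk' (M ⊓ N) g = QuotientGroup.mk' (M ⊓ N) (c * d) := by
      have : QuotientGroup.mk' (M ⊓ N) (d⁻¹ * (c⁻¹ * g)) = 1 := (QuotientGroup.eq_one_iff _).2 hn'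
      rw [← mul_assoc, ← mul_inv_rev, map_mul, map_inv, inv_mul_eq_one] at this
      exact this.symm
    rw [h5]
    have h6 : QuotientGroup.mk' (M ⊓ N) (c * d) ∈ (⁅H.comap (QuotientGroup.mk' (M ⊓ N)),
        H.comap (QuotientGroup.mk' (M ⊓ N))⁆).map (QuotientGroup.mk' (M ⊓ N)) :=
      Subgroup.mem_map_of_mem _ (mul_mem hc hd')
    rw [Subgroup.map_commutator, Subgroup.map_comap_eq_self_of_surjective
      (QuotientGroup.mk'_surjective _)] at h6
    exact h6

theorem NP.extension {G : Type} [Group G] (N : Subgroup G) [N.Normal] (h1 : NP N)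
    (h2 : NP (G ⧸ N)) : NP G := by
  intro H hH
  refine le_antisymm (Subgroup.commutator_le_self H) ?_
  intro g hg
  obtain ⟨c, hc, hc2⟩ := s10_decomp (QuotientGroup.mk' N) (QuotientGroup.mk'_surjective N) h2
    H hH hg
  have hn : c⁻¹ * g ∈ N := (QuotientGroup.eq_one_iff _).1 hc2
  have hcH : c ∈ H := Subgroup.commutator_le_self _ hc
  have h3 : ⁅H.subgroupOf N, H.subgroupOf N⁆ = H.subgroupOf N := h1 _ (hH.subgroupOf N)
  have h4 : (⟨c⁻¹ * g, hn⟩ : N) ∈ H.subgroupOf N := by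
    rw [Subgroup.mem_subgroupOf]
    exact mul_mem (inv_mem hcH) hg
  rw [← h3] at h4
  have h5 := Subgroup.mem_map_of_mem N.subtype h4
  rw [Subgroup.map_commutator] at h5
  have h6 : (H.subgroupOf N).map N.subtype ≤ H := by
    rw [Subgroup.subgroupOf_map_subtype]
    exact inf_le_left
  have h7 := Subgroup.commutator_mono h6 h6 h5
  have h8 : c * (c⁻¹ * g) ∈ ⁅H, H⁆ := mul_mem hc h7
  rwa [mul_inv_cancel_left] at h8

theorem NP.of_simple {G : Type} [Group G] (h : ∀ L : Subgroup G, L.Normal → L = ⊥ ∨ L = ⊤)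
    (hna : ⁅(⊤ : Subgroup G), (⊤ : Subgroup G)⁆ ≠ ⊥) : NP G := by
  intro H hH
  rcases h H hH with rfl | rfl
  · exact Subgroup.commutator_bot_left ⊥
  · exact (h _ inferInstance).resolve_left hna

end Pool.Agent.Helper75.SNF
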