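import Pool.Agent.Helper75.SNF.Helpers
import Pool.Agent.Helper75.SNF.S10

set_option autoImplicit false
set_option linter.style.haveILetI false

namespace Pool.Agent.Helper75.SNF

open Subgroup


theorem s11_sup_inf {D : Type} [Group D] (hD : ⁅(⊤ : Subgroup D), (⊤ : Subgroup D)⁆ = ⊤)
    (K₁ K₂ Y : Subgroup D) [K₁.Normal] [K₂.Normal] [Y.Normal] (h1 : K₁ ⊔ Y = ⊤)
    (h2 : K₂ ⊔ Y = ⊤) : (K₁ ⊓ K₂) ⊔ Y = ⊤ := by
  have hM : ((K₁ ⊓ K₂) ⊔ Y).Normal := inferInstance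
  rw [eq_top_iff, ← hD, Subgroup.commutator_le]
  intro x _ y _
  have hx : x ∈ K₁ ⊔ Y := by rw [h1]; trivial
  have hy : y ∈ K₂ ⊔ Y := by rw [h2]; trivial
  obtain ⟨k₁, hk₁, y₁, hy₁, rfl⟩ := Subgroup.mem_sup_of_normal_right.1 hx
  obtain ⟨k₂, hk₂, y₂, hy₂, rfl⟩ := Subgroup.mem_sup_of_normal_right.1 hy
  rw [← QuotientGroup.eq_one_iff]
  have e1 : ((y₁ : D) : D ⧸ ((K₁ ⊓ K₂) ⊔ Y)) = 1 :=
    (QuotientGroup.eq_one_iff _).2 (Subgroup.mem_sup_right hy₁)
  have e2 : ((y₂ : D) : D ⧸ ((K₁ ⊓ K₂) ⊔ Y)) = 1 :=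
    (QuotientGroup.eq_one_iff _).2 (Subgroup.mem_sup_right hy₂)
  have e3 : ((k₁ * k₂ * k₁⁻¹ * k₂⁻¹ : D) : D ⧸ ((K₁ ⊓ K₂) ⊔ Y)) = 1 := by
    rw [QuotientGroup.eq_one_iff]
    refine Subgroup.mem_sup_left (Subgroup.mem_inf.2 ⟨?_, ?_⟩)
    · have h3 : k₂ * k₁⁻¹ * k₂⁻¹ ∈ K₁ :=
        (inferInstance : K₁.Normal).conj_mem _ (K₁.inv_mem hk₁) k₂
      have h4 : k₁ * k₂ * k₁⁻¹ * k₂⁻¹ = k₁ * (k₂ * k₁⁻¹ * k₂⁻¹) := by group
      rw [h4]
      exact K₁.mul_mem hk₁ h3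
    · have h3 : k₁ * k₂ * k₁⁻¹ ∈ K₂ := (inferInstance : K₂.Normal).conj_mem _ hk₂ k₁
      exact K₂.mul_mem h3 (K₂.inv_mem hk₂)
  rw [commutatorElement_def]
  simp only [QuotientGroup.mk_mul, QuotientGroup.mk_inv, e1, e2, mul_one] at e3 ⊢
  exact e3

theorem b_star {G : Type} [Group G] [Finite G] (D : Subgroup G) [D.Normal] {X : Type} [Group X]
    (f : D →* X) (hf : Function.Surjective f)
    (hinj : ∀ x : D, (∀ g : G, f (MulAut.conjNormal g x) = 1) → x = 1) (hNP : NP X)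
    {NX : Subgroup X} (hNX : IsLargestNormal NX) :
    ∃ S : Subgroup G, S.Normal ∧ S ≤ D ∧ S ≠ D ∧
      (∀ K : Subgroup G, K.Normal → K ≤ D → K ≠ D → K ≤ S) ∧
      (∀ Y : Subgroup D, Y.Normal → Y ≠ ⊤ → Y ⊔ S.subgroupOf D ≠ ⊤) ∧ (NX = ⊥ → S = ⊥) := by
  classical
  have hXfin : Finite X := Finite.of_surjective f hf
  have hNXn : NX.Normal := hNX.normal
  let F : G → (D →* X) := fun g => f.comp (MulAut.conjNormal g : D ≃* D).toMonoidHom
  have hF : ∀ g (x : D), F g x = f (MulAut.conjNormal g x) := fun g x => rfl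
  have hFs : ∀ g, Function.Surjective (F g) := by
    intro g
    exact hf.comp (MulAut.conjNormal g : D ≃* D).surjective
  have hD : NP D := by
    have h1 : IsSubdirectPower D X :=
      IsSubdirectPower.of_finite F hFs (fun a ha => hinj a (fun g => ha g))
    exact (finite_np_isFormation.of_subdirectPower (A := D) (B := X) ⟨hXfin, hNP⟩ h1).2
  have hDp : ⁅(⊤ : Subgroup D), (⊤ : Subgroup D)⁆ = ⊤ := hD ⊤ inferInstance
  let Yg : G → Subgroup D := fun g => NX.comap (F g)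
  have hYn : ∀ g, (Yg g).Normal := fun g => hNXn.comap (F g)
  have hYt : ∀ g, Yg g ≠ ⊤ := by
    intro g h
    apply hNX.ne_top
    rw [eq_top_iff]
    intro x _
    obtain ⟨y, rfl⟩ := hFs g x
    have : y ∈ Yg g := by rw [h]; trivial
    exact this
  -- key property
  have hP : ∀ Y : Subgroup D, Y.Normal → Y ≠ ⊤ → ∃ g, Y ≤ Yg g := by
    intro Y hY hYtop
    have h1 : ∃ g, (F g).ker ⊔ Y ≠ ⊤ := by
      by_contra hcon
      push Not at hcon
      haveI : Fintype G := Fintype.ofFinite G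
      have h2 : ∀ s : Finset G, (⨅ g ∈ s, (F g).ker) ⊔ Y = ⊤ := by
        intro s
        induction s using Finset.induction_on with
        | empty => simp
        | insert a s ha ih =>
          rw [Finset.iInf_insert]
          have hn : (⨅ g ∈ s, (F g).ker).Normal :=
            Subgroup.normal_iInf_normal (fun i => Subgroup.normal_iInf_normal (fun _ => inferInstance))
          exact s11_sup_inf hDp _ _ Y (hcon a) ih
      apply hYtop
      have h3 := h2 Finset.univ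
      have h4 : (⨅ g ∈ (Finset.univ : Finset G), (F g).ker) = ⊥ := by
        rw [eq_bot_iff]
        intro x hx
        rw [Subgroup.mem_bot]
        refine hinj x (fun g => ?_)
        have h5 : x ∈ (F g).ker := by
          rw [Subgroup.mem_iInf] at hx
          have := hx g
          rw [Subgroup.mem_iInf] at this
          exact this (Finset.mem_univ g)
        exact h5
      rw [h4, bot_sup_eq] at h3
      exact h3
    obtain ⟨g, hg⟩ := h1
    refine ⟨g, ?_⟩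
    have hLn : ((F g).ker ⊔ Y).Normal := inferInstance
    have hmap : (((F g).ker ⊔ Y).map (F g)).Normal := hLn.map (F g) (hFs g)
    have hne : ((F g).ker ⊔ Y).map (F g) ≠ ⊤ := by
      intro h
      apply hg
      rw [eq_top_iff]
      intro x _
      have hx : F g x ∈ ((F g).ker ⊔ Y).map (F g) := by rw [h]; trivial
      obtain ⟨y, hy, hxy⟩ := hx
      have h5 : x * y⁻¹ ∈ (F g).ker := by
        rw [MonoidHom.mem_ker, map_mul, map_inv, hxy, mul_inv_cancel]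
      have h6 : x = x * y⁻¹ * y := by group
      rw [h6]
      exact Subgroup.mul_mem _ (Subgroup.mem_sup_left h5) hy
    have h7 := hNX.le _ hmap hne
    intro y hy
    exact h7 ⟨y, Subgroup.mem_sup_right hy, rfl⟩
  -- the subgroup
  let S : Subgroup G := (⨅ g, Yg g).map D.subtype
  have hmemS : ∀ x : G, x ∈ S ↔ ∃ hx : x ∈ D, ∀ g, f (MulAut.conjNormal g ⟨x, hx⟩) ∈ NX := by
    intro x
    constructor
    · rintro ⟨y, hy, rfl⟩
      refine ⟨y.2, fun g => ?_⟩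
      have h1 : y ∈ ⨅ g, Yg g := hy
      rw [Subgroup.mem_iInf] at h1
      exact h1 g
    · rintro ⟨hx, h⟩
      refine ⟨⟨x, hx⟩, ?_, rfl⟩
      have h1 : (⟨x, hx⟩ : D) ∈ ⨅ g, Yg g := by
        rw [Subgroup.mem_iInf]
        exact fun g => h g
      exact h1
  have hconj : ∀ (g h x : G) (hx : x ∈ D) (hx' : h * x * h⁻¹ ∈ D),
      (MulAut.conjNormal g (⟨h * x * h⁻¹, hx'⟩ : D) : D) = MulAut.conjNormal (g * h) ⟨x, hx⟩ := by
    intro g h x hx hx'
    rw [map_mul]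
    have h1 : (⟨h * x * h⁻¹, hx'⟩ : D) = MulAut.conjNormal h (⟨x, hx⟩ : D) := by
      apply Subtype.ext
      rw [MulAut.conjNormal_apply]
    rw [h1]
    rfl
  have hDn : D.Normal := inferInstance
  refine ⟨S, ⟨?_⟩, ?_, ?_, ?_, ?_, ?_⟩
  · intro x hx h
    obtain ⟨hxD, hx2⟩ := (hmemS x).1 hx
    have hx' := hDn.conj_mem x hxD h
    refine (hmemS _).2 ⟨hx', fun g => ?_⟩
    rw [hconj g h x hxD hx']
    exact hx2 (g * h)
  · intro x hx
    exact ((hmemS x).1 hx).1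
  · intro h
    apply hNX.ne_top
    rw [eq_top_iff]
    intro y _
    obtain ⟨x, rfl⟩ := hf y
    have hx : (x : G) ∈ S := by rw [h]; exact x.2
    obtain ⟨hxD, hx2⟩ := (hmemS _).1 hx
    have h1 := hx2 1
    rw [map_one] at h1
    exact h1
  · intro K hK hKD hKne
    have hKn : (K.subgroupOf D).Normal := inferInstance
    have hKt : K.subgroupOf D ≠ ⊤ := by
      intro h
      apply hKne
      apply le_antisymm hKD
      rwa [Subgroup.subgroupOf_eq_top] at h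
    obtain ⟨g, hg⟩ := hP _ hKn hKt
    intro x hx
    refine (hmemS x).2 ⟨hKD hx, fun h => ?_⟩
    have hx1 : (g⁻¹ * h) * x * (g⁻¹ * h)⁻¹ ∈ K := hK.conj_mem x hx _
    have hx2 : (g⁻¹ * h) * x * (g⁻¹ * h)⁻¹ ∈ D := hKD hx1
    have h3 : (⟨(g⁻¹ * h) * x * (g⁻¹ * h)⁻¹, hx2⟩ : D) ∈ Yg g := hg hx1
    have h4 : f (MulAut.conjNormal g (⟨(g⁻¹ * h) * x * (g⁻¹ * h)⁻¹, hx2⟩ : D)) ∈ NX := h3
    rw [hconj g (g⁻¹ * h) x (hKD hx) hx2, mul_inv_cancel_left] at h4
    exact h4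
  · intro Y hY hYtop htop
    obtain ⟨g, hg⟩ := hP Y hY hYtop
    apply hYt g
    rw [eq_top_iff, ← htop]
    refine sup_le hg ?_
    intro x hx
    have hx' : (x : G) ∈ S := hx
    exact ((hmemS _).1 hx').2 g
  · intro h
    rw [eq_bot_iff]
    intro x hx
    obtain ⟨hxD, hx2⟩ := (hmemS x).1 hx
    have h1 : (⟨x, hxD⟩ : D) = 1 := hinj _ (fun g => by
      have := hx2 g
      rw [h, Subgroup.mem_bot] at this
      exact this)
    rw [Subgroup.mem_bot]
    exact congrArg Subtype.val h1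

end Pool.Agent.Helper75.SNF
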