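import Pool.Agent.Helper75.SNF.Helpers
import Pool.Agent.Helper75.SNF.S11

set_option autoImplicit false
set_option linter.style.haveILetI false

namespace Pool.Agent.Helper75.SNF

open Subgroup


/-- maximal normal subgroups -/
def s12_Max {G : Type} [Group G] (N : Subgroup G) : Prop :=
  N.Normal ∧ N ≠ ⊤ ∧ ∀ L : Subgroup G, L.Normal → N ≤ L → L = N ∨ L = ⊤

theorem s12_exists {G : Type} [Group G] [Finite G] (L : Subgroup G) (hL : L.Normal)
    (hLt : L ≠ ⊤) : ∃ N, s12_Max N ∧ L ≤ N := by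
  obtain ⟨N, hLN, hN⟩ :=
    (Set.toFinite {N : Subgroup G | N.Normal ∧ N ≠ ⊤}).exists_le_maximal ⟨hL, hLt⟩
  refine ⟨N, ⟨hN.prop.1, hN.prop.2, ?_⟩, hLN⟩
  intro K hK hNK
  by_cases h : K = ⊤
  · exact Or.inr h
  · exact Or.inl (le_antisymm (hN.le_of_ge ⟨hK, h⟩ hNK) hNK)

theorem s12_not_le {G : Type} [Group G] {N N' : Subgroup G} (hN : s12_Max N) (hN' : s12_Max N')
    (hne : N ≠ N') : ¬ N ≤ N' := by
  intro h
  rcases hN.2.2 N' hN'.1 h with h1 | h1
  · exact hne h1.symm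
  · exact hN'.2.1 h1

theorem s12_ne_bot {G : Type} [Group G] {N N' : Subgroup G} (hN : s12_Max N) (hN' : s12_Max N')
    (hne : N ≠ N') : N ≠ ⊥ := by
  intro h
  apply s12_not_le hN hN' hne
  rw [h]
  exact bot_le

theorem s12_inf_ne {G : Type} [Group G] {N N' : Subgroup G} (hN : s12_Max N) (hN' : s12_Max N')
    (hne : N ≠ N') : N ⊓ N' ≠ N := by
  intro h
  exact s12_not_le hN hN' hne (inf_eq_left.1 h)

theorem s12_A {G : Type} [Group G] [Finite G]
    (hstep : ∀ (D : Subgroup G) [D.Normal], D ≠ ⊥ → D ≠ ⊤ → Step D)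
    {N N' : Subgroup G} (hN : s12_Max N) (hN' : s12_Max N') (hne : N ≠ N') :
    ∀ Y : Subgroup N, Y.Normal → Y ≠ ⊤ → ∀ y ∈ Y, (y : G) ∈ N' := by
  haveI hNn : N.Normal := hN.1
  haveI hN'n : N'.Normal := hN'.1
  obtain ⟨X, _, f, NX, φ, hf, hinj, hNPX, hNX, hφ⟩ :=
    hstep N (s12_ne_bot hN hN' hne) hN.2.1
  obtain ⟨S, hSn, hSN, hSne, hSmax, hSY, _⟩ := b_star N f hf hinj hNPX hNX
  have hinfS : N ⊓ N' ≤ S :=
    hSmax _ (Subgroup.normal_inf_normal N N') inf_le_left (s12_inf_ne hN hN' hne)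
  -- `S ⊔ N' ≠ ⊤`
  have hSN' : S ≤ N' := by
    rcases hN'.2.2 (S ⊔ N') (Subgroup.sup_normal S N') le_sup_right with h | h
    · rw [← h]; exact le_sup_left
    · exfalso
      apply hSne
      apply le_antisymm hSN
      intro n hn
      have h1 : n ∈ S ⊔ N' := by rw [h]; trivial
      rw [Subgroup.mem_sup_of_normal_right] at h1
      obtain ⟨s, hs, n', hn', rfl⟩ := h1
      have h2 : n' ∈ N := by
        have := N.mul_mem (N.inv_mem (hSN hs)) hn
        simpa using this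
      exact S.mul_mem hs (hinfS ⟨h2, hn'⟩)
  intro Y hY hYt y hy
  set S' := S.subgroupOf N with hS'
  haveI hS'n : S'.Normal := hSn.subgroupOf N
  set Z := Y ⊔ S' with hZ
  have hZt : Z ≠ ⊤ := hSY Y hY hYt
  haveI hZn : Z.Normal := Subgroup.sup_normal Y S'
  let ψ : N →* (G ⧸ N') := (QuotientGroup.mk' N').comp N.subtype
  have hψ : ∀ n : N, ψ n = ((n : G) : G ⧸ N') := fun n => rfl
  have hψs : Function.Surjective ψ := by
    have hsup : N ⊔ N' = ⊤ := by
      rcases hN.2.2 (N ⊔ N') (Subgroup.sup_normal N N') le_sup_left with h | h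
      · exfalso
        apply s12_not_le hN' hN hne.symm
        rw [← h]; exact le_sup_right
      · exact h
    intro x
    obtain ⟨g, rfl⟩ := QuotientGroup.mk_surjective x
    have h1 : g ∈ N ⊔ N' := by rw [hsup]; trivial
    rw [Subgroup.mem_sup_of_normal_right] at h1
    obtain ⟨n, hn, n', hn', rfl⟩ := h1
    refine ⟨⟨n, hn⟩, ?_⟩
    rw [hψ]
    refine QuotientGroup.eq.2 ?_
    simpa using hn'
  let K : Subgroup G := (Z.map ψ).comap (QuotientGroup.mk' N')
  haveI hKm : (Z.map ψ).Normal := hZn.map ψ hψs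
  have hKn : K.Normal := hKm.comap _
  have hN'K : N' ≤ K := by
    intro x hx
    show (QuotientGroup.mk' N') x ∈ Z.map ψ
    have : (QuotientGroup.mk' N') x = 1 := (QuotientGroup.eq_one_iff x).2 hx
    rw [this]
    exact Subgroup.one_mem _
  have hZK : ∀ z ∈ Z, (z : G) ∈ K := by
    intro z hz
    show (QuotientGroup.mk' N') (z : G) ∈ Z.map ψ
    exact ⟨z, hz, rfl⟩
  rcases hN'.2.2 K hKn hN'K with h | h
  · rw [← h]
    exact hZK y (le_sup_left (a := Y) (b := S') hy)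
  · exfalso
    apply hZt
    rw [eq_top_iff]
    intro n _
    have h1 : (n : G) ∈ K := by rw [h]; trivial
    obtain ⟨z, hz, hzn⟩ : (QuotientGroup.mk' N') (n : G) ∈ Z.map ψ := h1
    have h2 : ((z : G) : G ⧸ N') = ((n : G) : G ⧸ N') := hzn
    have h3 : (z : G)⁻¹ * n ∈ N' := QuotientGroup.eq.1 h2
    have h4 : z⁻¹ * n ∈ S' := by
      rw [hS', Subgroup.mem_subgroupOf]
      exact hinfS ⟨(z⁻¹ * n).2, h3⟩
    have h5 : z * (z⁻¹ * n) ∈ Z := Z.mul_mem hz (le_sup_right (a := Y) (b := S') h4)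
    simpa using h5

theorem b_unique {G : Type} [Group G] [Finite G] (hNP : NP G) {M : Subgroup G}
    (hM : IsMonolith M)
    (hstep : ∀ (D : Subgroup G) [D.Normal], D ≠ ⊥ → D ≠ ⊤ → Step D) :
    ∃ N : Subgroup G, IsLargestNormal N := by
  by_contra hcon
  push Not at hcon
  have hbt : (⊥ : Subgroup G) ≠ ⊤ := by
    intro h
    apply hM.ne_bot
    rw [eq_bot_iff, h]
    exact le_top
  obtain ⟨N, hN, -⟩ := s12_exists (⊥ : Subgroup G) inferInstance hbt
  have hnl : ¬ IsLargestNormal N := hcon N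
  obtain ⟨L, hLn, hLt, hLN⟩ : ∃ L : Subgroup G, L.Normal ∧ L ≠ ⊤ ∧ ¬ L ≤ N := by
    by_contra h
    push Not at h
    exact hnl ⟨hN.1, hN.2.1, fun L h1 h2 => h L h1 h2⟩
  obtain ⟨N', hN', hLN'⟩ := s12_exists L hLn hLt
  have hne : N ≠ N' := by
    intro h
    exact hLN (h ▸ hLN')
  haveI hNn : N.Normal := hN.1
  haveI hN'n : N'.Normal := hN'.1
  have hNbot := s12_ne_bot hN hN' hne
  have hN'bot := s12_ne_bot hN' hN hne.symm
  obtain ⟨X, _, f, NX, φ, hf, hinj, hNPX, hNX, hφ⟩ := hstep N hNbot hN.2.1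
  obtain ⟨S, hSn, hSN, hSne, hSmax, hSY, hSbot⟩ := b_star N f hf hinj hNPX hNX
  have hinfS : N ⊓ N' ≤ S :=
    hSmax _ (Subgroup.normal_inf_normal N N') inf_le_left (s12_inf_ne hN hN' hne)
  haveI hNXn : NX.Normal := hNX.normal
  set Yg : Subgroup G := NX.comap φ with hYg
  have hYgn : Yg.Normal := hNXn.comap φ
  have hYgt : Yg ≠ ⊤ := by
    intro h
    apply hNX.ne_top
    rw [eq_top_iff]
    intro x _
    obtain ⟨g, rfl⟩ := hφ x
    have : g ∈ Yg := by rw [h]; trivial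
    exact this
  have hLYg : φ.ker ≤ Yg := by
    intro x hx
    show φ x ∈ NX
    rw [MonoidHom.mem_ker.1 hx]
    exact NX.one_mem
  have hYgP : ∀ P : Subgroup G, P.Normal → φ.ker ≤ P → P ≠ ⊤ → P ≤ Yg := by
    intro P hP hLP hPt
    have h1 : (P.map φ).Normal := hP.map φ hφ
    have h2 : P.map φ ≠ ⊤ := by
      intro h
      apply hPt
      rw [eq_top_iff]
      intro g _
      have h3 : φ g ∈ P.map φ := by rw [h]; trivial
      obtain ⟨q, hq, hqg⟩ := h3
      have h4 : q⁻¹ * g ∈ φ.ker := by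
        rw [MonoidHom.mem_ker, map_mul, map_inv, hqg, inv_mul_cancel]
      have h5 := P.mul_mem hq (hLP h4)
      simpa using h5
    intro x hx
    exact hNX.le _ h1 h2 ⟨x, hx, rfl⟩
  have hYgMax : s12_Max Yg := by
    refine ⟨hYgn, hYgt, ?_⟩
    intro P hP hYP
    by_cases h : P = ⊤
    · exact Or.inr h
    · exact Or.inl (le_antisymm (hYgP P hP (hLYg.trans hYP) h) hYP)
  obtain ⟨Y', hY', hY'ne⟩ : ∃ Y', s12_Max Y' ∧ Yg ≠ Y' := by
    by_cases h : Yg = N
    · exact ⟨N', hN', fun h' => hne (h.symm.trans h')⟩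
    · exact ⟨N, hN, h⟩
  have hLY' : ¬ φ.ker ≤ Y' := by
    intro h
    exact s12_not_le hY' hYgMax hY'ne.symm (hYgP Y' hY'.1 h hY'.2.1)
  have hLeq : φ.ker = Yg := by
    by_contra hLne
    apply hLY'
    have h1 := s12_A hstep hYgMax hY' hY'ne (φ.ker.subgroupOf Yg)
      ((inferInstance : φ.ker.Normal).subgroupOf Yg) (by
        intro h
        apply hLne
        apply le_antisymm hLYg
        exact Subgroup.subgroupOf_eq_top.1 h)
    intro x hx
    exact h1 ⟨x, hLYg hx⟩ (Subgroup.mem_subgroupOf.2 hx)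
  have hNXbot : NX = ⊥ := by
    rw [eq_bot_iff]
    intro x hx
    obtain ⟨g, rfl⟩ := hφ x
    have h1 : g ∈ Yg := hx
    rw [← hLeq, MonoidHom.mem_ker] at h1
    rw [Subgroup.mem_bot, h1]
  have hS := hSbot hNXbot
  apply hM.ne_bot
  rw [eq_bot_iff, ← hS]
  exact (le_inf (hM.le N hNn hNbot) (hM.le N' hN'n hN'bot)).trans hinfS

end Pool.Agent.Helper75.SNF
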