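import Pool.Agent.Helper75.SNF.Helpers
import Pool.Agent.Helper75.SNF.S11

set_option autoImplicit false
set_option linter.style.haveILetI false

namespace Pool.Agent.Helper75.SNF

open Subgroup


theorem s13_star {G : Type} [Group G] [Finite G]
    (hstep : ∀ (D : Subgroup G) [D.Normal], D ≠ ⊥ → D ≠ ⊤ → Step D)
    (D : Subgroup G) [D.Normal] (h1 : D ≠ ⊥) (h2 : D ≠ ⊤) :
    ∃ S : Subgroup G, S.Normal ∧ S ≤ D ∧ S ≠ D ∧
      (∀ K : Subgroup G, K.Normal → K ≤ D → K ≠ D → K ≤ S) ∧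
      (∀ Y : Subgroup D, Y.Normal → Y ≠ ⊤ → Y ⊔ S.subgroupOf D ≠ ⊤) := by
  obtain ⟨X, _, f, NX, φ, hf, hinj, hNP, hNX, hφ⟩ := hstep D h1 h2
  obtain ⟨S, a, b, c, d, e, _⟩ := b_star D f hf hinj hNP hNX
  exact ⟨S, a, b, c, d, e⟩

theorem s13_chain {G : Type} [Group G] [Finite G]
    (hstep : ∀ (D : Subgroup G) [D.Normal], D ≠ ⊥ → D ≠ ⊤ → Step D)
    {N : Subgroup G} (hN : IsLargestNormal N) (K1 K2 : Subgroup G) (h1 : K1.Normal)
    (h2 : K2.Normal) : K1 ≤ K2 ∨ K2 ≤ K1 := by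
  by_contra hcon
  rw [not_or] at hcon
  have hne1 : K1 ≠ K1 ⊔ K2 := fun h => hcon.2 (h ▸ le_sup_right)
  have hne2 : K2 ≠ K1 ⊔ K2 := fun h => hcon.1 (h ▸ le_sup_left)
  have hDn : (K1 ⊔ K2).Normal := inferInstance
  have hD0 : K1 ⊔ K2 ≠ ⊥ := by
    intro h
    rw [sup_eq_bot_iff] at h
    exact hcon.1 (h.1 ▸ bot_le)
  have key : ∃ S : Subgroup G, S ≤ K1 ⊔ K2 ∧ S ≠ K1 ⊔ K2 ∧
      (∀ K : Subgroup G, K.Normal → K ≤ K1 ⊔ K2 → K ≠ K1 ⊔ K2 → K ≤ S) := by
    by_cases hT : K1 ⊔ K2 = ⊤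
    · refine ⟨N, by rw [hT]; exact le_top, by rw [hT]; exact hN.ne_top, ?_⟩
      intro K hK _ hK2
      exact hN.le K hK (by rwa [hT] at hK2)
    · obtain ⟨S, _, b, c, d, _⟩ := s13_star hstep (K1 ⊔ K2) hD0 hT
      exact ⟨S, b, c, d⟩
  obtain ⟨S, b, c, d⟩ := key
  exact c (le_antisymm b (sup_le (d K1 h1 le_sup_left hne1) (d K2 h2 le_sup_right hne2)))

theorem s13_strict {G : Type} [Group G] [Finite G]
    (hstep : ∀ (D : Subgroup G) [D.Normal], D ≠ ⊥ → D ≠ ⊤ → Step D)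
    {N : Subgroup G} (hN : IsLargestNormal N) {X : Type} [Group X]
    (F0 : N →* X) (m : G) (hmN : m ∈ N) (hm : F0 ⟨m, hmN⟩ ≠ 1)
    (D1 D2 : Subgroup G) (h1 : D1.Normal) (h2 : D2.Normal) (hm1 : m ∈ D1) (h12 : D1 < D2)
    (h2N : D2 ≤ N) : (D1.subgroupOf N).map F0 ≠ (D2.subgroupOf N).map F0 := by
  intro heq
  have hm2 : m ∈ D2 := h12.le hm1
  have hm0 : m ≠ 1 := by
    rintro rfl
    apply hm
    exact F0.map_one
  have hD20 : D2 ≠ ⊥ := by
    intro h
    rw [h, Subgroup.mem_bot] at hm2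
    exact hm0 hm2
  have hD2T : D2 ≠ ⊤ := by
    intro h
    rw [h] at h2N
    exact hN.ne_top (top_le_iff.1 h2N)
  obtain ⟨S, hSn, hSD, hSne, hSmax, hSY⟩ := s13_star hstep D2 hD20 hD2T
  have hD1S : D1 ≤ S := hSmax D1 h1 h12.le h12.ne
  have hY : (F0.comp (Subgroup.inclusion h2N)).ker ≠ ⊤ := by
    intro h
    have : (⟨m, hm2⟩ : D2) ∈ (F0.comp (Subgroup.inclusion h2N)).ker := by
      rw [h]; exact Subgroup.mem_top _
    rw [MonoidHom.mem_ker] at this
    exact hm this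
  apply hSY _ inferInstance hY
  rw [eq_top_iff]
  rintro ⟨d, hd⟩ -
  have hdN : d ∈ N := h2N hd
  have h3 : F0 ⟨d, hdN⟩ ∈ (D2.subgroupOf N).map F0 := ⟨⟨d, hdN⟩, hd, rfl⟩
  rw [← heq] at h3
  obtain ⟨⟨s, hsN⟩, hs, hs2⟩ := h3
  have hsD1 : s ∈ D1 := hs
  have hsS : s ∈ S := hD1S hsD1
  have hsD2 : s ∈ D2 := h12.le hsD1
  have h4 : (⟨d, hd⟩ : D2) * (⟨s, hsD2⟩ : D2)⁻¹ ∈ (F0.comp (Subgroup.inclusion h2N)).ker := by
    rw [MonoidHom.mem_ker, map_mul, map_inv]
    have e1 : (F0.comp (Subgroup.inclusion h2N)) ⟨d, hd⟩ = F0 ⟨d, hdN⟩ := rfl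
    have e2 : (F0.comp (Subgroup.inclusion h2N)) ⟨s, hsD2⟩ = F0 ⟨s, hsN⟩ := rfl
    rw [e1, e2, hs2, mul_inv_cancel]
  have h5 : (⟨s, hsD2⟩ : D2) ∈ S.subgroupOf D2 := hsS
  have h6 := Subgroup.mul_mem_sup h4 h5
  rwa [inv_mul_cancel_right] at h6

theorem b_final {G : Type} [Group G] [Finite G] (hNP : NP G) {M : Subgroup G} [M.Normal]
    (hM : IsMonolith M)
    (hstep : ∀ (D : Subgroup G) [D.Normal], D ≠ ⊥ → D ≠ ⊤ → Step D)
    {N : Subgroup G} (hN : IsLargestNormal N) (hNb : N ≠ ⊥) : IsSubdirectPower N (G ⧸ M) := by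
  classical
  haveI hNn : N.Normal := hN.normal
  obtain ⟨X, _, f, NX, φ, hf, hinj, hNPX, hNX, hφ⟩ := hstep N hNb hN.ne_top
  haveI : Finite X := Finite.of_surjective f hf
  have hL0 : φ.ker ≠ ⊥ := by
    intro h
    have h1 : Function.Injective φ := (MonoidHom.ker_eq_bot_iff φ).1 h
    have h2 : Nat.card G ≤ Nat.card X := Nat.card_le_card_of_injective φ h1
    have h3 : Nat.card X ≤ Nat.card N := Nat.card_le_card_of_surjective f hf
    have h4 : N = ⊤ := Subgroup.eq_top_of_le_card N (h2.trans h3)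
    exact hN.ne_top h4
  have hML : M ≤ φ.ker := hM.le _ inferInstance hL0
  have hMN : M ≤ N := hM.le N hNn hNb
  have hLM : φ.ker = M := by
    by_contra hne
    obtain ⟨m, hmM, hm1⟩ : ∃ m ∈ M, m ≠ 1 := by
      by_contra hcon
      push Not at hcon
      apply hM.ne_bot
      rw [eq_bot_iff]
      intro x hx
      exact Subgroup.mem_bot.2 (hcon x hx)
    have hmN : m ∈ N := hMN hmM
    obtain ⟨g, hg⟩ : ∃ g : G, f (MulAut.conjNormal g ⟨m, hmN⟩) ≠ 1 := by
      by_contra hcon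
      push Not at hcon
      have := hinj ⟨m, hmN⟩ hcon
      exact hm1 (congrArg Subtype.val this)
    set F0 : N →* X := f.comp (MulAut.conjNormal g : MulAut N).toMonoidHom with hF0
    have hF0s : Function.Surjective F0 := hf.comp (MulEquiv.surjective _)
    have hF0m : F0 ⟨m, hmN⟩ ≠ 1 := hg
    have hnorm : ∀ D : Subgroup G, D.Normal → ((D.subgroupOf N).map F0).Normal := by
      intro D hD
      exact Subgroup.Normal.map inferInstance F0 hF0s
    -- the map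
    let Ψ : {D : Subgroup G // D.Normal} → {D : Subgroup G // D.Normal} := fun D =>
      if D.1 = ⊥ then ⟨⊥, inferInstance⟩ else
      if D.1 = ⊤ then ⟨M, inferInstance⟩ else
        ⟨((D.1.subgroupOf N).map F0).comap φ, (hnorm D.1 D.2).comap φ⟩
    have hΨ0 : ∀ D : {D : Subgroup G // D.Normal}, D.1 = ⊥ → (Ψ D).1 = ⊥ := by
      intro D h; simp only [Ψ, if_pos h]
    have hΨ1 : ∀ D : {D : Subgroup G // D.Normal}, D.1 = ⊤ → (Ψ D).1 = M := by
      intro D h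
      have h' : D.1 ≠ ⊥ := by
        rw [h]
        intro h2
        apply hNb
        rw [eq_bot_iff, ← h2]
        exact le_top
      simp only [Ψ, if_neg h', if_pos h]
    have hΨ2 : ∀ D : {D : Subgroup G // D.Normal}, D.1 ≠ ⊥ → D.1 ≠ ⊤ →
        (Ψ D).1 = ((D.1.subgroupOf N).map F0).comap φ := by
      intro D h h'
      simp only [Ψ, if_neg h, if_neg h']
    have hge : ∀ D : {D : Subgroup G // D.Normal}, D.1 ≠ ⊥ → D.1 ≠ ⊤ → φ.ker ≤ (Ψ D).1 := by
      intro D h h'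
      rw [hΨ2 D h h', ← MonoidHom.comap_bot]
      exact Subgroup.comap_mono bot_le
    have hne0 : ∀ D : {D : Subgroup G // D.Normal}, D.1 ≠ ⊥ → D.1 ≠ ⊤ → (Ψ D).1 ≠ ⊥ := by
      intro D h h' h2
      have := hge D h h'
      rw [h2, le_bot_iff] at this
      exact hL0 this
    have hneM : ∀ D : {D : Subgroup G // D.Normal}, D.1 ≠ ⊥ → D.1 ≠ ⊤ → (Ψ D).1 ≠ M := by
      intro D h h' h2
      have := hge D h h'
      rw [h2] at this
      exact hne (le_antisymm this hML)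
    have hneL : ∀ D : {D : Subgroup G // D.Normal}, D.1 ≠ ⊥ → D.1 ≠ ⊤ → (Ψ D).1 ≠ φ.ker := by
      intro D h h' h2
      rw [hΨ2 D h h', ← MonoidHom.comap_bot] at h2
      have h3 := Subgroup.comap_injective hφ h2
      have h4 : m ∈ D.1 := hM.le D.1 D.2 h hmM
      have h5 : F0 ⟨m, hmN⟩ ∈ (D.1.subgroupOf N).map F0 := ⟨⟨m, hmN⟩, h4, rfl⟩
      rw [h3, Subgroup.mem_bot] at h5
      exact hF0m h5
    have hinjΨ : Function.Injective Ψ := by
      have hmid : ∀ D1 D2 : {D : Subgroup G // D.Normal}, D1.1 ≠ ⊥ → D1.1 ≠ ⊤ → D2.1 ≠ ⊥ →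
          D2.1 ≠ ⊤ → (Ψ D1).1 = (Ψ D2).1 → D1.1 = D2.1 := by
        intro D1 D2 a1 b1 a2 b2 h
        rw [hΨ2 D1 a1 b1, hΨ2 D2 a2 b2] at h
        have h3 := Subgroup.comap_injective hφ h
        by_contra hne12
        rcases s13_chain hstep hN D1.1 D2.1 D1.2 D2.2 with h12 | h21
        · exact s13_strict hstep hN F0 m hmN hF0m D1.1 D2.1 D1.2 D2.2
            (hM.le D1.1 D1.2 a1 hmM) (lt_of_le_of_ne h12 hne12) (hN.le D2.1 D2.2 b2) h3
        · exact s13_strict hstep hN F0 m hmN hF0m D2.1 D1.1 D2.2 D1.2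
            (hM.le D2.1 D2.2 a2 hmM) (lt_of_le_of_ne h21 (Ne.symm hne12)) (hN.le D1.1 D1.2 b1)
            h3.symm
      intro D1 D2 h
      have h' : (Ψ D1).1 = (Ψ D2).1 := congrArg Subtype.val h
      apply Subtype.ext
      by_cases a1 : D1.1 = ⊥
      · rw [hΨ0 D1 a1] at h'
        by_cases a2 : D2.1 = ⊥
        · rw [a1, a2]
        · exfalso
          by_cases b2 : D2.1 = ⊤
          · rw [hΨ1 D2 b2] at h'
            exact hM.ne_bot h'.symm
          · exact hne0 D2 a2 b2 h'.symm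
      · by_cases b1 : D1.1 = ⊤
        · rw [hΨ1 D1 b1] at h'
          by_cases a2 : D2.1 = ⊥
          · exfalso
            rw [hΨ0 D2 a2] at h'
            exact hM.ne_bot h'
          · by_cases b2 : D2.1 = ⊤
            · rw [b1, b2]
            · exfalso
              exact hneM D2 a2 b2 h'.symm
        · by_cases a2 : D2.1 = ⊥
          · exfalso
            rw [hΨ0 D2 a2] at h'
            exact hne0 D1 a1 b1 h'
          · by_cases b2 : D2.1 = ⊤
            · exfalso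
              rw [hΨ1 D2 b2] at h'
              exact hneM D1 a1 b1 h'
            · exact hmid D1 D2 a1 b1 a2 b2 h'
    have hsurj : Function.Surjective Ψ := Finite.injective_iff_surjective.1 hinjΨ
    obtain ⟨D, hD⟩ := hsurj ⟨φ.ker, inferInstance⟩
    have hD' : (Ψ D).1 = φ.ker := congrArg Subtype.val hD
    by_cases a : D.1 = ⊥
    · rw [hΨ0 D a] at hD'
      exact hL0 hD'.symm
    · by_cases b : D.1 = ⊤
      · rw [hΨ1 D b] at hD'
        exact hne hD'.symm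
      · exact hneL D a b hD'
  -- conclusion
  let e : (G ⧸ M) ≃* X :=
    (QuotientGroup.quotientMulEquivOfEq hLM.symm).trans
      (QuotientGroup.quotientKerEquivOfSurjective φ hφ)
  refine IsSubdirectPower.of_finite (ι := G)
    (fun g => e.symm.toMonoidHom.comp (f.comp (MulAut.conjNormal g : MulAut N).toMonoidHom)) ?_ ?_
  · intro g
    exact e.symm.surjective.comp (hf.comp (MulEquiv.surjective _))
  · intro a ha
    apply hinj a
    intro g
    have := ha g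
    have h2 : e.symm (f (MulAut.conjNormal g a)) = 1 := this
    exact (MulEquiv.map_eq_one_iff e.symm).1 h2

end Pool.Agent.Helper75.SNF
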