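import Pool.Agent.Helper75.SNF.Helpers
import Pool.Agent.Helper75.SNF.S10

set_option autoImplicit false
set_option linter.style.haveILetI false

namespace Pool.Agent.Helper75.SNF

open Subgroup


theorem s14_it_mono {G : Type} [Group G] {K L : Subgroup G} (h : K ≤ L) (n : ℕ) :
    it K n ≤ it L n := by
  induction n with
  | zero => exact h
  | succ n ih => exact Subgroup.commutator_mono ih le_rfl

theorem s14_it_normal {G : Type} [Group G] (K : Subgroup G) (hK : K.Normal) (n : ℕ) :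
    (it K n).Normal := by
  induction n with
  | zero => exact hK
  | succ n ih =>
    haveI := ih
    exact Subgroup.commutator_normal _ _

theorem s14_it_anti {G : Type} [Group G] (K : Subgroup G) (hK : K.Normal) (n m : ℕ)
    (h : n ≤ m) : it K m ≤ it K n := by
  induction m, h using Nat.le_induction with
  | base => exact le_rfl
  | succ m _ ih =>
    haveI := s14_it_normal K hK m
    exact (Subgroup.commutator_le_left _ _).trans ih

theorem s14_it_map {G H : Type} [Group G] [Group H] (f : G →* H) (hf : Function.Surjective f)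
    (K : Subgroup G) (n : ℕ) : (it K n).map f = it (K.map f) n := by
  induction n with
  | zero => rfl
  | succ n ih =>
    show (⁅it K n, (⊤ : Subgroup G)⁆).map f = ⁅it (K.map f) n, (⊤ : Subgroup H)⁆
    rw [Subgroup.map_commutator, ih, Subgroup.map_top_of_surjective f hf]

theorem s14_surj {X Q : Type} [Group X] [Group Q] (h : QC X) (f : X →* Q)
    (hf : Function.Surjective f) : QC Q := by
  obtain ⟨hfin, K, hK, ⟨n, hn⟩, hnp⟩ := h
  haveI := hfin
  haveI hK' : (K.map f).Normal := hK.map f hf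
  refine ⟨Finite.of_surjective f hf, K.map f, hK', ⟨n, ?_⟩, ?_⟩
  · rw [← s14_it_map f hf, hn, Subgroup.map_bot]
  · have hfin2 : Finite (X ⧸ K) := inferInstance
    let φ : (X ⧸ K) →* (Q ⧸ K.map f) := QuotientGroup.map K (K.map f) f
      (fun x hx => Subgroup.mem_map_of_mem f hx)
    have hφ : Function.Surjective φ := by
      intro y
      obtain ⟨q, rfl⟩ := QuotientGroup.mk_surjective y
      obtain ⟨x, rfl⟩ := hf q
      exact ⟨(x : X ⧸ K), rfl⟩
    exact (finite_np_isFormation.surj ⟨hfin2, hnp⟩ φ hφ).2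

/-- auxiliary: the preimage in `G` of the hypercentral part of `G ⧸ M` -/
theorem s14_pull {G : Type} [Group G] (M : Subgroup G) [M.Normal] (K' : Subgroup (G ⧸ M))
    (n : ℕ) (hn : it K' n = ⊥) : it (K'.comap (QuotientGroup.mk' M)) n ≤ M := by
  have h1 := s14_it_map (QuotientGroup.mk' M) (QuotientGroup.mk'_surjective M)
    (K'.comap (QuotientGroup.mk' M)) n
  rw [Subgroup.map_comap_eq_self_of_surjective (QuotientGroup.mk'_surjective M), hn,
    Subgroup.map_eq_bot_iff, QuotientGroup.ker_mk'] at h1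
  exact h1

theorem s14_subdirect (G : Type) [Group G] [Finite G] (M N : Subgroup G) [M.Normal] [N.Normal]
    (hM : QC (G ⧸ M)) (hN : QC (G ⧸ N)) : QC (G ⧸ (M ⊓ N)) := by
  obtain ⟨_, K₁, hK₁, ⟨n₁, hn₁⟩, hnp₁⟩ := hM
  obtain ⟨_, K₂, hK₂, ⟨n₂, hn₂⟩, hnp₂⟩ := hN
  haveI := hK₁
  haveI := hK₂
  let L₁ : Subgroup G := K₁.comap (QuotientGroup.mk' M)
  let L₂ : Subgroup G := K₂.comap (QuotientGroup.mk' N)
  haveI hL₁ : L₁.Normal := hK₁.comap _
  haveI hL₂ : L₂.Normal := hK₂.comap _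
  let L : Subgroup G := L₁ ⊓ L₂
  haveI hL : L.Normal := inferInstance
  let π : G →* (G ⧸ (M ⊓ N)) := QuotientGroup.mk' (M ⊓ N)
  have hπ : Function.Surjective π := QuotientGroup.mk'_surjective _
  have hb₁ : it K₁ (max n₁ n₂) = ⊥ := by
    have := s14_it_anti K₁ hK₁ n₁ (max n₁ n₂) (le_max_left _ _)
    rw [hn₁] at this
    exact le_bot_iff.mp this
  have hb₂ : it K₂ (max n₁ n₂) = ⊥ := by
    have := s14_it_anti K₂ hK₂ n₂ (max n₁ n₂) (le_max_right _ _)
    rw [hn₂] at this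
    exact le_bot_iff.mp this
  have hK' : (L.map π).Normal := hL.map π hπ
  haveI := hK'
  refine ⟨inferInstance, L.map π, hK', ⟨max n₁ n₂, ?_⟩, ?_⟩
  · rw [← s14_it_map π hπ, Subgroup.map_eq_bot_iff]
    have e : π.ker = M ⊓ N := QuotientGroup.ker_mk' _
    rw [e]
    refine le_inf ?_ ?_
    · exact (s14_it_mono inf_le_left _).trans (s14_pull M K₁ _ hb₁)
    · exact (s14_it_mono inf_le_right _).trans (s14_pull N K₂ _ hb₂)
  · -- the quotient is a subdirect product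
    let g₁ : G →* ((G ⧸ M) ⧸ K₁) := (QuotientGroup.mk' K₁).comp (QuotientGroup.mk' M)
    let g₂ : G →* ((G ⧸ N) ⧸ K₂) := (QuotientGroup.mk' K₂).comp (QuotientGroup.mk' N)
    have k₁ : ∀ g : G, g₁ g = 1 ↔ g ∈ L₁ := by
      intro g
      show ((QuotientGroup.mk' M g : G ⧸ M) : (G ⧸ M) ⧸ K₁) = 1 ↔ _
      rw [QuotientGroup.eq_one_iff]
      rfl
    have k₂ : ∀ g : G, g₂ g = 1 ↔ g ∈ L₂ := by
      intro g
      show ((QuotientGroup.mk' N g : G ⧸ N) : (G ⧸ N) ⧸ K₂) = 1 ↔ _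
      rw [QuotientGroup.eq_one_iff]
      rfl
    have hML : ∀ g ∈ M ⊓ N, g₁ g = 1 := by
      intro g hg
      have h1 : QuotientGroup.mk' M g = 1 := (QuotientGroup.eq_one_iff g).2 hg.1
      show QuotientGroup.mk' K₁ (QuotientGroup.mk' M g) = 1
      rw [h1, map_one]
    have hNL : ∀ g ∈ M ⊓ N, g₂ g = 1 := by
      intro g hg
      have h1 : QuotientGroup.mk' N g = 1 := (QuotientGroup.eq_one_iff g).2 hg.2
      show QuotientGroup.mk' K₂ (QuotientGroup.mk' N g) = 1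
      rw [h1, map_one]
    let φ₁ : (G ⧸ (M ⊓ N)) →* ((G ⧸ M) ⧸ K₁) := QuotientGroup.lift (M ⊓ N) g₁ hML
    let φ₂ : (G ⧸ (M ⊓ N)) →* ((G ⧸ N) ⧸ K₂) := QuotientGroup.lift (M ⊓ N) g₂ hNL
    have hφ₁ : ∀ g : G, φ₁ (π g) = g₁ g := fun g => rfl
    have hφ₂ : ∀ g : G, φ₂ (π g) = g₂ g := fun g => rfl
    let ψ₁ : ((G ⧸ (M ⊓ N)) ⧸ L.map π) →* ((G ⧸ M) ⧸ K₁) := QuotientGroup.lift (L.map π) φ₁ (by
      rintro _ ⟨g, hg, rfl⟩
      rw [MonoidHom.mem_ker, hφ₁, k₁]
      exact hg.1)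
    let ψ₂ : ((G ⧸ (M ⊓ N)) ⧸ L.map π) →* ((G ⧸ N) ⧸ K₂) := QuotientGroup.lift (L.map π) φ₂ (by
      rintro _ ⟨g, hg, rfl⟩
      rw [MonoidHom.mem_ker, hφ₂, k₂]
      exact hg.2)
    have hfin₁ : Finite ((G ⧸ M) ⧸ K₁) := inferInstance
    have hfin₂ : Finite ((G ⧸ N) ⧸ K₂) := inferInstance
    have hs₁ : Function.Surjective ψ₁ := by
      intro y
      obtain ⟨z, rfl⟩ := QuotientGroup.mk_surjective y
      obtain ⟨g, rfl⟩ := QuotientGroup.mk_surjective z
      exact ⟨((π g : G ⧸ (M ⊓ N)) : (G ⧸ (M ⊓ N)) ⧸ L.map π), rfl⟩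
    have hs₂ : Function.Surjective ψ₂ := by
      intro y
      obtain ⟨z, rfl⟩ := QuotientGroup.mk_surjective y
      obtain ⟨g, rfl⟩ := QuotientGroup.mk_surjective z
      exact ⟨((π g : G ⧸ (M ⊓ N)) : (G ⧸ (M ⊓ N)) ⧸ L.map π), rfl⟩
    refine (finite_np_isFormation.subdirect_hom ψ₁ ψ₂ hs₁ hs₂ ⟨hfin₁, hnp₁⟩ ⟨hfin₂, hnp₂⟩ ?_).2
    intro x h1 h2
    obtain ⟨y, rfl⟩ := QuotientGroup.mk_surjective x
    obtain ⟨g, rfl⟩ := QuotientGroup.mk_surjective y
    have h3 : g₁ g = 1 := h1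
    have h4 : g₂ g = 1 := h2
    rw [k₁] at h3
    rw [k₂] at h4
    rw [QuotientGroup.eq_one_iff]
    exact ⟨g, ⟨h3, h4⟩, rfl⟩

theorem qc_isFormation : IsFormation QC where
  finite := fun G _ h => h.1
  iso := by
    rintro G H _ _ ⟨e⟩ h
    exact s14_surj h e.toMonoidHom e.surjective
  quotient := fun G _ N _ h => s14_surj h (QuotientGroup.mk' N) (QuotientGroup.mk'_surjective N)
  subdirect := fun G _ _ M N _ _ hM hN => s14_subdirect G M N hM hN

end Pool.Agent.Helper75.SNF
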