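import Pool.Agent.Helper75.SNF.Helpers
import Pool.Agent.Helper75.SNF.S10

set_option autoImplicit false
set_option linter.style.haveILetI false

namespace Pool.Agent.Helper75.SNF

open Subgroup


theorem q_central {G : Type} [Group G] [Finite G] (W : Subgroup G) [W.Normal]
    (hW : ⁅W, (⊤ : Subgroup G)⁆ = ⊥) (h : QC (G ⧸ W)) : QC G := by
  obtain ⟨_, K', hK'n, ⟨n, hn⟩, hNP⟩ := h
  have hmap : (K'.comap (QuotientGroup.mk' W)).map (QuotientGroup.mk' W) = K' :=
    Subgroup.map_comap_eq_self_of_surjective (QuotientGroup.mk'_surjective W) K'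
  have hit : ∀ m, (it (K'.comap (QuotientGroup.mk' W)) m).map (QuotientGroup.mk' W) = it K' m := by
    intro m
    induction m with
    | zero => exact hmap
    | succ m ih =>
      show (⁅it (K'.comap (QuotientGroup.mk' W)) m, (⊤ : Subgroup G)⁆).map (QuotientGroup.mk' W) =
        ⁅it K' m, (⊤ : Subgroup (G ⧸ W))⁆
      rw [Subgroup.map_commutator, ih, Subgroup.map_top_of_surjective _
        (QuotientGroup.mk'_surjective W)]
  haveI hKn : (K'.comap (QuotientGroup.mk' W)).Normal := hK'n.comap _
  refine ⟨inferInstance, K'.comap (QuotientGroup.mk' W), hKn, ⟨n + 1, ?_⟩, ?_⟩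
  · have h1 : it (K'.comap (QuotientGroup.mk' W)) n ≤ W := by
      have h2 := hit n
      rw [hn] at h2
      intro x hx
      have h3 : (QuotientGroup.mk' W) x ∈ (⊥ : Subgroup (G ⧸ W)) := by
        rw [← h2]
        exact Subgroup.mem_map_of_mem _ hx
      exact (QuotientGroup.eq_one_iff x).1 (Subgroup.mem_bot.1 h3)
    show ⁅it (K'.comap (QuotientGroup.mk' W)) n, (⊤ : Subgroup G)⁆ = ⊥
    rw [eq_bot_iff, ← hW]
    exact Subgroup.commutator_mono h1 le_rfl
  · let ψ : ((G ⧸ W) ⧸ K') →* (G ⧸ K'.comap (QuotientGroup.mk' W)) :=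
      QuotientGroup.lift K' (QuotientGroup.lift W (QuotientGroup.mk' (K'.comap (QuotientGroup.mk' W)))
        (fun x hx => by
          have h1 : (QuotientGroup.mk' W) x = 1 := (QuotientGroup.eq_one_iff x).2 hx
          refine (QuotientGroup.eq_one_iff x).2 ?_
          show (QuotientGroup.mk' W) x ∈ K'
          rw [h1]
          exact K'.one_mem)) (fun y hy => by
          induction y using QuotientGroup.induction_on with
          | H x => exact (QuotientGroup.eq_one_iff x).2 hy)
    have hψ : Function.Surjective ψ := by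
      intro y
      induction y using QuotientGroup.induction_on with
      | H x => exact ⟨((x : G ⧸ W) : (G ⧸ W) ⧸ K'), rfl⟩
    haveI : Finite ((G ⧸ W) ⧸ K') := inferInstance
    exact (finite_np_isFormation.surj (G := (G ⧸ W) ⧸ K') ⟨inferInstance, hNP⟩ ψ hψ).2

end Pool.Agent.Helper75.SNF
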