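import Pool.Agent.Helper75.SNF.Helpers
import Pool.Agent.Helper75.SNF.S10

set_option autoImplicit false
set_option linter.style.haveILetI false

namespace Pool.Agent.Helper75.SNF

open Subgroup


theorem s16_it {G : Type} [Group G] (hc : Subgroup.center G = ⊥) (K : Subgroup G) :
    ∀ n, it K n = ⊥ → K = ⊥ := by
  intro n
  induction n with
  | zero => intro h; exact h
  | succ n ih =>
    intro h
    apply ih
    have h1 : ⁅it K n, (⊤ : Subgroup G)⁆ = ⊥ := h
    rw [Subgroup.commutator_eq_bot_iff_le_centralizer] at h1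
    rw [eq_bot_iff, ← hc]
    intro x hx
    have h2 := h1 hx
    rw [Subgroup.mem_centralizer_iff] at h2
    rw [Subgroup.mem_center_iff]
    intro g
    exact h2 g (Subgroup.mem_top g)

theorem q_nonab {G : Type} [Group G] [Finite G] {M N : Subgroup G} (hM : IsMonolith M)
    (hna : ⁅M, M⁆ ≠ ⊥) (hp : IsPerfect G) (hN : IsLargestNormal N) (hNb : N ≠ ⊥) (h : QC N) :
    NP G := by
  haveI := hN.normal
  haveI := hM.normal
  have hMN : M ≤ N := hM.le N hN.normal hNb
  have hC : Subgroup.centralizer (M : Set G) = ⊥ := by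
    by_contra hne
    have h1 := hM.le (Subgroup.centralizer (M : Set G)) inferInstance hne
    exact hna (Subgroup.commutator_eq_bot_iff_le_centralizer.2 h1)
  have hcN : Subgroup.center N = ⊥ := by
    rw [eq_bot_iff]
    intro z hz
    rw [Subgroup.mem_center_iff] at hz
    have h1 : (z : G) ∈ Subgroup.centralizer (M : Set G) := by
      rw [Subgroup.mem_centralizer_iff]
      intro m hm
      exact congrArg Subtype.val (hz ⟨m, hMN hm⟩)
    rw [hC, Subgroup.mem_bot] at h1
    rw [Subgroup.mem_bot]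
    exact Subtype.ext h1
  obtain ⟨hfin, K, hK, ⟨n, hn⟩, hNP⟩ := h
  have hKb : K = ⊥ := s16_it hcN K n hn
  subst hKb
  have hNPN : NP N :=
    (finite_np_isFormation.iso (N ⧸ (⊥ : Subgroup N)) N ⟨QuotientGroup.quotientBot⟩
      ⟨inferInstance, hNP⟩).2
  refine NP.extension N hNPN ?_
  refine NP.of_simple (fun L hL => ?_) ?_
  · haveI := hL
    have hL' : (L.comap (QuotientGroup.mk' N)).Normal := inferInstance
    by_cases htop : L.comap (QuotientGroup.mk' N) = ⊤
    · right
      rw [eq_top_iff]
      intro x _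
      obtain ⟨g, rfl⟩ := QuotientGroup.mk'_surjective N x
      have : g ∈ L.comap (QuotientGroup.mk' N) := by rw [htop]; trivial
      exact this
    · left
      have h1 := hN.le _ hL' htop
      rw [eq_bot_iff]
      intro x hx
      obtain ⟨g, rfl⟩ := QuotientGroup.mk'_surjective N x
      have h2 : g ∈ N := h1 hx
      rw [Subgroup.mem_bot]
      exact (QuotientGroup.eq_one_iff g).2 h2
  · intro hbot
    have h1 : (⁅(⊤ : Subgroup G), (⊤ : Subgroup G)⁆).map (QuotientGroup.mk' N) =
        ⁅(⊤ : Subgroup (G ⧸ N)), (⊤ : Subgroup (G ⧸ N))⁆ := by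
      rw [Subgroup.map_commutator, Subgroup.map_top_of_surjective _ (QuotientGroup.mk'_surjective N)]
    have h2 : ⁅(⊤ : Subgroup G), (⊤ : Subgroup G)⁆ = ⊤ := hp
    rw [h2, hbot, Subgroup.map_top_of_surjective _ (QuotientGroup.mk'_surjective N)] at h1
    apply hN.ne_top
    rw [eq_top_iff]
    intro g _
    have h3 : (g : G ⧸ N) ∈ (⊤ : Subgroup (G ⧸ N)) := trivial
    rw [h1, Subgroup.mem_bot] at h3
    exact (QuotientGroup.eq_one_iff g).1 h3

end Pool.Agent.Helper75.SNF
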