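import Pool.Agent.Helper75.SNF.Helpers
import Pool.Agent.Helper75.SNF.S10
import Pool.Agent.Helper75.SNF.S14
import Pool.Agent.Helper75.SNF.S15
import Pool.Agent.Helper75.SNF.S16

set_option autoImplicit false
set_option linter.style.haveILetI false

namespace Pool.Agent.Helper75.SNF

open Subgroup


theorem s17_qc_of_np {G : Type} [Group G] [Finite G] (h : NP G) : QC G := by
  refine ⟨inferInstance, ⊥, inferInstance, ⟨0, rfl⟩, ?_⟩
  intro H hH
  have hs : Function.Surjective (QuotientGroup.mk' (⊥ : Subgroup G)) :=
    QuotientGroup.mk'_surjective _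
  have h1 : (H.comap (QuotientGroup.mk' (⊥ : Subgroup G))).map
      (QuotientGroup.mk' (⊥ : Subgroup G)) = H :=
    Subgroup.map_comap_eq_self_of_surjective hs H
  have h2 : (H.comap (QuotientGroup.mk' (⊥ : Subgroup G))).Normal := hH.comap _
  have h3 := h _ h2
  calc ⁅H, H⁆ = ⁅(H.comap (QuotientGroup.mk' (⊥ : Subgroup G))).map
        (QuotientGroup.mk' (⊥ : Subgroup G)),
        (H.comap (QuotientGroup.mk' (⊥ : Subgroup G))).map
        (QuotientGroup.mk' (⊥ : Subgroup G))⁆ := by rw [h1]
    _ = (⁅H.comap (QuotientGroup.mk' (⊥ : Subgroup G)),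
        H.comap (QuotientGroup.mk' (⊥ : Subgroup G))⁆).map
        (QuotientGroup.mk' (⊥ : Subgroup G)) := (Subgroup.map_commutator _ _ _).symm
    _ = H := by rw [h3, h1]

theorem s17_card_lt {G : Type} [Group G] [Finite G] (W : Subgroup G) [W.Normal] (hW : W ≠ ⊥) :
    Nat.card (G ⧸ W) < Nat.card G := by
  have h1 := Subgroup.card_eq_card_quotient_mul_card_subgroup W
  have h2 : 1 < Nat.card W := by
    rw [Subgroup.one_lt_card_iff_ne_bot]
    exact hW
  have h3 : 0 < Nat.card (G ⧸ W) := Nat.card_pos
  rw [h1]
  nlinarith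

theorem s17_main {F : GroupClass} (hF : IsFormation F) (h1 : Cond1 F) (h2 : Cond2 F) (n : ℕ) :
    ∀ (G : Type) [Group G], Nat.card G ≤ n → F G → QC G := by
  induction n with
  | zero =>
    intro G _ hn hG
    haveI := hF.finite G hG
    have : 0 < Nat.card G := Nat.card_pos
    omega
  | succ n ih =>
    intro G _ hn hG
    haveI := hF.finite G hG
    rcases subsingleton_or_nontrivial G with hsub | hnon
    · apply s17_qc_of_np
      intro H _
      ext x
      rw [Subsingleton.elim x 1]
      exact ⟨fun _ => H.one_mem, fun _ => Subgroup.one_mem _⟩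
    · have hquot : ∀ (W : Subgroup G) [W.Normal], W ≠ ⊥ → QC (G ⧸ W) := by
        intro W _ hW
        refine ih (G ⧸ W) ?_ (hF.quotient G W hG)
        have := s17_card_lt W hW
        omega
      by_cases hW : ∃ W1 W2 : Subgroup G, W1.Normal ∧ W2.Normal ∧ W1 ≠ ⊥ ∧ W2 ≠ ⊥ ∧
          W1 ⊓ W2 = ⊥
      · obtain ⟨W1, W2, hn1, hn2, hb1, hb2, hinf⟩ := hW
        refine qc_isFormation.subdirect_hom (QuotientGroup.mk' W1) (QuotientGroup.mk' W2)
          (QuotientGroup.mk'_surjective _) (QuotientGroup.mk'_surjective _) (hquot W1 hb1)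
          (hquot W2 hb2) ?_
        intro x hx1 hx2
        have e1 : x ∈ W1 := (QuotientGroup.eq_one_iff (N := W1) x).1 hx1
        have e2 : x ∈ W2 := (QuotientGroup.eq_one_iff (N := W2) x).1 hx2
        have : x ∈ W1 ⊓ W2 := Subgroup.mem_inf.2 ⟨e1, e2⟩
        rw [hinf] at this
        exact Subgroup.mem_bot.1 this
      · push Not at hW
        obtain ⟨M, hM⟩ := Set.Finite.exists_minimal
          (Set.toFinite {W : Subgroup G | W.Normal ∧ W ≠ ⊥})
          ⟨⊤, (inferInstance : (⊤ : Subgroup G).Normal), top_ne_bot⟩
        obtain ⟨⟨hMn, hMb⟩, hMmin⟩ := hM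
        haveI := hMn
        have hmono : IsMonolith M := by
          refine ⟨hMn, hMb, ?_⟩
          intro N hN hNb
          haveI := hN
          have hne := hW M N hMn hN hMb hNb
          have := hMmin (y := M ⊓ N) ⟨(inferInstance : (M ⊓ N).Normal), hne⟩ inf_le_left
          exact le_trans this inf_le_right
        by_cases hab : ⁅M, M⁆ = ⊥
        · have hcf : IsChiefFactor M ⊥ := by
            refine ⟨hMn, inferInstance, bot_lt_iff_ne_bot.2 hMb, ?_⟩
            intro L hL _ hLM
            by_cases hLb : L = ⊥
            · left; exact hLb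
            · right
              exact le_antisymm hLM (hmono.le L hL hLb)
          have h3 := h1 G hG M ⊥ hcf hab.le
          exact q_central M (le_bot_iff.1 h3) (hquot M hMb)
        · obtain ⟨hp, N, hN, hNN⟩ := h2 G hG M hmono hab
          by_cases hNb : N = ⊥
          · apply s17_qc_of_np
            refine NP.of_simple ?_ ?_
            · intro L hL
              by_cases hLt : L = ⊤
              · right; exact hLt
              · left
                have := hN.le L hL hLt
                rw [hNb] at this
                exact le_bot_iff.1 this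
            · have h4 : ⁅(⊤ : Subgroup G), (⊤ : Subgroup G)⁆ = ⊤ := hp
              rw [h4]
              exact top_ne_bot
          · rcases hNN with h5 | h5
            · exact absurd h5 hNb
            · have h6 : QC N := qc_isFormation.of_subdirectPower (hquot M hMb) h5
              exact s17_qc_of_np (q_nonab hmono hab hp hN hNb h6)

theorem qc_of {F : GroupClass} (hF : IsFormation F) (h1 : Cond1 F) (h2 : Cond2 F)
    (G : Type) [Group G] (hG : F G) : QC G :=
  s17_main hF h1 h2 (Nat.card G) G le_rfl hG

end Pool.Agent.Helper75.SNF
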