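import Pool.Agent.Helper75.SNF.Helpers
import Pool.Agent.Helper75.SNF.S10

set_option autoImplicit false
set_option linter.style.haveILetI false

namespace Pool.Agent.Helper75.SNF

open Subgroup


theorem s18_stab {G : Type} [Group G] [Finite G] :
    ∃ i, derivedSeries G (i + 1) = derivedSeries G i := by
  by_contra hcon
  push Not at hcon
  have h1 : StrictAnti (derivedSeries G) := strictAnti_nat_of_succ_lt (fun n =>
    lt_of_le_of_ne (derivedSeries_antitone G (Nat.le_succ n)) (hcon n))
  exact not_injective_infinite_finite _ h1.injective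

theorem s18_perfect {G : Type} [Group G] (E : Subgroup G) (h : ⁅E, E⁆ = E) : IsPerfect E := by
  unfold IsPerfect
  apply Subgroup.map_injective E.subtype_injective
  rw [commutator_def, Subgroup.map_commutator, ← MonoidHom.range_eq_map, Subgroup.range_subtype, h]

theorem s18_derived_top {X : Type} [Group X] (h : NP X) (i : ℕ) : derivedSeries X i = ⊤ := by
  induction i with
  | zero => rfl
  | succ n ih => rw [derivedSeries_succ, ih]; exact h ⊤ inferInstance

theorem s18_it_normal {G : Type} [Group G] (K : Subgroup G) (hK : K.Normal) (n : ℕ) :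
    (it K n).Normal := by
  induction n with
  | zero => exact hK
  | succ n ih =>
    haveI := ih
    exact Subgroup.commutator_normal _ _

theorem s18_lcs_le {G : Type} [Group G] (K : Subgroup G) (n : ℕ) :
    K.lowerCentralSeries n ≤ it K n := by
  induction n with
  | zero => exact le_rfl
  | succ n ih => exact Subgroup.commutator_mono ih le_top

theorem qc_split {G : Type} [Group G] (h : QC G) : ∃ (E K : Subgroup G) (_ : K.Normal),
    E.Normal ∧ E ⊔ K = ⊤ ∧ ⁅E, K⁆ = ⊥ ∧ IsPerfect E ∧ Group.IsNilpotent K ∧ NP (G ⧸ K) := by
  obtain ⟨hfin, K, hK, ⟨n, hn⟩, hNP⟩ := h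
  haveI := hfin
  haveI := hK
  obtain ⟨i, hi⟩ := s18_stab (G := G)
  have hE : ⁅derivedSeries G i, derivedSeries G i⁆ = derivedSeries G i := by
    rw [← derivedSeries_succ]; exact hi
  have hEn : (derivedSeries G i).Normal := derivedSeries_normal G i
  refine ⟨derivedSeries G i, K, hK, hEn, ?_, ?_, s18_perfect _ hE, ?_, hNP⟩
  · have h1 := map_derivedSeries_eq (f := QuotientGroup.mk' K) (QuotientGroup.mk'_surjective K) i
    rw [s18_derived_top hNP i] at h1
    have h2 := QuotientGroup.comap_map_mk' K (derivedSeries G i)
    rw [h1, Subgroup.comap_top] at h2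
    rw [sup_comm]; exact h2.symm
  · have key : ∀ m, m ≤ n → ⁅derivedSeries G i, it K (n - m)⁆ = ⊥ := by
      intro m
      induction m with
      | zero =>
        intro _
        rw [Nat.sub_zero, hn, Subgroup.commutator_bot_right]
      | succ m ih =>
        intro hm
        have ih' := ih (by omega)
        have e : n - m = (n - (m + 1)) + 1 := by omega
        rw [e] at ih'
        set j := n - (m + 1) with hj
        have h1 : ⁅it K j, derivedSeries G i⁆ ≤ it K (j + 1) :=
          Subgroup.commutator_mono le_rfl le_top
        have h2 : ⁅⁅it K j, derivedSeries G i⁆, derivedSeries G i⁆ = ⊥ := by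
          rw [eq_bot_iff, ← ih', Subgroup.commutator_comm (derivedSeries G i)]
          exact Subgroup.commutator_mono h1 le_rfl
        have h3 : ⁅⁅derivedSeries G i, it K j⁆, derivedSeries G i⁆ = ⊥ := by
          rw [Subgroup.commutator_comm (derivedSeries G i) (it K j)]; exact h2
        have h4 := Subgroup.commutator_commutator_eq_bot_of_rotate h3 h2
        rwa [hE] at h4
    have := key n le_rfl
    rwa [Nat.sub_self] at this
  · rw [Subgroup.isNilpotent_iff_lowerCentralSeries]
    exact ⟨n, eq_bot_iff.2 ((s18_lcs_le K n).trans hn.le)⟩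

end Pool.Agent.Helper75.SNF
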