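import Pool.Agent.Helper75.SNF.Helpers

set_option autoImplicit false
set_option linter.style.haveILetI false

namespace Pool.Agent.Helper75.SNF

open Subgroup


theorem v_inter {Q : Type} [Group Q] [Finite Q] (hNP : NP Q) (I : Subgroup Q)
    (hI : ∀ K : Subgroup Q, ∀ _ : K.Normal,
      (∃ M : Subgroup (Q ⧸ K), IsMonolith M ∧ ⁅M, M⁆ ≠ ⊥) → I ≤ K) (hIn : I.Normal) : I = ⊥ := by
  by_contra hne
  obtain ⟨H, hH⟩ := Set.Finite.exists_minimal
    (s := {H : Subgroup Q | H.Normal ∧ H ≠ ⊥ ∧ H ≤ I}) (Set.toFinite _) ⟨I, hIn, hne, le_rfl⟩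
  obtain ⟨hHn, hHb, hHI⟩ := hH.prop
  haveI := hHn
  have hHC : ¬ H ≤ Subgroup.centralizer (H : Set Q) := by
    intro h1
    have h2 : ⁅H, H⁆ = ⊥ := Subgroup.commutator_eq_bot_iff_le_centralizer.mpr h1
    rw [hNP H hHn] at h2
    exact hHb h2
  set C := Subgroup.centralizer (H : Set Q) with hC
  haveI hCn : C.Normal := by rw [hC]; infer_instance
  set M := H.map (QuotientGroup.mk' C) with hM
  have hMb : M ≠ ⊥ := by
    intro h1
    apply hHC
    rw [hM, Subgroup.map_eq_bot_iff, QuotientGroup.ker_mk'] at h1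
    exact h1
  have hMm : IsMonolith M := by
    refine ⟨Subgroup.Normal.map hHn _ (QuotientGroup.mk'_surjective C), hMb, ?_⟩
    intro L hL hLb
    haveI := hL
    set L' := L.comap (QuotientGroup.mk' C) with hL'
    haveI : L'.Normal := hL.comap _
    have h1 : ⁅L', H⁆ ≠ ⊥ := by
      intro h2
      have h3 : L' ≤ C := Subgroup.commutator_eq_bot_iff_le_centralizer.mp h2
      apply hLb
      have h4 : L = L'.map (QuotientGroup.mk' C) :=
        (Subgroup.map_comap_eq_self_of_surjective (QuotientGroup.mk'_surjective C) L).symm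
      rw [h4, Subgroup.map_eq_bot_iff, QuotientGroup.ker_mk']
      exact h3
    have h2 : ⁅L', H⁆ ≤ H := Subgroup.commutator_le_right _ _
    have h3 : ⁅L', H⁆ ≤ L' := Subgroup.commutator_le_left _ _
    have h4 : H ≤ ⁅L', H⁆ := hH.2 ⟨inferInstance, h1, h2.trans hHI⟩ h2
    rw [hM, Subgroup.map_le_iff_le_comap]
    exact h4.trans h3
  have hMM : ⁅M, M⁆ ≠ ⊥ := by
    rw [hM, ← Subgroup.map_commutator, hNP H hHn]
    exact hMb
  exact hHC (hHI.trans (hI C hCn ⟨M, hMm, hMM⟩))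

end Pool.Agent.Helper75.SNF
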