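import Pool.Agent.Helper75.SNF.Helpers

set_option autoImplicit false
set_option linter.style.haveILetI false

namespace Pool.Agent.Helper75.SNF

open Subgroup


theorem v_smallest {Q : Type} [Group Q] [Finite Q] (hNP : NP Q) {N : Subgroup Q}
    (hN : N.Normal) (hNt : N ≠ ⊤) (hmax : ∀ L : Subgroup Q, L.Normal → N ≤ L → L = N ∨ L = ⊤) :
    ∃ D : Subgroup Q, D.Normal ∧ ¬ D ≤ N ∧ ∀ K : Subgroup Q, K.Normal → ¬ K ≤ N → D ≤ K := by
  classical
  have hfin : Set.Finite {D : Subgroup Q | D.Normal ∧ ¬ D ≤ N} := Set.toFinite _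
  have hne : Set.Nonempty {D : Subgroup Q | D.Normal ∧ ¬ D ≤ N} :=
    ⟨⊤, inferInstance, fun h => hNt (top_le_iff.1 h)⟩
  obtain ⟨D, hD⟩ := hfin.exists_minimal hne
  obtain ⟨hDn, hDN⟩ := hD.prop
  haveI := hN
  haveI := hDn
  have hmap : ∀ K : Subgroup Q, K.Normal → ¬ K ≤ N → K.map (QuotientGroup.mk' N) = ⊤ := by
    intro K hK hKN
    haveI := hK
    have h1 : K ⊔ N = ⊤ := by
      rcases hmax (K ⊔ N) inferInstance le_sup_right with h | h
      · exact absurd (h ▸ le_sup_left) hKN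
      · exact h
    have h2 : (K ⊔ N).map (QuotientGroup.mk' N) = K.map (QuotientGroup.mk' N) := by
      rw [Subgroup.map_sup, QuotientGroup.map_mk'_self, sup_bot_eq]
    rw [← h2, h1]
    exact Subgroup.map_top_of_surjective _ (QuotientGroup.mk'_surjective N)
  refine ⟨D, hDn, hDN, fun K hK hKN => ?_⟩
  haveI := hK
  have h3 : ¬ ⁅K, D⁆ ≤ N := by
    intro h
    have h4 : (⁅K, D⁆ : Subgroup Q).map (QuotientGroup.mk' N) = ⊤ := by
      rw [Subgroup.map_commutator, hmap K hK hKN, hmap D hDn hDN,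
        ← Subgroup.map_top_of_surjective _ (QuotientGroup.mk'_surjective N),
        ← Subgroup.map_commutator, hNP ⊤ inferInstance]
    have h5 : (⁅K, D⁆ : Subgroup Q).map (QuotientGroup.mk' N) ≤ ⊥ := by
      rw [← QuotientGroup.map_mk'_self N]
      exact Subgroup.map_mono h
    rw [h4] at h5
    apply hNt
    rw [eq_top_iff]
    intro x _
    have h6 : (QuotientGroup.mk' N) x ∈ (⊥ : Subgroup (Q ⧸ N)) := h5 (Subgroup.mem_top _)
    rw [Subgroup.mem_bot] at h6
    exact (QuotientGroup.eq_one_iff x).1 h6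
  have h7 : D ≤ ⁅K, D⁆ := hD.le_of_le ⟨inferInstance, h3⟩ (Subgroup.commutator_le_right K D)
  exact h7.trans (Subgroup.commutator_le_left K D)

end Pool.Agent.Helper75.SNF
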