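import Pool.Agent.Helper75.SNF.Helpers
import Pool.Agent.Helper75.SNF.S19
import Pool.Agent.Helper75.SNF.S20

set_option autoImplicit false
set_option linter.style.haveILetI false

namespace Pool.Agent.Helper75.SNF

open Subgroup


theorem s21_pair {Q : Type} [Group Q] (hp : ⁅(⊤ : Subgroup Q), (⊤ : Subgroup Q)⁆ = ⊤)
    {K1 K2 Y : Subgroup Q} (h1 : K1.Normal) (h2 : K2.Normal) (hY : Y.Normal)
    (e1 : K1 ⊔ Y = ⊤) (e2 : K2 ⊔ Y = ⊤) : (K1 ⊓ K2) ⊔ Y = ⊤ := by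
  haveI := h1
  haveI := h2
  haveI := hY
  haveI hZ : ((K1 ⊓ K2) ⊔ Y).Normal := inferInstance
  rw [eq_top_iff, ← hp]
  rw [Subgroup.commutator_le]
  intro g1 _ g2 _
  have m1 : g1 ∈ K1 ⊔ Y := by rw [e1]; exact Subgroup.mem_top _
  have m2 : g2 ∈ K2 ⊔ Y := by rw [e2]; exact Subgroup.mem_top _
  rw [Subgroup.mem_sup_of_normal_right] at m1 m2
  obtain ⟨k1, hk1, y1, hy1, rfl⟩ := m1
  obtain ⟨k2, hk2, y2, hy2, rfl⟩ := m2
  rw [← QuotientGroup.eq_one_iff (N := (K1 ⊓ K2) ⊔ Y)]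
  have q1 : ((y1 : Q) : Q ⧸ ((K1 ⊓ K2) ⊔ Y)) = 1 :=
    (QuotientGroup.eq_one_iff _).2 (Subgroup.mem_sup_right hy1)
  have q2 : ((y2 : Q) : Q ⧸ ((K1 ⊓ K2) ⊔ Y)) = 1 :=
    (QuotientGroup.eq_one_iff _).2 (Subgroup.mem_sup_right hy2)
  have q3 : ((k1 * k2 * k1⁻¹ * k2⁻¹ : Q) : Q ⧸ ((K1 ⊓ K2) ⊔ Y)) = 1 := by
    refine (QuotientGroup.eq_one_iff _).2 (Subgroup.mem_sup_left ?_)
    have := Subgroup.commutator_mem_commutator hk1 hk2
    exact Subgroup.commutator_le_inf K1 K2 this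
  rw [commutatorElement_def]
  simp only [QuotientGroup.mk_mul, QuotientGroup.mk_inv, q1, q2, mul_one, mul_inv_rev, inv_one,
    one_mul] at q3 ⊢
  exact q3

theorem s21_fin {Q : Type} [Group Q] (hp : ⁅(⊤ : Subgroup Q), (⊤ : Subgroup Q)⁆ = ⊤)
    {Y : Subgroup Q} (hY : Y.Normal) (s : Finset (Subgroup Q))
    (hs : ∀ K ∈ s, K.Normal ∧ K ⊔ Y = ⊤) : (s.inf id).Normal ∧ (s.inf id) ⊔ Y = ⊤ := by
  classical
  induction s using Finset.induction_on with
  | empty =>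
    rw [Finset.inf_empty]
    exact ⟨inferInstance, top_sup_eq _⟩
  | insert a t ha ih =>
    obtain ⟨i1, i2⟩ := ih (fun K hK => hs K (Finset.mem_insert_of_mem hK))
    obtain ⟨a1, a2⟩ := hs a (Finset.mem_insert_self _ _)
    rw [Finset.inf_insert]
    haveI := i1
    haveI : a.Normal := a1
    exact ⟨(inferInstance : (a ⊓ t.inf id).Normal), s21_pair hp a1 i1 hY a2 i2⟩

theorem v_decomp {F : GroupClass} (hF : IsFormation F) (h2 : Cond2 F) {Q : Type} [Group Q]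
    (hQ : F Q) (hNP : NP Q) {N : Subgroup Q}
    (hN : N.Normal) (hNt : N ≠ ⊤) (hmax : ∀ L : Subgroup Q, L.Normal → N ≤ L → L = N ∨ L = ⊤) :
    ∃ D B : Subgroup Q, D.Normal ∧ B.Normal ∧ ¬ D ≤ N ∧
      (∀ K : Subgroup Q, K.Normal → ¬ K ≤ N → D ≤ K) ∧ D ⊔ B = ⊤ ∧ D ⊓ B = ⊥ := by
  classical
  haveI hfin : Finite Q := hF.finite Q hQ
  have hp : ⁅(⊤ : Subgroup Q), (⊤ : Subgroup Q)⁆ = ⊤ := hNP ⊤ inferInstance
  obtain ⟨D, hDn, hDN, hD⟩ := v_smallest hNP hN hNt hmax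
  set T : Set (Subgroup Q) := {K | ∃ _ : K.Normal,
    (∃ M : Subgroup (Q ⧸ K), IsMonolith M ∧ ⁅M, M⁆ ≠ ⊥) ∧ K ≤ N} with hT
  set B : Subgroup Q := sInf T with hB
  have hBn : B.Normal := by
    refine ⟨fun x hx g => ?_⟩
    rw [hB, Subgroup.mem_sInf] at hx ⊢
    intro K hK
    exact hK.1.conj_mem x (hx K hK) g
  haveI := hDn
  haveI := hBn
  refine ⟨D, B, hDn, hBn, hDN, hD, ?_, ?_⟩
  · by_contra hne
    set S : Set (Subgroup Q) := {Y | Y.Normal ∧ D ⊔ B ≤ Y ∧ Y ≠ ⊤} with hS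
    have hmem : D ⊔ B ∈ S := ⟨inferInstance, le_rfl, hne⟩
    obtain ⟨Y, -, hYmax⟩ := (Set.toFinite S).exists_le_maximal hmem
    obtain ⟨⟨hYn, hYD, hYt⟩, hYm⟩ := hYmax
    haveI := hYn
    have hex : ∃ K ∈ T, K ≤ Y := by
      by_contra hno
      push Not at hno
      have hall : ∀ K ∈ T, K.Normal ∧ K ⊔ Y = ⊤ := by
        intro K hK
        obtain ⟨hKn, -, -⟩ := id hK
        haveI := hKn
        refine ⟨hKn, ?_⟩
        by_contra hKY
        have : K ⊔ Y ∈ S := ⟨inferInstance, hYD.trans le_sup_right, hKY⟩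
        have h3 := hYm this le_sup_right
        exact hno K hK (le_sup_left.trans h3)
      have hfinT : T.Finite := Set.toFinite T
      have h4 := (s21_fin hp hYn hfinT.toFinset (fun K hK => hall K (by simpa using hK))).2
      rw [Finset.inf_id_eq_sInf, Set.Finite.coe_toFinset] at h4
      have h5 : B ≤ Y := le_sup_right.trans hYD
      rw [← hB, sup_eq_right.mpr h5] at h4
      exact hYt h4
    obtain ⟨K, ⟨hKn, ⟨M, hM, hMM⟩, hKN⟩, hKY⟩ := hex
    haveI := hKn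
    haveI := hM.normal
    obtain ⟨-, N1, hN1, -⟩ := h2 (Q ⧸ K) (hF.quotient Q K hQ) M hM hMM
    haveI := hN1.normal
    have hmapN : ∀ L : Subgroup Q, L.Normal → K ≤ L → L ≠ ⊤ → L ≤ N1.comap (QuotientGroup.mk' K) := by
      intro L hL hKL hLt
      rw [← Subgroup.map_le_iff_le_comap]
      refine hN1.le _ (hL.map _ (QuotientGroup.mk'_surjective K)) ?_
      intro htop
      apply hLt
      have h6 : (L.map (QuotientGroup.mk' K)).comap (QuotientGroup.mk' K) = L := by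
        rw [Subgroup.comap_map_eq, QuotientGroup.ker_mk', sup_eq_left.mpr hKL]
      rw [← h6, htop, Subgroup.comap_top]
    have hN2 := hmapN N hN hKN hNt
    have hY2 := hmapN Y hYn hKY hYt
    have hCn : (N1.comap (QuotientGroup.mk' K)).Normal := inferInstance
    rcases hmax _ hCn hN2 with h | h
    · rw [h] at hY2
      exact hDN ((le_sup_left.trans hYD).trans hY2)
    · apply hN1.ne_top
      have h7 := Subgroup.map_comap_eq_self_of_surjective (QuotientGroup.mk'_surjective K) N1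
      rw [h] at h7
      rw [← h7, ← MonoidHom.range_eq_map, MonoidHom.range_eq_top]
      exact QuotientGroup.mk'_surjective K
  · refine v_inter hNP (D ⊓ B) ?_ inferInstance
    intro K hK hM
    by_cases hKN : K ≤ N
    · exact inf_le_right.trans (sInf_le ⟨hK, hM, hKN⟩)
    · exact inf_le_left.trans (hD K hK hKN)

end Pool.Agent.Helper75.SNF
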