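import Pool.Agent.Helper75.SNF.Helpers
import Pool.Agent.Helper75.SNF.S10
import Pool.Agent.Helper75.SNF.S21

set_option autoImplicit false
set_option linter.style.haveILetI false

namespace Pool.Agent.Helper75.SNF

open Subgroup


open scoped commutatorElement in
open scoped commutatorElement in
theorem s22_comm {G : Type} [Group G] (A : Subgroup G) :
    ⁅A ⊔ center G, A ⊔ center G⁆ ≤ ⁅A, A⁆ := by
  rw [commutator_le]
  intro x hx y hy
  rw [mem_sup_of_normal_right] at hx hy
  obtain ⟨a, ha, z, hz, rfl⟩ := hx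
  obtain ⟨b, hb, w, hw, rfl⟩ := hy
  have hz' := mem_center_iff.1 hz
  have hw' := mem_center_iff.1 hw
  have e : ⁅a * z, b * w⁆ = ⁅a, b⁆ := by
    rw [commutatorElement_def, commutatorElement_def]
    have h1 : a * z * (b * w) = (a * b) * (z * w) := by
      rw [mul_assoc, ← mul_assoc z b w, ← hz' b, mul_assoc, mul_assoc]
    have h2 : (b * w) * (a * z) = (b * a) * (z * w) := by
      rw [mul_assoc, ← mul_assoc w a z, ← hw' a, mul_assoc, mul_assoc, hw' z]
    have h3 : a * z * (b * w) * (a * z)⁻¹ * (b * w)⁻¹ = (a * z * (b * w)) * ((b * w) * (a * z))⁻¹ := by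
      group
    rw [h3, h1, h2]
    group
  rw [e]
  exact commutator_mem_commutator ha hb

theorem s22_isPerfect {G : Type} [Group G] (X : Subgroup G) (h : ⁅X, X⁆ = X) : IsPerfect X := by
  unfold IsPerfect
  rw [commutator_def]
  apply Subgroup.map_injective X.subtype_injective
  rw [map_commutator, ← MonoidHom.range_eq_map, X.range_subtype, h]

theorem v_component {F : GroupClass} (hF : IsFormation F) (h2 : Cond2 F) {G : Type} [Group G]
    (hG : F G) (hp : IsPerfect G) (hNP : NP (G ⧸ center G)) {N : Subgroup G}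
    (hN : N.Normal) (hNt : N ≠ ⊤) (hmax : ∀ L : Subgroup G, L.Normal → N ≤ L → L = N ∨ L = ⊤)
    (hnl : ¬ IsLargestNormal N) :
    ∃ X : Subgroup G, X.Normal ∧ IsPerfect X ∧ X ≠ ⊤ ∧ X ⊔ centralizer (X : Set G) = ⊤ ∧
      ¬ X ≤ N ∧ ∃ NX : Subgroup X, IsLargestNormal NX := by
  have hZN : center G ≤ N := by
    by_contra hno
    have h1 : (N ⊔ center G).Normal := inferInstance
    rcases hmax _ h1 le_sup_left with h3 | h3
    · exact hno (by rw [← h3]; exact le_sup_right)
    · apply hNt
      rw [eq_top_iff]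
      have h4 : (⊤ : Subgroup G) = ⁅(⊤ : Subgroup G), (⊤ : Subgroup G)⁆ := by
        have := hp
        unfold IsPerfect at this
        rw [commutator_def] at this
        exact this.symm
      calc (⊤ : Subgroup G) = ⁅N ⊔ center G, N ⊔ center G⁆ := by rw [h3]; exact h4
        _ ≤ ⁅N, N⁆ := s22_comm N
        _ ≤ N := commutator_le_left N N
  obtain ⟨π, hπ⟩ : ∃ π : G →* G ⧸ center G, π = QuotientGroup.mk' (center G) := ⟨_, rfl⟩
  have hπs : Function.Surjective π := by rw [hπ]; exact QuotientGroup.mk'_surjective _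
  have hπk : π.ker = center G := by rw [hπ]; exact QuotientGroup.ker_mk' _
  have hcN : (N.map π).comap π = N := by
    rw [comap_map_eq, hπk, sup_eq_left]; exact hZN
  have hN' : (N.map π).Normal := hN.map π hπs
  have hN't : N.map π ≠ ⊤ := by
    intro h
    apply hNt
    rw [← hcN, h, comap_top]
  obtain ⟨D', B', hD', hB', hDN', hDmin', hDB', hDBi'⟩ := v_decomp hF h2 (hF.quotient G (center G) hG) hNP
    hN' hN't (by
      intro L hL hNL
      have h3 : (L.comap π).Normal := hL.comap π
      have h4 : N ≤ L.comap π := map_le_iff_le_comap.1 hNL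
      have h5 : (L.comap π).map π = L := map_comap_eq_self_of_surjective hπs L
      rcases hmax _ h3 h4 with h6 | h6
      · left; rw [← h5, h6]
      · right; rw [← h5, h6]; exact map_top_of_surjective π hπs)
  obtain ⟨D, hD⟩ : ∃ D, D = D'.comap π := ⟨_, rfl⟩
  obtain ⟨B, hB⟩ : ∃ B, B = B'.comap π := ⟨_, rfl⟩
  have hDn : D.Normal := by rw [hD]; exact hD'.comap π
  have hBn : B.Normal := by rw [hB]; exact hB'.comap π
  have hDB : D ⊔ B = ⊤ := by
    rw [hD, hB]; have h9 := comap_sup_eq π D' B' hπs; rw [hDB', comap_top] at h9; first | exact h9 | exact h9.symm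
  have hDBi : D ⊓ B = center G := by
    rw [hD, hB, ← comap_inf, hDBi']; exact (show comap π ⊥ = π.ker from rfl).trans hπk
  have hZB : center G ≤ B := by rw [← hDBi]; exact inf_le_right
  have hDmin : ∀ K : Subgroup G, K.Normal → ¬ K ≤ N → D ≤ K ⊔ center G := by
    intro K hK hKN
    have h3 : (K.map π).Normal := hK.map π hπs
    have h4 : ¬ K.map π ≤ N.map π := by
      intro h5
      apply hKN
      have h6 := map_le_iff_le_comap.1 h5
      rwa [hcN] at h6
    have h5 := comap_mono (f := π) (hDmin' _ h3 h4)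
    rwa [comap_map_eq, hπk, ← hD] at h5
  have hkey : ∀ K : Subgroup G, K.Normal → ¬ K ≤ N → ⁅D, D⁆ ≤ K := by
    intro K hK hKN
    calc ⁅D, D⁆ ≤ ⁅K ⊔ center G, K ⊔ center G⁆ := commutator_mono (hDmin K hK hKN) (hDmin K hK hKN)
      _ ≤ ⁅K, K⁆ := s22_comm K
      _ ≤ K := commutator_le_left K K
  obtain ⟨X, hX⟩ : ∃ X, X = ⁅D, D⁆ := ⟨_, rfl⟩
  have hXn : X.Normal := by rw [hX]; infer_instance
  have hXZ : D = X ⊔ center G := by
    have h3 : X.map π = D' := by
      rw [hX, map_commutator, hD, map_comap_eq_self_of_surjective hπs]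
      exact hNP D' hD'
    have h4 := comap_map_eq π X
    rw [hπk, h3] at h4
    rw [hD]; exact h4
  have hXX : ⁅X, X⁆ = X := by
    apply le_antisymm (commutator_le_left X X)
    conv_lhs => rw [hX, hXZ]
    exact s22_comm X
  have hXD : X ≤ D := by rw [hXZ]; exact le_sup_left
  have hXN : ¬ X ≤ N := by
    intro h3
    apply hDN'
    have h4 : D ≤ N := by rw [hXZ]; exact sup_le h3 hZN
    have h5 : D.map π ≤ N.map π := map_mono h4
    rwa [hD, map_comap_eq_self_of_surjective hπs] at h5
  have hXB : ⁅X, B⁆ ≤ center G := by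
    rw [← hDBi]
    exact (commutator_mono hXD le_rfl).trans (commutator_le_inf D B)
  have hbot : ∀ A C : Subgroup G, A ≤ center G → ⁅A, C⁆ = ⊥ := by
    intro A C hA
    rw [commutator_eq_bot_iff_le_centralizer]
    exact hA.trans (center_le_centralizer _)
  have hXBbot : ⁅X, B⁆ = ⊥ := by
    have h3 : ⁅⁅X, X⁆, B⁆ = ⊥ := by
      apply commutator_commutator_eq_bot_of_rotate
      · exact hbot _ _ hXB
      · rw [commutator_comm B X]; exact hbot _ _ hXB
    rwa [hXX] at h3
  have hBcent : B ≤ centralizer (X : Set G) := by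
    rw [← commutator_eq_bot_iff_le_centralizer, commutator_comm]; exact hXBbot
  have hXC : X ⊔ centralizer (X : Set G) = ⊤ := by
    rw [eq_top_iff, ← hDB, hXZ]
    apply sup_le
    · apply sup_le le_sup_left
      exact (hZB.trans hBcent).trans le_sup_right
    · exact hBcent.trans le_sup_right
  refine ⟨X, hXn, s22_isPerfect X hXX, ?_, hXC, hXN, N.subgroupOf X, ?_⟩
  · intro htop
    apply hnl
    refine ⟨hN, hNt, fun L hL hLt => ?_⟩
    by_contra hno
    apply hLt
    rw [eq_top_iff, ← htop, hX]
    exact hkey L hL hno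
  · refine ⟨hN.subgroupOf X, ?_, ?_⟩
    · rw [Ne, subgroupOf_eq_top]; exact hXN
    · intro L hL hLt
      have hK1 : (L.map X.subtype).Normal := by
        rw [← normalizer_eq_top_iff, eq_top_iff, ← hXC]
        apply sup_le
        · rw [le_normalizer_iff]
          intro x hx k hk
          obtain ⟨l, hl, rfl⟩ := hk
          refine ⟨⟨x, hx⟩ * l * (⟨x, hx⟩)⁻¹, hL.conj_mem l hl ⟨x, hx⟩, rfl⟩
        · rw [le_normalizer_iff]
          intro x hx k hk
          obtain ⟨l, hl, rfl⟩ := hk
          have h3 : (l : G) * x = x * l := mem_centralizer_iff.1 hx l l.2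
          have h4 : x * X.subtype l * x⁻¹ = X.subtype l := by
            show x * (l : G) * x⁻¹ = l
            rw [← h3]; group
          rw [h4]
          exact ⟨l, hl, rfl⟩
      by_contra hno
      have h3 : ¬ L.map X.subtype ≤ N := by
        intro h4
        exact hno (map_le_iff_le_comap.1 h4)
      have h4 := hkey _ hK1 h3
      rw [← hX] at h4
      apply hLt
      rw [eq_top_iff]
      intro x _
      obtain ⟨l, hl, hlx⟩ := h4 x.2
      have : l = x := Subtype.ext hlx
      rw [← this]; exact hl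

end Pool.Agent.Helper75.SNF
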