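import Pool.Agent.Helper75.SNF.Helpers

set_option autoImplicit false
set_option linter.style.haveILetI false

namespace Pool.Agent.Helper75.SNF

open Subgroup


theorem s23_comm {G : Type} [Group G] {A B : Subgroup G} (hc : ⁅A, B⁆ = ⊥) :
    ∀ a ∈ A, ∀ b ∈ B, a * b = b * a := by
  intro a ha b hb
  have h1 := Subgroup.commutator_mem_commutator ha hb
  rw [hc, Subgroup.mem_bot, commutatorElement_eq_one_iff_mul_comm] at h1
  exact h1

theorem s23_hom {G : Type} [Group G] {A B : Subgroup G} (hc : ⁅A, B⁆ = ⊥) :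
    ∃ f : A × B →* G, ∀ x, f x = (x.1 : G) * (x.2 : G) := by
  refine ⟨{ toFun := fun x => (x.1 : G) * (x.2 : G), map_one' := by simp, map_mul' := ?_ },
    fun _ => rfl⟩
  intro x y
  have h1 : (y.1 : G) * (x.2 : G) = (x.2 : G) * (y.1 : G) := s23_comm hc _ y.1.2 _ x.2.2
  show ((x.1 * y.1 : A) : G) * ((x.2 * y.2 : B) : G) = ((x.1 : G) * x.2) * ((y.1 : G) * y.2)
  rw [Subgroup.coe_mul, Subgroup.coe_mul, mul_assoc, ← mul_assoc (y.1 : G), h1]
  simp only [mul_assoc]

theorem s23_range {G : Type} [Group G] {A B : Subgroup G} (f : A × B →* G)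
    (hf : ∀ x, f x = (x.1 : G) * (x.2 : G)) : f.range = A ⊔ B := by
  apply le_antisymm
  · rintro _ ⟨x, rfl⟩
    rw [hf]
    exact (A ⊔ B).mul_mem ((le_sup_left : A ≤ A ⊔ B) x.1.2) ((le_sup_right : B ≤ A ⊔ B) x.2.2)
  · apply sup_le
    · intro a ha
      exact ⟨(⟨a, ha⟩, 1), by rw [hf]; simp⟩
    · intro b hb
      exact ⟨(1, ⟨b, hb⟩), by rw [hf]; simp⟩

theorem s_prod {F : GroupClass} (hF : IsFormation F) {G : Type} [Group G] {A B N : Subgroup G}
    (hA : F A) (hB : F B) (hc : ⁅A, B⁆ = ⊥) (hN : A ⊔ B = N) : F N := by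
  subst hN
  obtain ⟨f, hf⟩ := s23_hom hc
  have hr := s23_range f hf
  rw [← hr]
  exact hF.surj (hF.prod hA hB) f.rangeRestrict f.rangeRestrict_surjective

theorem s_factor {F : GroupClass} (hF : IsFormation F) {G : Type} [Group G] (hG : F G)
    {X C : Subgroup G} (h : X ⊔ C = ⊤) (hc : ⁅X, C⁆ = ⊥) (hX : F X) : F C := by
  haveI := hF.finite G hG
  obtain ⟨f, hf⟩ := s23_hom hc
  have hr := s23_range f hf
  rw [h] at hr
  have hsurj : Function.Surjective f := MonoidHom.range_eq_top.mp hr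
  have hXC : F (X × C) := by
    refine hF.subdirect_hom f (MonoidHom.fst X C) hsurj (fun a => ⟨(a, 1), rfl⟩) hG hX ?_
    intro x h1 h2
    have h3 : x.1 = 1 := h2
    rw [hf, h3, Subgroup.coe_one, one_mul] at h1
    exact Prod.ext h3 (Subtype.ext h1)
  exact hF.surj hXC (MonoidHom.snd X C) (fun b => ⟨(1, b), rfl⟩)

end Pool.Agent.Helper75.SNF
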