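import Pool.Agent.Helper75.SNF.Helpers
import Pool.Agent.Helper75.SNF.S07

set_option autoImplicit false
set_option linter.style.haveILetI false

namespace Pool.Agent.Helper75.SNF

open Subgroup


theorem s_nilp {F : GroupClass} (hF : IsFormation F) {G : Type} [Group G] (hG : F G)
    {E P : Subgroup G} (hE : E.Normal) (hP : P.Normal) (h : E ⊔ P = ⊤) (hc : ⁅E, P⁆ = ⊥)
    (hn : Group.IsNilpotent P) : F P := by
  haveI := hF.finite G hG
  haveI := hE
  haveI := hP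
  haveI := hn
  have hcomm : ∀ e ∈ E, ∀ p ∈ P, p * e = e * p := by
    intro e he p hp
    have h1 : E ≤ Subgroup.centralizer (P : Set G) :=
      Subgroup.commutator_eq_bot_iff_le_centralizer.1 hc
    exact Subgroup.mem_centralizer_iff.1 (h1 he) p hp
  let R : Subgroup (G × G) := MonoidHom.eqLocus
    ((QuotientGroup.mk' P).comp (MonoidHom.fst G G)) ((QuotientGroup.mk' P).comp (MonoidHom.snd G G))
  have hR : ∀ z : G × G, z ∈ R ↔ z.1⁻¹ * z.2 ∈ P := fun z => by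
    change ((z.1 : G ⧸ P) = (z.2 : G ⧸ P)) ↔ _
    exact QuotientGroup.eq
  have hFR : F R := by
    refine hF.subdirect_hom ((MonoidHom.fst G G).comp R.subtype) ((MonoidHom.snd G G).comp R.subtype)
      (fun g => ⟨⟨(g, g), (hR _).2 (by simp)⟩, rfl⟩)
      (fun g => ⟨⟨(g, g), (hR _).2 (by simp)⟩, rfl⟩) hG hG ?_
    intro x h1 h2
    exact Subtype.ext (Prod.ext h1 h2)
  let D : Subgroup R :=
    { carrier := {z | z.1.1 = z.1.2 ∧ z.1.1 ∈ E}
      one_mem' := ⟨rfl, E.one_mem⟩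
      mul_mem' := by
        rintro a b ⟨h1, h2⟩ ⟨h3, h4⟩
        refine ⟨?_, ?_⟩
        · change a.1.1 * b.1.1 = a.1.2 * b.1.2
          rw [h1, h3]
        · exact E.mul_mem h2 h4
      inv_mem' := by
        rintro a ⟨h1, h2⟩
        refine ⟨?_, ?_⟩
        · change a.1.1⁻¹ = a.1.2⁻¹
          rw [h1]
        · exact E.inv_mem h2 }
  have hD : ∀ z : R, z ∈ D ↔ z.1.1 = z.1.2 ∧ z.1.1 ∈ E := fun z => Iff.rfl
  haveI hDn : D.Normal := by
    constructor
    intro n hn g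
    obtain ⟨h1, h2⟩ := (hD n).1 hn
    refine (hD _).2 ⟨?_, hE.conj_mem _ h2 _⟩
    change g.1.1 * n.1.1 * g.1.1⁻¹ = g.1.2 * n.1.2 * g.1.2⁻¹
    have hp := (hR g.1).1 g.2
    have h3 := hcomm _ h2 _ hp
    rw [← h1]
    have h4 : g.1.2 = g.1.1 * (g.1.1⁻¹ * g.1.2) := by group
    set p := g.1.1⁻¹ * g.1.2 with hpd
    rw [h4]
    have h5 : g.1.1 * p * n.1.1 * (g.1.1 * p)⁻¹ = g.1.1 * (p * n.1.1) * p⁻¹ * g.1.1⁻¹ := by group
    rw [h5, h3]
    group
  have hFY : F (R ⧸ D) := hF.quotient R D hFR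
  let f0 : P × P →* R := (P.subtype.prodMap P.subtype).codRestrict R (fun z =>
    (hR _).2 (P.mul_mem (P.inv_mem z.1.2) z.2.2))
  let f : P × P →* R ⧸ D := (QuotientGroup.mk' D).comp f0
  have hfs : Function.Surjective f := by
    intro y
    obtain ⟨z, rfl⟩ := QuotientGroup.mk_surjective y
    have h1 : z.1.1 ∈ E ⊔ P := by rw [h]; trivial
    obtain ⟨e, he, p, hp, hep⟩ := Subgroup.mem_sup_of_normal_right.1 h1
    have hp' := (hR z.1).1 z.2
    refine ⟨(⟨p, hp⟩, ⟨p * (z.1.1⁻¹ * z.1.2), P.mul_mem hp hp'⟩), ?_⟩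
    change ((f0 _ : R) : R ⧸ D) = (z : R ⧸ D)
    rw [QuotientGroup.eq, hD]
    set p' := z.1.1⁻¹ * z.1.2 with hpd
    have h2 : z.1.2 = e * p * p' := by rw [hep, hpd]; group
    have h3 := hcomm e he p hp
    have h4 := hcomm e he (p * p') (P.mul_mem hp hp')
    have e1 : p⁻¹ * z.1.1 = e := by
      rw [← hep, ← h3]; group
    have e2 : (p * p')⁻¹ * z.1.2 = e := by
      rw [h2, mul_assoc, ← h4]; group
    change p⁻¹ * z.1.1 = (p * p')⁻¹ * z.1.2 ∧ p⁻¹ * z.1.1 ∈ E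
    rw [e1, e2]
    exact ⟨rfl, he⟩
  haveI hnY : Group.IsNilpotent (R ⧸ D) := Group.nilpotent_of_surjective f hfs
  let j : P →* R ⧸ D := f.comp (MonoidHom.inl P P)
  have hj : Function.Injective j := by
    rw [injective_iff_map_eq_one]
    intro p hp
    have h1 : f0 (p, 1) ∈ D := (QuotientGroup.eq_one_iff (f0 (p, 1))).1 hp
    have h2 := ((hD _).1 h1).1
    exact Subtype.ext h2
  exact hF.iso _ _ ⟨(MonoidHom.ofInjective hj).symm⟩ (neumann hF hFY hnY j.range)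

end Pool.Agent.Helper75.SNF
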