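import Pool.Agent.Helper75.SNF.Helpers

set_option autoImplicit false
set_option linter.style.haveILetI false

namespace Pool.Agent.Helper75.SNF

open Subgroup


theorem s_avoid {F : GroupClass} (hF : IsFormation F) {G : Type} [Group G] (hG : F G)
    {X C : Subgroup G} (h : X ⊔ C = ⊤) (hc : ⁅X, C⁆ = ⊥) {W : Subgroup X} (hW : IsMonolith W)
    (hav : HasAvoidingPower W) : F X := by
  classical
  have hfin : Finite G := hF.finite G hG
  obtain ⟨n, R, hR, hRW⟩ := hav
  have hcomm : ∀ x ∈ X, ∀ c ∈ C, x * c = c * x := by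
    intro x hx c hc'
    have h1 := Subgroup.commutator_mem_commutator hx hc'
    rw [hc, Subgroup.mem_bot, commutatorElement_eq_one_iff_mul_comm] at h1
    exact h1
  have hn : n ≠ 0 := by
    rintro rfl
    apply hW.ne_bot
    rw [eq_bot_iff]
    intro w hw
    rw [Subgroup.mem_bot]
    apply hRW w hw
    have : (fun _ => w : Fin 0 → X) = 1 := Subsingleton.elim _ _
    rw [this]
    exact R.one_mem
  let φ : Fin n → (R × C →* G) := fun i =>
    { toFun := fun q => ((q.1 : Fin n → X) i : G) * (q.2 : G)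
      map_one' := by simp
      map_mul' := by
        rintro ⟨r, c⟩ ⟨r', c'⟩
        have h1 := hcomm ((r' : Fin n → X) i : G) ((r' : Fin n → X) i).2 c c.2
        simp only [Prod.mk_mul_mk, Subgroup.coe_mul, Pi.mul_apply]
        calc ((r : Fin n → X) i : G) * ((r' : Fin n → X) i : G) * ((c : G) * (c' : G))
            = ((r : Fin n → X) i : G) * (((r' : Fin n → X) i : G) * (c : G)) * (c' : G) := by
              simp only [mul_assoc]
          _ = ((r : Fin n → X) i : G) * ((c : G) * ((r' : Fin n → X) i : G)) * (c' : G) := by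
              rw [h1]
          _ = _ := by simp only [mul_assoc] }
  have hφ : ∀ (i : Fin n) (r : R) (c : C), φ i (r, c) = ((r : Fin n → X) i : G) * (c : G) :=
    fun i r c => rfl
  have hsurj : ∀ i, Function.Surjective (φ i) := by
    intro i
    rw [← MonoidHom.range_eq_top, eq_top_iff, ← h, sup_le_iff]
    constructor
    · intro x hx
      obtain ⟨r, hr, hri⟩ := hR i ⟨x, hx⟩
      refine ⟨(⟨r, hr⟩, 1), ?_⟩
      rw [hφ]
      simp [hri]
    · intro c hc'
      refine ⟨(1, ⟨c, hc'⟩), ?_⟩
      rw [hφ]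
      simp
  let T : Subgroup X :=
    { carrier := {x | (x : G) ∈ C ∧ (fun _ => x : Fin n → X) ∈ R}
      one_mem' := ⟨C.one_mem, R.one_mem⟩
      mul_mem' := fun {a b} ha hb => ⟨C.mul_mem ha.1 hb.1, R.mul_mem ha.2 hb.2⟩
      inv_mem' := fun {a} ha => ⟨C.inv_mem ha.1, R.inv_mem ha.2⟩ }
  have hTmem : ∀ x : X, x ∈ T ↔ (x : G) ∈ C ∧ (fun _ => x : Fin n → X) ∈ R := fun x => Iff.rfl
  have hTn : T.Normal := by
    constructor
    intro t ht g
    have h1 : g * t * g⁻¹ = t := by
      have h2 : g * t = t * g := Subtype.ext (hcomm g g.2 t ((hTmem t).1 ht).1)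
      rw [h2, mul_assoc, mul_inv_cancel, mul_one]
    rw [h1]
    exact ht
  have hT : T = ⊥ := by
    by_contra hne
    apply hW.ne_bot
    rw [eq_bot_iff]
    intro w hw
    rw [Subgroup.mem_bot]
    exact hRW w hw ((hTmem w).1 (hW.le T hTn hne hw)).2
  have hinj : ∀ q : R × C, (∀ i, φ i q = 1) → q = 1 := by
    rintro ⟨r, c⟩ hq
    have i0 : Fin n := ⟨0, Nat.pos_of_ne_zero hn⟩
    have h1 : ∀ i, ((r : Fin n → X) i : G) = (c : G)⁻¹ := by
      intro i
      have := hq i
      rw [hφ] at this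
      exact eq_inv_of_mul_eq_one_left this
    have h2 : ∀ i, (r : Fin n → X) i = (r : Fin n → X) i0 := by
      intro i
      apply Subtype.ext
      rw [h1 i, h1 i0]
    have h3 : (r : Fin n → X) i0 ∈ T := by
      rw [hTmem]
      refine ⟨by rw [h1 i0]; exact C.inv_mem c.2, ?_⟩
      have h4 : (fun _ => (r : Fin n → X) i0 : Fin n → X) = (r : Fin n → X) := by
        funext i
        exact (h2 i).symm
      rw [h4]
      exact r.2
    rw [hT, Subgroup.mem_bot] at h3
    have hr : r = 1 := by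
      apply Subtype.ext
      funext i
      rw [h2 i, h3]
      rfl
    have hc1 : c = 1 := by
      apply Subtype.ext
      have h5 := h1 i0
      rw [h3] at h5
      have h6 : (c : G)⁻¹ = 1 := h5.symm
      rw [inv_eq_one] at h6
      exact h6
    rw [hr, hc1]
    rfl
  haveI : Finite (R × C) := inferInstance
  have hRC : F (R × C) := hF.subdirect_fin hG n (A := fun _ => G) φ hsurj (fun _ => hG) hinj
  have i0 : Fin n := ⟨0, Nat.pos_of_ne_zero hn⟩
  refine hF.surj hRC (((Pi.evalMonoidHom (fun _ : Fin n => X) i0).comp R.subtype).comp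
    (MonoidHom.fst R C)) ?_
  intro x
  obtain ⟨r, hr, hri⟩ := hR i0 x
  exact ⟨(⟨r, hr⟩, 1), hri⟩

end Pool.Agent.Helper75.SNF
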