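import Pool.Agent.Helper75.SNF.Helpers

set_option autoImplicit false
set_option linter.style.haveILetI false

namespace Pool.Agent.Helper75.SNF

open Subgroup


theorem s26_reindex {G : Type} [Group G] {W : Subgroup G} {ι : Type} [Finite ι]
    (R : Subgroup (ι → G)) (h1 : ∀ (i : ι) (g : G), ∃ r ∈ R, r i = g)
    (h2 : ∀ w ∈ W, (fun _ => w) ∈ R → w = 1) : HasAvoidingPower W := by
  classical
  haveI : Fintype ι := Fintype.ofFinite ι
  let e := Fintype.equivFin ι
  let φ : (Fin (Fintype.card ι) → G) →* (ι → G) :=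
    { toFun := fun s i => s (e i)
      map_one' := rfl
      map_mul' := fun _ _ => rfl }
  refine ⟨Fintype.card ι, R.comap φ, ?_, ?_⟩
  · intro i g
    obtain ⟨r, hr, hrg⟩ := h1 (e.symm i) g
    refine ⟨fun k => r (e.symm k), ?_, hrg⟩
    rw [Subgroup.mem_comap]
    have : φ (fun k => r (e.symm k)) = r := by
      funext k
      exact congrArg r (e.symm_apply_apply k)
    rw [this]
    exact hr
  · intro w hw hwR
    exact h2 w hw (Subgroup.mem_comap.1 hwR)

theorem c_avoid {F : GroupClass} (hF : IsFormation F) (h : AllSubformationsSnClosed F)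
    {X : Type} [Group X] (hX : F X) {W : Subgroup X} (hW : W ≤ center X) :
    HasAvoidingPower W := by
  classical
  have hfin : Finite X := hF.finite X hX
  let Δ : Subgroup (X × X) :=
    { carrier := {z | z.1 = z.2 ∧ z.1 ∈ center X}
      one_mem' := ⟨rfl, one_mem _⟩
      mul_mem' := by
        rintro a b ⟨h1, h2⟩ ⟨h3, h4⟩
        refine ⟨?_, mul_mem h2 h4⟩
        rw [Prod.fst_mul, Prod.snd_mul, h1, h3]
      inv_mem' := by
        rintro a ⟨h1, h2⟩
        refine ⟨?_, inv_mem h2⟩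
        rw [Prod.fst_inv, Prod.snd_inv, h1] }
  have hΔ : ∀ z, z ∈ Δ ↔ z.1 = z.2 ∧ z.1 ∈ center X := fun _ => Iff.rfl
  have hΔn : Δ.Normal := by
    refine ⟨fun z hz g => ?_⟩
    rw [hΔ] at hz ⊢
    obtain ⟨h1, h2⟩ := hz
    have h3 : g.1 * z.1 * g.1⁻¹ = z.1 := by
      rw [Subgroup.mem_center_iff.1 h2 g.1, mul_inv_cancel_right]
    have h4 : g.2 * z.2 * g.2⁻¹ = z.1 := by
      rw [← h1, Subgroup.mem_center_iff.1 h2 g.2, mul_inv_cancel_right]
    have h5 : (g * z * g⁻¹).1 = z.1 := h3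
    have h6 : (g * z * g⁻¹).2 = z.1 := h4
    rw [h5, h6]
    exact ⟨rfl, h2⟩
  have hY : F ((X × X) ⧸ Δ) := hF.quotient (X × X) Δ (hF.prod hX hX)
  have hYfin : Finite ((X × X) ⧸ Δ) := hF.finite _ hY
  let j : X →* ((X × X) ⧸ Δ) := (QuotientGroup.mk' Δ).comp (MonoidHom.inl X X)
  have hj : ∀ x, j x = (((x, 1) : X × X) : (X × X) ⧸ Δ) := fun x => rfl
  have hjinj : Function.Injective j := by
    rw [injective_iff_map_eq_one]
    intro x hx
    rw [hj, QuotientGroup.eq_one_iff, hΔ] at hx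
    exact hx.1
  have hjn : j.range.Normal := by
    refine ⟨fun z hz g => ?_⟩
    obtain ⟨x, rfl⟩ := hz
    induction g using QuotientGroup.induction_on with
    | H g =>
      refine ⟨g.1 * x * g.1⁻¹, ?_⟩
      rw [hj, hj, ← QuotientGroup.mk_mul, ← QuotientGroup.mk_inv, ← QuotientGroup.mk_mul]
      congr 1
      refine Prod.ext rfl ?_
      simp
  have hSn : SnClosed (form ((X × X) ⧸ Δ)) :=
    h _ (form_isFormation _) (fun G _ hG => hG F hF hY)
  have hr1 : form ((X × X) ⧸ Δ) j.range := hSn _ j.range hjn (self_mem_form _)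
  have hr2 : form ((X × X) ⧸ Δ) X :=
    (form_isFormation ((X × X) ⧸ Δ)).iso _ _ ⟨(MonoidHom.ofInjective hjinj).symm⟩ hr1
  obtain ⟨R, _, ⟨n, π, hπ, hinj⟩, ρ, hρ⟩ := form_image hr2
  let R' : Subgroup (((Fin n ⊕ Fin n) ⊕ Unit) → X) :=
    { carrier := {s | ∃ r : R, (∀ i, (((s (Sum.inl (Sum.inl i)), s (Sum.inl (Sum.inr i))) :
          X × X) : (X × X) ⧸ Δ) = π i r) ∧ s (Sum.inr ()) = ρ r}
      one_mem' := by
        refine ⟨1, fun i => ?_, ?_⟩
        · rw [map_one]
          rfl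
        · rw [map_one]
          rfl
      mul_mem' := by
        rintro a b ⟨r, h1, h2⟩ ⟨s, h3, h4⟩
        refine ⟨r * s, fun i => ?_, ?_⟩
        · rw [map_mul, ← h1 i, ← h3 i, ← QuotientGroup.mk_mul]
          rfl
        · rw [map_mul, ← h2, ← h4]
          rfl
      inv_mem' := by
        rintro a ⟨r, h1, h2⟩
        refine ⟨r⁻¹, fun i => ?_, ?_⟩
        · rw [map_inv, ← h1 i, ← QuotientGroup.mk_inv]
          rfl
        · rw [map_inv, ← h2]
          rfl }
  have hR' : ∀ s, s ∈ R' ↔ ∃ r : R, (∀ i, (((s (Sum.inl (Sum.inl i)), s (Sum.inl (Sum.inr i))) :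
          X × X) : (X × X) ⧸ Δ) = π i r) ∧ s (Sum.inr ()) = ρ r := fun _ => Iff.rfl
  have hlift : ∀ (r : R), ∃ t : Fin n → X × X, ∀ i, ((t i : X × X) : (X × X) ⧸ Δ) = π i r := by
    intro r
    have : ∀ i, ∃ z : X × X, (z : (X × X) ⧸ Δ) = π i r := fun i => QuotientGroup.mk_surjective _
    choose t ht using this
    exact ⟨t, ht⟩
  have hmem : ∀ (r : R) (t : Fin n → X × X), (∀ i, ((t i : X × X) : (X × X) ⧸ Δ) = π i r) →
      (Sum.elim (Sum.elim (fun i => (t i).1) (fun i => (t i).2)) (fun _ => ρ r)) ∈ R' := by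
    intro r t ht
    rw [hR']
    exact ⟨r, fun i => ht i, rfl⟩
  have hlift2 : ∀ (i : Fin n) (z : X × X), ∃ (r : R) (t : Fin n → X × X), t i = z ∧
      ∀ k, ((t k : X × X) : (X × X) ⧸ Δ) = π k r := by
    intro i z
    obtain ⟨r, hr⟩ := hπ i (z : (X × X) ⧸ Δ)
    obtain ⟨t, ht⟩ := hlift r
    refine ⟨r, Function.update t i z, Function.update_self _ _ _, fun k => ?_⟩
    by_cases hk : k = i
    · subst hk
      rw [Function.update_self, hr]
    · rw [Function.update_of_ne hk]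
      exact ht k
  refine s26_reindex R' ?_ ?_
  · rintro ((i | i) | u) g
    · obtain ⟨r, t, hti, ht⟩ := hlift2 i (g, 1)
      refine ⟨_, hmem r t ht, ?_⟩
      simp [hti]
    · obtain ⟨r, t, hti, ht⟩ := hlift2 i (1, g)
      refine ⟨_, hmem r t ht, ?_⟩
      simp [hti]
    · obtain ⟨r, hr⟩ := hρ g
      obtain ⟨t, ht⟩ := hlift r
      refine ⟨_, hmem r t ht, ?_⟩
      simpa using hr
  · intro w hw hwR
    rw [hR'] at hwR
    obtain ⟨r, h1, h2⟩ := hwR
    have h3 : r = 1 := by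
      apply hinj
      intro i
      rw [← h1 i, QuotientGroup.eq_one_iff, hΔ]
      exact ⟨rfl, hW hw⟩
    rw [h3, map_one] at h2
    exact h2

end Pool.Agent.Helper75.SNF
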