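import Pool.Agent.Helper75.SNF.Helpers
import Pool.Agent.Helper75.SNF.S01
import Pool.Agent.Helper75.SNF.S02
import Pool.Agent.Helper75.SNF.S03
import Pool.Agent.Helper75.SNF.S04
import Pool.Agent.Helper75.SNF.S05
import Pool.Agent.Helper75.SNF.S06
import Pool.Agent.Helper75.SNF.S07
import Pool.Agent.Helper75.SNF.S08
import Pool.Agent.Helper75.SNF.S09
import Pool.Agent.Helper75.SNF.S10
import Pool.Agent.Helper75.SNF.S11
import Pool.Agent.Helper75.SNF.S12
import Pool.Agent.Helper75.SNF.S13
import Pool.Agent.Helper75.SNF.S14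
import Pool.Agent.Helper75.SNF.S15
import Pool.Agent.Helper75.SNF.S16
import Pool.Agent.Helper75.SNF.S17
import Pool.Agent.Helper75.SNF.S18
import Pool.Agent.Helper75.SNF.S19
import Pool.Agent.Helper75.SNF.S20
import Pool.Agent.Helper75.SNF.S21
import Pool.Agent.Helper75.SNF.S22
import Pool.Agent.Helper75.SNF.S23
import Pool.Agent.Helper75.SNF.S24
import Pool.Agent.Helper75.SNF.S25
import Pool.Agent.Helper75.SNF.S26

set_option autoImplicit false
set_option linter.style.haveILetI false

namespace Pool.Agent.Helper75.SNF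

open Subgroup


theorem isPerfect_iff {G : Type} [Group G] (X : Subgroup G) : IsPerfect X ↔ ⁅X, X⁆ = X := by
  unfold IsPerfect
  have h1 : (commutator X).map X.subtype = ⁅X, X⁆ := by
    rw [commutator_def, Subgroup.map_commutator, ← MonoidHom.range_eq_map, X.range_subtype]
  constructor
  · intro h
    rw [← h1, h, ← MonoidHom.range_eq_map, X.range_subtype]
  · intro h
    apply Subgroup.map_injective X.subtype_injective
    rw [h1, h, ← MonoidHom.range_eq_map, X.range_subtype]

theorem commute_of_commutator_eq_bot {G : Type} [Group G] {A B : Subgroup G} (h : ⁅A, B⁆ = ⊥)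
    {a b : G} (ha : a ∈ A) (hb : b ∈ B) : a * b = b * a := by
  have h1 := Subgroup.commutator_mem_commutator ha hb
  rw [h, Subgroup.mem_bot, commutatorElement_eq_one_iff_mul_comm] at h1
  exact h1

theorem commutator_eq_bot_of_commute {G : Type} [Group G] {A B : Subgroup G}
    (h : ∀ a ∈ A, ∀ b ∈ B, a * b = b * a) : ⁅A, B⁆ = ⊥ := by
  rw [eq_bot_iff, Subgroup.commutator_le]
  intro a ha b hb
  rw [Subgroup.mem_bot, commutatorElement_eq_one_iff_mul_comm]
  exact h a ha b hb

theorem form_le {F : GroupClass} (hF : IsFormation F) {G : Type} [Group G] (hG : F G)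
    (H : Type) [Group H] (h : form G H) : F H := h F hF hG

theorem AllSubformationsSnClosed.self {F : GroupClass} (hF : IsFormation F)
    (h : AllSubformationsSnClosed F) : SnClosed F := h F hF (fun _ _ h => h)

theorem AllSubformationsSnClosed.form {F : GroupClass} (hF : IsFormation F)
    (h : AllSubformationsSnClosed F) {G : Type} [Group G] (hG : F G) : SnClosed (form G) := by
  haveI := hF.finite G hG
  exact h (SNF.form G) (form_isFormation G) (fun H _ hH => form_le hF hG H hH)

theorem cond1_of {F : GroupClass} (hF : IsFormation F) (h : AllSubformationsSnClosed F) :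
    Cond1 F := by
  by_contra hcon
  obtain ⟨G, _, A, hG, hAn, hAb, hAc, hAt, hmin, hmax⟩ := a_min hF (h.self hF) hcon
  haveI := hF.finite G hG
  obtain ⟨p, hp, hexp⟩ := a_prime A hAb hAc hmin
  obtain ⟨Y, _, A', hY, hA'n, hNp, hA'b, hA'c, hexp'⟩ :=
    a_build hF hG A hAb hAc hAt hmin hmax hp hexp
  haveI := hF.finite Y hY
  have h2 : form Y A' := h.form hF hY Y A' hA'n (self_mem_form Y)
  have h3 : Np p A' := h2 _ (np_isFormation p) hNp
  have h4 := h3.2 ⊥ ⊤ inferInstance inferInstance bot_le
    (commutator_eq_bot_of_commute (fun a _ b _ =>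
      Subtype.ext (commute_of_commutator_eq_bot hA'c a.2 b.2))).le (by
    intro x _
    rw [Subgroup.mem_bot]
    apply Subtype.ext
    exact hexp' x x.2)
  apply hA'b
  rw [eq_bot_iff]
  intro x hx
  have h5 : (⟨x, hx⟩ : A') ∈ (⊥ : Subgroup A') := h4 (Subgroup.mem_top _)
  rw [Subgroup.mem_bot] at h5
  rw [Subgroup.mem_bot]
  exact congrArg Subtype.val h5


theorem center_nilpotent (G : Type) [Group G] : Group.IsNilpotent (center G) := by
  letI : CommGroup (center G) := { (inferInstance : Group (center G)) with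
    mul_comm := fun a b => Subtype.ext (Subgroup.mem_center_iff.1 b.2 a) }
  exact CommGroup.isNilpotent

theorem exists_monolith {G : Type} [Group G] [Finite G] (hG : (⊤ : Subgroup G) ≠ ⊥)
    (h : ∀ W₁ W₂ : Subgroup G, W₁.Normal → W₂.Normal → W₁ ≠ ⊥ → W₂ ≠ ⊥ → W₁ ⊓ W₂ ≠ ⊥) :
    ∃ M : Subgroup G, IsMonolith M := by
  obtain ⟨M, ⟨hMn, hMb⟩, hMmin⟩ := (wellFounded_lt (α := Subgroup G)).has_min
    {N : Subgroup G | N.Normal ∧ N ≠ ⊥} ⟨⊤, inferInstance, hG⟩
  refine ⟨M, hMn, hMb, ?_⟩
  intro N hN hNb
  have h1 : (M ⊓ N).Normal := Subgroup.normal_inf_normal M N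
  have h2 := hMmin (M ⊓ N) ⟨h1, h M N hMn hN hMb hNb⟩
  have h3 : M ⊓ N = M := by
    by_contra hne
    exact h2 (lt_of_le_of_ne inf_le_left hne)
  exact inf_eq_left.1 h3

theorem exists_max_normal {G : Type} [Group G] [Finite G] {N₀ : Subgroup G} (h₀ : N₀.Normal)
    (ht : N₀ ≠ ⊤) : ∃ N : Subgroup G, N.Normal ∧ N ≠ ⊤ ∧ N₀ ≤ N ∧
      ∀ L : Subgroup G, L.Normal → N ≤ L → L = N ∨ L = ⊤ := by
  obtain ⟨N, ⟨hNn, hNt, hle⟩, hmax⟩ := (wellFounded_gt (α := Subgroup G)).has_min
    {N : Subgroup G | N.Normal ∧ N ≠ ⊤ ∧ N₀ ≤ N} ⟨N₀, h₀, ht, le_rfl⟩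
  refine ⟨N, hNn, hNt, hle, ?_⟩
  intro L hL hNL
  by_cases h1 : L = ⊤
  · exact Or.inr h1
  · left
    by_contra hne
    exact hmax L ⟨hL, h1, hle.trans hNL⟩ (lt_of_le_of_ne hNL (Ne.symm hne))

theorem card_lt_of_ne_top {G : Type} [Group G] [Finite G] {N : Subgroup G} (h : N ≠ ⊤) :
    Nat.card N < Nat.card G := by
  have h1 : Nat.card N ≤ Nat.card G := Nat.card_le_card_of_injective _ N.subtype_injective
  refine lt_of_le_of_ne h1 (fun h2 => h ?_)
  exact Subgroup.eq_top_of_card_eq N h2

theorem card_quot_lt {G : Type} [Group G] [Finite G] {N : Subgroup G} (h : N ≠ ⊥) :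
    Nat.card (G ⧸ N) < Nat.card G := by
  have h1 := Subgroup.card_eq_card_quotient_mul_card_subgroup N
  have h2 : 1 < Nat.card N := Subgroup.one_lt_card_iff_ne_bot N |>.2 h
  have h3 : 0 < Nat.card (G ⧸ N) := Nat.card_pos
  rw [h1]
  exact lt_mul_of_one_lt_right h3 h2

/-- A perfect normal subgroup outside of a maximal normal subgroup `N` : its centraliser is in
`N`. -/
theorem s_le {G : Type} [Group G] {X C N : Subgroup G} (hX : X.Normal) (hC : C.Normal)
    (hN : N.Normal)
    (hmax : ∀ L : Subgroup G, L.Normal → N ≤ L → L = N ∨ L = ⊤) (hp : ⁅X, X⁆ = X)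
    (hc : ⁅X, C⁆ = ⊥) (hXN : ¬ X ≤ N) : C ≤ N := by
  by_contra hCN
  have h1 : ∀ A : Subgroup G, A.Normal → ¬ A ≤ N → A.map (QuotientGroup.mk' N) = ⊤ := by
    intro A hA hAN
    have h2 : (A ⊔ N) = ⊤ := by
      rcases hmax (A ⊔ N) (Subgroup.sup_normal A N) le_sup_right with h | h
      · exact absurd (h ▸ le_sup_left) hAN
      · exact h
    rw [eq_top_iff]
    intro q _
    obtain ⟨g, rfl⟩ := QuotientGroup.mk'_surjective N q
    have h3 : g ∈ A ⊔ N := by rw [h2]; exact Subgroup.mem_top g
    obtain ⟨a, ha, n, hn, rfl⟩ := Subgroup.mem_sup_of_normal_right.1 h3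
    refine ⟨a, ha, ?_⟩
    rw [map_mul, show (QuotientGroup.mk' N) n = 1 from (QuotientGroup.eq_one_iff n).2 hn, mul_one]
  have h4 : (⁅X, X⁆).map (QuotientGroup.mk' N) = ⊥ := by
    rw [Subgroup.map_commutator, h1 X hX hXN]
    nth_rewrite 1 [← h1 X hX hXN]
    rw [← h1 C hC hCN, ← Subgroup.map_commutator, hc, Subgroup.map_bot]
  rw [hp] at h4
  apply hXN
  intro x hx
  have h5 : (QuotientGroup.mk' N) x ∈ X.map (QuotientGroup.mk' N) := ⟨x, hx, rfl⟩
  rw [h4, Subgroup.mem_bot] at h5
  exact (QuotientGroup.eq_one_iff x).1 h5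

theorem s_both {E : GroupClass} (hE : IsFormation E) {G : Type} [Group G]
    {X C N : Subgroup G} (hX : X.Normal) (hC : C.Normal) (hN : N.Normal)
    (hmax : ∀ L : Subgroup G, L.Normal → N ≤ L → L = N ∨ L = ⊤) (hp : ⁅X, X⁆ = X)
    (hc : ⁅X, C⁆ = ⊥) (hXN : ¬ X ≤ N) (hXC : X ⊔ C = ⊤) (hEC : E C)
    (hEX : E (N ⊓ X : Subgroup G)) : E N := by
  have hCN : C ≤ N := s_le hX hC hN hmax hp hc hXN
  refine s_prod hE hEX hEC ?_ (le_antisymm (sup_le inf_le_left hCN) ?_)
  · rw [eq_bot_iff, ← hc]
    exact Subgroup.commutator_mono inf_le_right le_rfl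
  · intro n hn
    have h3 : n ∈ X ⊔ C := by rw [hXC]; exact Subgroup.mem_top n
    obtain ⟨x, hx, c, hc', rfl⟩ := Subgroup.mem_sup_of_normal_right.1 h3
    refine Subgroup.mul_mem_sup ⟨?_, hx⟩ hc'
    have := N.mul_mem hn (N.inv_mem (hCN hc'))
    rwa [mul_inv_cancel_right] at this

theorem np_center_quot {G : Type} [Group G] [Finite G] {K : Subgroup G} [K.Normal]
    (hK : K ≤ center G) (h : NP (G ⧸ K)) : NP (G ⧸ center G) := by
  have h1 : (Finite (G ⧸ K)) ∧ NP (G ⧸ K) := ⟨inferInstance, h⟩
  exact (finite_np_isFormation.surj (G := G ⧸ K) (H := G ⧸ center G) h1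
    (QuotientGroup.map K (center G) (MonoidHom.id G) hK) (by
      intro q
      obtain ⟨g, rfl⟩ := QuotientGroup.mk'_surjective (center G) q
      exact ⟨(g : G ⧸ K), rfl⟩)).2

theorem sufficient {F : GroupClass} (hF : IsFormation F) (h1 : Cond1 F) (h2 : Cond2 F)
    (h3 : Cond3 F) (h4 : Cond4 F) : AllSubformationsSnClosed F := by
  intro E hE hEF
  have main : ∀ n : ℕ, ∀ (G : Type) [Group G], Nat.card G = n → E G →
      ∀ N : Subgroup G, N.Normal → E N := by
    intro n
    induction n using Nat.strong_induction_on with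
    | _ n ih =>
      intro G _ hn hG N₀ hN₀
      by_contra hcon
      haveI : Finite G := hE.finite G hG
      -- induction hypothesis in convenient form
      have IH : ∀ (H : Type) [Group H], Nat.card H < Nat.card G → E H →
          ∀ N : Subgroup H, N.Normal → E N := by
        intro H _ hH hEH N hN
        exact ih (Nat.card H) (hn ▸ hH) H rfl hEH N hN
      have hN₀t : N₀ ≠ ⊤ := by
        rintro rfl
        exact hcon (hE.iso _ _ ⟨Subgroup.topEquiv.symm⟩ hG)
      obtain ⟨N, hN, hNt, hle, hmax⟩ := exists_max_normal hN₀ hN₀t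
      have hEN : ¬ E N := by
        intro hEN
        apply hcon
        have := IH N (card_lt_of_ne_top hNt) hEN (N₀.subgroupOf N) inferInstance
        exact hE.iso _ _ ⟨Subgroup.subgroupOfEquivOfLe hle⟩ this
      -- subgroups of normal subgroups
      have IH' : ∀ X : Subgroup G, X ≠ ⊤ → E X → E (N ⊓ X : Subgroup G) := by
        intro X hXt hEX
        have h5 := IH X (card_lt_of_ne_top hXt) hEX (N.subgroupOf X) inferInstance
        have h6 : E ((N ⊓ X).subgroupOf X) := by
          have : (N ⊓ X).subgroupOf X = N.subgroupOf X := by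
            ext x
            simp [Subgroup.mem_subgroupOf]
          rw [this]
          exact h5
        exact hE.iso _ _ ⟨Subgroup.subgroupOfEquivOfLe inf_le_right⟩ h6
      -- the monolith
      have htop : (⊤ : Subgroup G) ≠ ⊥ := by
        intro h
        apply hNt
        rw [eq_top_iff, h]
        exact bot_le
      obtain ⟨W, hW⟩ := exists_monolith htop (by
        intro W₁ W₂ hW₁ hW₂ hb₁ hb₂ hb
        apply hEN
        have key : ∀ W : Subgroup G, ∀ _ : W.Normal, W ≠ ⊥ →
            E (N.map (QuotientGroup.mk' W)) := by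
          intro W hWn hWb
          exact IH (G ⧸ W) (card_quot_lt hWb) (hE.quotient G W hG) _
            (Subgroup.Normal.map hN _ (QuotientGroup.mk'_surjective W))
        haveI : Finite N := inferInstance
        refine hE.subdirect_hom ((QuotientGroup.mk' W₁).subgroupMap N)
          ((QuotientGroup.mk' W₂).subgroupMap N)
          ((QuotientGroup.mk' W₁).subgroupMap_surjective N)
          ((QuotientGroup.mk' W₂).subgroupMap_surjective N) (key W₁ hW₁ hb₁) (key W₂ hW₂ hb₂) ?_
        intro x hx₁ hx₂
        have a₁ : (x : G) ∈ W₁ := (QuotientGroup.eq_one_iff (x : G)).1 (congrArg Subtype.val hx₁)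
        have a₂ : (x : G) ∈ W₂ := (QuotientGroup.eq_one_iff (x : G)).1 (congrArg Subtype.val hx₂)
        have a₃ : (x : G) ∈ W₁ ⊓ W₂ := ⟨a₁, a₂⟩
        rw [hb, Subgroup.mem_bot] at a₃
        exact Subtype.ext a₃)
      haveI := hW.normal
      by_cases hWc : ⁅W, W⁆ = ⊥
      · -- abelian monolith
        have hWt : ⁅W, (⊤ : Subgroup G)⁆ ≤ ⊥ := by
          refine h1 G (hEF G hG) W ⊥ ⟨hW.normal, inferInstance, bot_lt_iff_ne_bot.2 hW.ne_bot, ?_⟩
            hWc.le
          intro L hL _ hLW
          by_cases hLb : L = ⊥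
          · exact Or.inl hLb
          · exact Or.inr (le_antisymm hLW (hW.le L hL hLb))
        have hWcen : W ≤ center G := by
          intro w hw
          rw [Subgroup.mem_center_iff]
          intro g
          exact (commute_of_commutator_eq_bot (le_bot_iff.1 hWt) hw (Subgroup.mem_top g)).symm
        obtain ⟨P, K, hK, hPn, hPK, hPKc, hPp, hKn, hNP⟩ := qc_split (qc_of hF h1 h2 G (hEF G hG))
        have hPp' : ⁅P, P⁆ = P := (isPerfect_iff P).1 hPp
        have hEK : E K := s_nilp hE hG hPn hK hPK hPKc hKn
        have hEP : E P := s_factor hE hG (X := K) (C := P) (by rw [sup_comm]; exact hPK)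
          (by rw [Subgroup.commutator_comm]; exact hPKc) hEK
        by_cases hPN : P ≤ N
        · -- N = P (N ∩ K)
          apply hEN
          have hENK : E (N ⊓ K : Subgroup G) := by
            have h5 : E ((N ⊓ K).subgroupOf K) := neumann hE hEK hKn _
            exact hE.iso _ _ ⟨Subgroup.subgroupOfEquivOfLe inf_le_right⟩ h5
          refine s_prod hE hEP hENK ?_ (le_antisymm (sup_le hPN inf_le_left) ?_)
          · rw [eq_bot_iff, ← hPKc]
            exact Subgroup.commutator_mono le_rfl inf_le_right
          · intro n hn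
            have h6 : n ∈ P ⊔ K := by rw [hPK]; exact Subgroup.mem_top n
            obtain ⟨x, hx, c, hc', rfl⟩ := Subgroup.mem_sup_of_normal_right.1 h6
            refine Subgroup.mul_mem_sup hx ⟨?_, hc'⟩
            have := N.mul_mem (N.inv_mem (hPN hx)) hn
            rwa [inv_mul_cancel_left] at this
        by_cases hPt : P = ⊤
        swap
        · exact hEN (s_both hE hPn hK hN hmax hPp' hPKc hPN hPK hEK (IH' P hPt hEP))
        -- G is perfect
        have hGp' : ⁅(⊤ : Subgroup G), (⊤ : Subgroup G)⁆ = ⊤ := by rw [hPt] at hPp'; exact hPp'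
        have hGp : IsPerfect G := hGp'
        have hKc : K ≤ center G := by
          intro k hk
          rw [Subgroup.mem_center_iff]
          intro g
          rw [hPt] at hPKc
          exact commute_of_commutator_eq_bot hPKc (Subgroup.mem_top g) hk
        have hNPc : NP (G ⧸ center G) := np_center_quot hKc hNP
        have hcc : ⁅(⊤ : Subgroup G), center G⁆ = ⊥ := commutator_eq_bot_of_commute
          (fun a _ b hb => (Subgroup.mem_center_iff.1 hb a))
        have hNt' : ¬ (⊤ : Subgroup G) ≤ N := fun h => hNt (top_le_iff.1 h)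
        have hcN : center G ≤ N := s_le inferInstance inferInstance hN hmax hGp' hcc hNt'
        by_cases hNl : IsLargestNormal N
        · obtain ⟨_, him⟩ := h4 G (hEF G hG) hGp N W hNl hW hWcen
          have hEN' : E (⁅N, N⁆ : Subgroup G) := hE.of_image hG him
          have hcomm : (center G) ≤ center G := le_rfl
          have hcn : Group.IsNilpotent (center G) := center_nilpotent G
          have hEc : E (center G) := s_nilp hE hG (E := ⊤) (P := center G) inferInstance
            inferInstance (by rw [top_sup_eq]) hcc hcn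
          apply hEN
          refine s_prod hE hEN' hEc ?_ (le_antisymm (sup_le ?_ hcN) ?_)
          · rw [eq_bot_iff, ← hcc]
            exact Subgroup.commutator_mono le_top le_rfl
          · exact Subgroup.commutator_le_right N N
          · intro n hn
            have h7 := hNPc (N.map (QuotientGroup.mk' (center G)))
              (Subgroup.Normal.map hN _ (QuotientGroup.mk'_surjective _))
            rw [← Subgroup.map_commutator] at h7
            have h8 : (QuotientGroup.mk' (center G)) n ∈
                (⁅N, N⁆).map (QuotientGroup.mk' (center G)) := by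
              rw [h7]
              exact ⟨n, hn, rfl⟩
            obtain ⟨c, hc, hcn'⟩ := h8
            have h9 : c⁻¹ * n ∈ center G := QuotientGroup.eq.1 hcn'
            have h10 : n = c * (c⁻¹ * n) := by group
            rw [h10]
            exact Subgroup.mul_mem_sup hc h9
        · obtain ⟨X, hXn, hXp, hXt, hXC, hXN, NX, hNX⟩ :=
            v_component hF h2 (hEF G hG) hGp hNPc hN hNt hmax hNl
          haveI := hXn
          have hXp' : ⁅X, X⁆ = X := (isPerfect_iff X).1 hXp
          have hXc : ⁅X, centralizer (X : Set G)⁆ = ⊥ := commutator_eq_bot_of_commute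
            (fun a ha b hb => (Subgroup.mem_centralizer_iff.1 hb a ha))
          have hCn : (centralizer (X : Set G)).Normal := inferInstance
          have hFX : F X := h3 G (hEF G hG) hGp X _ hXn hCn hXC hXc hXp
          have hXb : X ≠ ⊥ := by
            rintro rfl
            exact hXN bot_le
          have hWX : W ≤ X := hW.le X hXn hXb
          have hWX' : IsMonolith (W.subgroupOf X) := by
            refine ⟨inferInstance, ?_, ?_⟩
            · intro h
              apply hW.ne_bot
              rw [Subgroup.subgroupOf_eq_bot] at h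
              rw [← inf_eq_left.2 hWX]
              exact disjoint_iff.1 h
            · intro L hL hLb
              have hLn : (L.map X.subtype).Normal := by
                constructor
                rintro _ ⟨l, hl, rfl⟩ g
                have h5 : g ∈ X ⊔ centralizer (X : Set G) := by
                  rw [hXC]; exact Subgroup.mem_top g
                obtain ⟨x, hx, c, hc', rfl⟩ := Subgroup.mem_sup_of_normal_right.1 h5
                refine ⟨⟨x, hx⟩ * l * ⟨x, hx⟩⁻¹, hL.conj_mem l hl _, ?_⟩
                have h6 : (l : G) * c = c * l := Subgroup.mem_centralizer_iff.1 hc' l l.2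
                simp only [map_mul, Subgroup.coe_subtype, map_inv]
                rw [mul_inv_rev]
                calc x * (l : G) * x⁻¹ = x * ((l : G) * c) * c⁻¹ * x⁻¹ := by group
                  _ = x * c * (l : G) * (c⁻¹ * x⁻¹) := by rw [h6]; group
              have hLb' : L.map X.subtype ≠ ⊥ := by
                rwa [Ne, Subgroup.map_eq_bot_iff_of_injective L X.subtype_injective]
              have h7 := hW.le _ hLn hLb'
              intro w hw
              obtain ⟨l, hl, hlw⟩ := h7 (Subgroup.mem_subgroupOf.1 hw)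
              have : l = w := Subtype.ext hlw
              rwa [← this]
          have hWXc : W.subgroupOf X ≤ center X := by
            intro w hw
            rw [Subgroup.mem_center_iff]
            intro g
            apply Subtype.ext
            exact Subgroup.mem_center_iff.1 (hWcen (Subgroup.mem_subgroupOf.1 hw)) g
          obtain ⟨hav, _⟩ := h4 X hFX hXp NX _ hNX hWX' hWXc
          have hEX : E X := s_avoid hE hG hXC hXc hWX' hav
          have hEC : E (centralizer (X : Set G)) := s_factor hE hG hXC hXc hEX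
          exact hEN (s_both hE hXn hCn hN hmax hXp' hXc hXN hXC hEC (IH' X hXt hEX))
      · -- nonabelian monolith
        obtain ⟨_, N₁, hN₁, hor⟩ := h2 G (hEF G hG) W hW hWc
        have hNN : N₁ = N := by
          rcases hmax N₁ hN₁.normal (hN₁.le N hN hNt) with h | h
          · exact h
          · exact absurd h hN₁.ne_top
        subst hNN
        rcases hor with h | h
        · apply hEN
          have h5 : ∀ y ∈ N₁, y = 1 := by
            intro y hy
            rw [h] at hy
            exact Subgroup.mem_bot.1 hy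
          exact hE.trivial_mem hG (fun x => Subtype.ext (h5 x x.2))
        · exact hEN (hE.of_subdirectPower (hE.quotient G W hG) h)
  intro G _ N hN hG
  exact main (Nat.card G) G rfl hG N hN

end Pool.Agent.Helper75.SNF
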